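import Pool.Agent.Y546.WQ.Stm3
import Pool.Agent.Y546.WQ.Wie

/-!
# Project H95F: the Stickelberger relation modulo a prime above `l`
-/

set_option autoImplicit false

namespace Pool.Agent.H95F

open Pool.Agent.Y546.WQ NumberField IsDedekindDomain Polynomial

/-- the value of the polynomial and its reflection in characteristic `l` -/
theorem refl_val {F : Type} [Field F] {l : ℕ} [Fact l.Prime] [CharP F l] (f : Polynomial ℤ)
    (m a b s : ℕ) (hf : f.natDegree ≤ m)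
    (h : X ^ b * f.map (Int.castRingHom (ZMod l)) =
      (-1) ^ s * X ^ a * (f.reflect m).map (Int.castRingHom (ZMod l))) (y : F) (hy : y ≠ 0) :
    y ^ b * f.eval₂ (Int.castRingHom F) y =
      (-1) ^ s * y ^ (a + m) * f.eval₂ (Int.castRingHom F) y⁻¹ := by
  let ι : ZMod l →+* F := ZMod.castHom (dvd_refl l) F
  have h1 : ∀ q : Polynomial ℤ, (q.map (Int.castRingHom (ZMod l))).eval₂ ι y =
      q.eval₂ (Int.castRingHom F) y := by
    intro q
    rw [Polynomial.eval₂_map]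
    congr 1
    exact RingHom.ext_int _ _
  have h3 := congrArg (Polynomial.eval₂ ι y) h
  rw [Polynomial.eval₂_mul, Polynomial.eval₂_mul, Polynomial.eval₂_mul, Polynomial.eval₂_X_pow,
    Polynomial.eval₂_X_pow, Polynomial.eval₂_pow, Polynomial.eval₂_neg, Polynomial.eval₂_one,
    h1, h1] at h3
  rw [h3]
  letI : Invertible y⁻¹ := invertibleOfNonzero (inv_ne_zero hy)
  have h4 := Polynomial.eval₂_reflect_mul_pow (Int.castRingHom F) y⁻¹ m f hf
  rw [invOf_eq_inv, inv_inv] at h4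
  rw [← h4, pow_add, inv_pow]
  have h5 : y ^ m ≠ 0 := pow_ne_zero _ hy
  field_simp

/-- the relation in a quotient field of characteristic `l` -/
theorem rel_F {p : ℕ} [Fact p.Prime] {E : Type} [Field E] [NumberField E] (c : Cyc p E)
    (a : ℕ) (l : ℕ) (hl : l.Prime) (f : Polynomial ℤ) (n : ℤ) (hn : ¬ (l : ℤ) ∣ n)
    (hP : ∀ P : Ideal (𝓞 E), P.IsPrime → ((l : ℕ) : 𝓞 E) ∈ P →
      ∀ w : 𝓞 E, (w : E) = aeval c.z f → w ∉ P)
    (g : E) (i : ℕ) (hrel : tha c a (aeval c.z f / (n : E)) = c.z ^ i * g ^ p)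
    (zO : 𝓞 E) (hz : (zO : E) = c.z) {F : Type} [Field F] [CharP F l] (ψ : 𝓞 E →+* F) :
    ∃ d : F, d ≠ 0 ∧ ∏ t ∈ hf p a, f.eval₂ (Int.castRingHom F)
      (ψ zO ^ ((t⁻¹ : (ZMod p)ˣ) : ZMod p).val) =
        ((n : ℤ) : F) ^ (hf p a).card * (ψ zO ^ i * d ^ p) := by
  have hpp : p.Prime := Fact.out
  have hp0 : p ≠ 0 := hpp.ne_zero
  have hzp : zO ^ p = 1 := by
    apply RingOfIntegers.coe_injective
    show (algebraMap (𝓞 E) E) _ = (algebraMap (𝓞 E) E) _
    have e2 : (algebraMap (𝓞 E) E) zO = c.z := hz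
    rw [map_pow, map_one, e2, c.prim.pow_eq_one]
  have hw0 : ψ zO ≠ 0 := by
    intro h
    have h1 := congrArg ψ hzp
    rw [map_pow, h, zero_pow hp0, map_one] at h1
    exact zero_ne_one h1
  have hlk : ((l : ℕ) : 𝓞 E) ∈ RingHom.ker ψ := by
    rw [RingHom.mem_ker, map_natCast]
    exact CharP.cast_eq_zero F l
  have hkb : RingHom.ker ψ ≠ ⊥ := by
    intro h
    rw [h, Ideal.mem_bot, Nat.cast_eq_zero] at hlk
    exact hl.ne_zero hlk
  let v : HeightOneSpectrum (𝓞 E) := ⟨RingHom.ker ψ, RingHom.ker_isPrime ψ, hkb⟩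
  have hab : ∃ al be : 𝓞 E, ¬ (ψ al = 0 ∧ ψ be = 0) ∧ g * (be : E) = (al : E) := by
    obtain ⟨x, d, h | h⟩ := v.exists_primeCompl_mul_eq_or_mul_eq g
    · refine ⟨x, d, fun hh => ?_, h⟩
      exact d.2 hh.2
    · refine ⟨d, x, fun hh => ?_, h⟩
      exact d.2 hh.1
  obtain ⟨al, be, h0, hgab⟩ := hab
  have hn0 : (n : E) ≠ 0 := by
    intro h
    have h1 : n = 0 := by exact_mod_cast h
    rw [h1] at hn
    exact hn (dvd_zero _)
  have hae : ∀ k : ℕ, algebraMap (𝓞 E) E (aeval (zO ^ k) f) = aeval (c.z ^ k) f := by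
    intro k
    rw [← Polynomial.aeval_algebraMap_apply, map_pow]
    rw [show algebraMap (𝓞 E) E zO = c.z from hz]
  have hsig : ∀ t : (ZMod p)ˣ, c.σ t (aeval c.z f) = aeval (c.z ^ (t : ZMod p).val) f := by
    intro t
    have e1 := Polynomial.map_aeval_eq_aeval_map (φ := Int.castRingHom ℤ)
      (ψ := ((c.σ t : E ≃ₐ[ℚ] E) : E →+* E)) (RingHom.ext_int _ _) f c.z
    rw [show (Int.castRingHom ℤ) = RingHom.id ℤ from rfl, Polynomial.map_id] at e1
    rw [← c.σ_z t]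
    exact e1
  have hR : (∏ t ∈ hf p a, aeval (zO ^ ((t⁻¹ : (ZMod p)ˣ) : ZMod p).val) f) * be ^ p =
      (n : 𝓞 E) ^ (hf p a).card * (zO ^ i * al ^ p) := by
    apply RingOfIntegers.coe_injective
    have e1 : tha c a (aeval c.z f / (n : E)) =
        (∏ t ∈ hf p a, aeval (c.z ^ ((t⁻¹ : (ZMod p)ˣ) : ZMod p).val) f) /
          (n : E) ^ (hf p a).card := by
      unfold tha
      rw [← Finset.prod_const, ← Finset.prod_div_distrib]
      refine Finset.prod_congr rfl fun t _ => ?_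
      rw [map_div₀, map_intCast, hsig]
    rw [e1, div_eq_iff (pow_ne_zero _ hn0)] at hrel
    show (algebraMap (𝓞 E) E) _ = (algebraMap (𝓞 E) E) _
    have e2 : (algebraMap (𝓞 E) E) zO = c.z := hz
    simp only [map_mul, map_pow, map_prod, map_intCast, e2, hae]
    rw [hrel]
    have e3 : (algebraMap (𝓞 E) E) al = g * (algebraMap (𝓞 E) E) be := hgab.symm
    rw [e3, mul_pow]
    ring
  have hRF := congrArg ψ hR
  have hψ : ∀ x : 𝓞 E, ψ (aeval x f) = f.eval₂ (Int.castRingHom F) (ψ x) := by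
    intro x
    rw [Polynomial.aeval_def, Polynomial.hom_eval₂]
    congr 1
    exact RingHom.ext_int _ _
  simp only [map_mul, map_pow, map_prod, map_intCast, hψ] at hRF
  have hnF : ((n : ℤ) : F) ≠ 0 := by
    intro h
    exact hn ((CharP.intCast_eq_zero_iff F l n).1 h)
  -- the product is not zero
  have hne : ∏ t ∈ hf p a, f.eval₂ (Int.castRingHom F)
      (ψ zO ^ ((t⁻¹ : (ZMod p)ˣ) : ZMod p).val) ≠ 0 := by
    refine Finset.prod_ne_zero_iff.2 fun t _ hh => ?_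
    have e1 : rs c t⁻¹ (aeval zO f) = aeval (zO ^ ((t⁻¹ : (ZMod p)ˣ) : ZMod p).val) f := by
      apply RingOfIntegers.coe_injective
      have e2 : ((rs c t⁻¹ (aeval zO f) : 𝓞 E) : E) = c.σ t⁻¹ ((aeval zO f : 𝓞 E) : E) := rfl
      refine e2.trans ?_
      have e3 := hae 1
      rw [pow_one, pow_one] at e3
      have e4 : ((aeval zO f : 𝓞 E) : E) = aeval c.z f := e3
      rw [e4, hsig]
      exact (hae _).symm
    have e5 : ψ (rs c t⁻¹ (aeval zO f)) = 0 := by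
      rw [e1, hψ, map_pow]
      exact hh
    refine hP (RingHom.ker (ψ.comp (rs c t⁻¹ : 𝓞 E →+* 𝓞 E))) (RingHom.ker_isPrime _) ?_
      (aeval zO f) ?_ ?_
    · rw [RingHom.mem_ker, map_natCast]
      exact CharP.cast_eq_zero F l
    · have e3 := hae 1
      rw [pow_one, pow_one] at e3
      exact e3
    · rw [RingHom.mem_ker]
      exact e5
  have hbe : ψ be ≠ 0 := by
    intro h
    rw [h, zero_pow hp0, mul_zero] at hRF
    have h1 : ψ zO ^ i * ψ al ^ p = 0 :=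
      (mul_eq_zero.1 hRF.symm).resolve_left (pow_ne_zero _ hnF)
    have h2 : ψ al ^ p = 0 := (mul_eq_zero.1 h1).resolve_left (pow_ne_zero _ hw0)
    exact h0 ⟨pow_eq_zero_iff hp0 |>.1 h2, h⟩
  have hal : ψ al ≠ 0 := by
    intro h
    rw [h, zero_pow hp0, mul_zero, mul_zero] at hRF
    have h1 : ψ be ^ p = 0 := (mul_eq_zero.1 hRF).resolve_left hne
    exact h0 ⟨h, pow_eq_zero_iff hp0 |>.1 h1⟩
  refine ⟨ψ al / ψ be, div_ne_zero hal hbe, ?_⟩
  rw [div_pow, ← mul_div_assoc, ← mul_div_assoc, eq_div_iff (pow_ne_zero _ hbe)]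
  exact hRF

/-- a `p`-th root of a `p`-th root of unity `w ≠ 1` gives `p ^ 2 ∣ l ^ (p - 1) - 1` -/
theorem core {p l : ℕ} (hp : p.Prime) (hl : l.Prime) {F : Type} [Field F] {w v : F}
    (hw : w ^ p = 1) (hw1 : w ≠ 1) (hF : ∀ x : F, x ^ l ^ (p - 1) = x) (hv : v ≠ 0) (j : ℕ)
    (hj : ¬ p ∣ j) (h : w ^ j = v ^ p) : p ^ 2 ∣ l ^ (p - 1) - 1 := by
  have hfp : Fact p.Prime := ⟨hp⟩
  obtain ⟨j', hj'⟩ : ∃ j' : ℕ, j * j' ≡ 1 [MOD p] := by
    have hc : Nat.Coprime j p := ((Nat.Prime.coprime_iff_not_dvd hp).2 hj).symm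
    obtain ⟨j', -, hj'⟩ := Nat.exists_mul_mod_eq_one_of_coprime hc hp.one_lt
    refine ⟨j', ?_⟩
    unfold Nat.ModEq
    rw [hj', Nat.mod_eq_of_lt hp.one_lt]
  set u : F := v ^ j' with hu
  have hu0 : u ≠ 0 := pow_ne_zero _ hv
  have huw : u ^ p = w := by
    rw [hu, ← pow_mul, mul_comm, pow_mul, ← h, ← pow_mul, pow_eq_pow_mod _ hw]
    have : j * j' % p = 1 := by
      have h1 : j * j' % p = 1 % p := hj'
      rw [h1, Nat.mod_eq_of_lt hp.one_lt]
    rw [this, pow_one]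
  have hord : orderOf u = p ^ 2 := by
    have h1 : ¬ u ^ p ^ 1 = 1 := by
      rw [pow_one, huw]
      exact hw1
    have h2 : u ^ p ^ (1 + 1) = 1 := by
      rw [pow_succ, pow_one, pow_mul, huw, hw]
    exact orderOf_eq_prime_pow h1 h2
  rw [← hord]
  apply orderOf_dvd_of_pow_eq_one
  have h3 := hF u
  have h4 : u ^ (l ^ (p - 1) - 1) * u = 1 * u := by
    rw [← pow_succ, Nat.sub_add_cancel (Nat.one_le_pow _ _ hl.pos), h3, one_mul]
  exact mul_right_cancel₀ hu0 h4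

/-- ELLA: the relation modulo a prime above `l` -/
theorem ella (p : ℕ) [Fact p.Prime] (hp2 : p ≠ 2) (l : ℕ) (hl : l.Prime) (hlp : l ≠ p) (av : ℕ)
    (E : Type) [Field E] [NumberField E] (c : Cyc p E) (f : Polynomial ℤ) (n : ℤ)
    (hn : ¬ (l : ℤ) ∣ n) (m a b s : ℕ) (hdf : f.natDegree ≤ m)
    (hab : X ^ b * f.map (Int.castRingHom (ZMod l)) =
      (-1) ^ s * X ^ a * (f.reflect m).map (Int.castRingHom (ZMod l)))
    (hP : ∀ P : Ideal (𝓞 E), P.IsPrime → ((l : ℕ) : 𝓞 E) ∈ P →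
      ∀ w : 𝓞 E, (w : E) = aeval c.z f → w ∉ P)
    (g : E) (i : ℕ) (hrel : tha c av (aeval c.z f / (n : E)) = c.z ^ i * g ^ p) :
    2 * (i : ZMod p) = ((m : ZMod p) + a - b) * hsa p av 1 ∨ p ^ 2 ∣ l ^ (p - 1) - 1 := by
  have hpp : p.Prime := Fact.out
  have hfl : Fact l.Prime := ⟨hl⟩
  have hp1 := hpp.one_lt
  have hodd : Odd p := hpp.odd_of_ne_two hp2
  obtain ⟨M, hM, hlM⟩ : ∃ M : Ideal (𝓞 E), M.IsMaximal ∧ ((l : ℕ) : 𝓞 E) ∈ M := by
    have h1 : (Ideal.span {(l : ℤ)}).IsMaximal :=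
      PrincipalIdealRing.isMaximal_of_irreducible (Nat.prime_iff_prime_int.1 hl).irreducible
    obtain ⟨M, hM, hMl⟩ := Ideal.exists_maximal_ideal_liesOver_of_isIntegral (S := 𝓞 E)
      (Ideal.span {(l : ℤ)})
    refine ⟨M, hM, ?_⟩
    have h2 : (l : ℤ) ∈ M.under ℤ := by
      rw [← hMl.over]
      exact Ideal.mem_span_singleton_self _
    rw [Ideal.under_def, Ideal.mem_comap] at h2
    simpa using h2
  let _ : Field (𝓞 E ⧸ M) := Ideal.Quotient.field M
  let φ : 𝓞 E →+* (𝓞 E ⧸ M) := Ideal.Quotient.mk M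
  have hchar : CharP (𝓞 E ⧸ M) l := charP_quot M hM.isPrime l hl hlM
  -- the root of unity as an integer
  let zO : 𝓞 E := ⟨c.z, c.prim.isIntegral hpp.pos⟩
  have hzO : (zO : E) = c.z := rfl
  have hzprim : IsPrimitiveRoot zO p :=
    IsPrimitiveRoot.of_map_of_injective (f := algebraMap (𝓞 E) E) c.prim
      (RingOfIntegers.coe_injective)
  set w : 𝓞 E ⧸ M := φ zO with hwdef
  have hw : w ^ p = 1 := by rw [hwdef, ← map_pow, hzprim.pow_eq_one, map_one]
  have hw0 : w ≠ 0 := by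
    intro h
    rw [h, zero_pow hpp.ne_zero] at hw
    exact zero_ne_one hw
  have hpF : ((p : ℕ) : 𝓞 E ⧸ M) ≠ 0 := by
    intro h
    have h1 := (CharP.cast_eq_zero_iff (𝓞 E ⧸ M) l p).1 h
    exact hlp ((Nat.prime_dvd_prime_iff_eq hl hpp).1 h1)
  have hw1 : w ≠ 1 := by
    intro h
    have h1 := hzprim.geom_sum_eq_zero hpp.one_lt
    have h3 := congrArg φ h1
    rw [map_sum, map_zero] at h3
    have h4 : ∀ j ∈ Finset.range p, φ (zO ^ j) = 1 := by
      intro j _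
      rw [map_pow, ← hwdef, h, one_pow]
    rw [Finset.sum_congr rfl h4, Finset.sum_const, Finset.card_range, nsmul_one] at h3
    exact hpF h3
  -- the Frobenius
  have hF : ∀ x : 𝓞 E ⧸ M, x ^ l ^ (p - 1) = x := by
    intro x
    obtain ⟨y, rfl⟩ := Ideal.Quotient.mk_surjective x
    obtain ⟨f, hf⟩ := c.gen (y : E) y.2
    have h1 : y = Polynomial.aeval zO f := by
      apply RingOfIntegers.coe_injective
      have := Polynomial.aeval_algebraMap_apply E zO f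
      exact hf.trans this
    have h3 : ∀ ψ : 𝓞 E →+* (𝓞 E ⧸ M), ψ (Polynomial.aeval zO f) =
        Polynomial.eval₂ (Int.castRingHom _) (ψ zO) f := by
      intro ψ
      rw [Polynomial.aeval_def, Polynomial.hom_eval₂]
      congr 1
      exact RingHom.ext_int _ _
    have h4 := h3 φ
    have h5 := h3 ((iterateFrobenius (𝓞 E ⧸ M) l (p - 1)).comp φ)
    rw [RingHom.comp_apply, RingHom.comp_apply, iterateFrobenius_def, iterateFrobenius_def] at h5
    have h6 : (φ zO) ^ l ^ (p - 1) = φ zO := by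
      have e1 : l ^ (p - 1) % p = 1 := by
        have e2 : ((l ^ (p - 1) : ℕ) : ZMod p) = ((1 : ℕ) : ZMod p) := by
          push_cast
          refine ZMod.pow_card_sub_one_eq_one ?_
          rw [Ne, ZMod.natCast_eq_zero_iff]
          intro hd
          exact hlp ((Nat.prime_dvd_prime_iff_eq hpp hl).1 hd).symm
        rw [ZMod.natCast_eq_natCast_iff] at e2
        have e3 : l ^ (p - 1) % p = 1 % p := e2
        rw [e3, Nat.mod_eq_of_lt hpp.one_lt]
      rw [pow_eq_pow_mod _ hw, e1, pow_one]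
    rw [h6, ← h4] at h5
    have h7 : Ideal.Quotient.mk M y = φ (Polynomial.aeval zO f) := by rw [← h1]
    rw [h7]
    exact h5
  -- the two relations
  obtain ⟨d1, hd1, hr1⟩ := rel_F c av l hl f n hn hP g i hrel zO hzO φ
  obtain ⟨d2, hd2, hr2⟩ := rel_F c av l hl f n hn hP g i hrel zO hzO
    (φ.comp (rs c (-1) : 𝓞 E →+* 𝓞 E))
  have hw' : (φ.comp (rs c (-1) : 𝓞 E →+* 𝓞 E)) zO = w⁻¹ := by
    have e1 : rs c (-1) zO = zO ^ ((-1 : (ZMod p)ˣ) : ZMod p).val := by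
      apply RingOfIntegers.coe_injective
      have e2 : ((rs c (-1) zO : 𝓞 E) : E) = c.σ (-1) ((zO : 𝓞 E) : E) := rfl
      refine e2.trans ?_
      rw [hzO, c.σ_z]
      rfl
    have e3 : (φ.comp (rs c (-1) : 𝓞 E →+* 𝓞 E)) zO = φ (rs c (-1) zO) := rfl
    rw [e3, e1, map_pow, Units.val_neg, Units.val_one]
    apply eq_inv_of_mul_eq_one_left
    rw [← hwdef, ← pow_succ]
    have e4 : (-1 : ZMod p).val + 1 = p := by
      rw [ZMod.neg_val, if_neg one_ne_zero]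
      haveI : Fact (1 < p) := ⟨hp1⟩
      rw [ZMod.val_one]
      omega
    rw [e4, hw]
  rw [hw'] at hr2
  rw [← hwdef] at hr1
  set nF : 𝓞 E ⧸ M := ((n : ℤ) : 𝓞 E ⧸ M) ^ (hf p av).card with hnF
  have hnF0 : nF ≠ 0 := by
    rw [hnF]
    apply pow_ne_zero
    intro h
    exact hn ((CharP.intCast_eq_zero_iff (𝓞 E ⧸ M) l n).1 h)
  set SS : ℕ := ∑ t ∈ hf p av, ((t⁻¹ : (ZMod p)ˣ) : ZMod p).val with hSS
  have hSSc : ((SS : ℕ) : ZMod p) = hsa p av 1 := by
    rw [hSS]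
    unfold hsa
    push_cast
    refine Finset.sum_congr rfl fun t _ => ?_
    rw [ZMod.natCast_val, ZMod.cast_id', id, pow_one]
  have hprod : w ^ (SS * b) * (nF * (w ^ i * d1 ^ p)) =
      ((-1) ^ s) ^ (hf p av).card * w ^ (SS * (a + m)) * (nF * ((w⁻¹) ^ i * d2 ^ p)) := by
    rw [← hr1, ← hr2, pow_mul, pow_mul, hSS, ← Finset.prod_pow_eq_pow_sum, ← Finset.prod_pow,
      ← Finset.prod_pow, ← Finset.prod_const, ← Finset.prod_mul_distrib,
      ← Finset.prod_mul_distrib, ← Finset.prod_mul_distrib]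
    refine Finset.prod_congr rfl fun t _ => ?_
    have := refl_val f m a b s hdf hab (w ^ ((t⁻¹ : (ZMod p)ˣ) : ZMod p).val)
      (pow_ne_zero _ hw0)
    rw [inv_pow]
    exact this
  by_cases hW : p ^ 2 ∣ l ^ (p - 1) - 1
  · exact Or.inr hW
  left
  -- the exponent
  set k : ℕ := ((m : ZMod p) + a - b).val with hk
  have hkc : ((k : ℕ) : ZMod p) = (m : ZMod p) + a - b := by
    rw [hk, ZMod.natCast_val, ZMod.cast_id', id]
  have hmod : w ^ (SS * (a + m)) = w ^ (SS * b) * w ^ (k * SS) := by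
    rw [← pow_add]
    rw [pow_eq_pow_mod _ hw, pow_eq_pow_mod (SS * b + k * SS) hw]
    congr 1
    have e1 : ((SS * (a + m) : ℕ) : ZMod p) = ((SS * b + k * SS : ℕ) : ZMod p) := by
      push_cast
      rw [hkc]
      ring
    rw [ZMod.natCast_eq_natCast_iff] at e1
    exact e1
  set ε : 𝓞 E ⧸ M := ((-1) ^ s) ^ (hf p av).card with hε
  have hε2 : ε * ε = 1 := by
    rw [hε, ← mul_pow, ← mul_pow]
    norm_num
  have hε0 : ε ≠ 0 := by
    intro h
    rw [h, zero_mul] at hε2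
    exact zero_ne_one hε2
  have hεp : ε ^ p = ε := by
    obtain ⟨q, hq⟩ := hodd
    rw [hq, pow_succ, pow_mul, pow_two, hε2, one_pow, one_mul]
  -- `w ^ (k SS) = w ^ (2 i) * (ε d1 / d2) ^ p`
  set v : 𝓞 E ⧸ M := ε * d1 / d2 with hv
  have hv0 : v ≠ 0 := div_ne_zero (mul_ne_zero hε0 hd1) hd2
  have hkey : w ^ (k * SS) = w ^ (2 * i) * v ^ p := by
    have e0 : w ^ (SS * b) ≠ 0 := pow_ne_zero _ hw0
    have e1 : w ^ i * d1 ^ p = ε * w ^ (k * SS) * ((w⁻¹) ^ i * d2 ^ p) := by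
      rw [hmod] at hprod
      have e3 : (w ^ (SS * b) * nF) * (w ^ i * d1 ^ p) =
          (w ^ (SS * b) * nF) * (ε * w ^ (k * SS) * ((w⁻¹) ^ i * d2 ^ p)) := by
        linear_combination hprod
      exact mul_left_cancel₀ (mul_ne_zero e0 hnF0) e3
    rw [hv, div_pow, mul_pow, hεp, mul_comm 2 i, pow_mul w i 2, pow_two (w ^ i)]
    have e2 : w ^ i ≠ 0 := pow_ne_zero _ hw0
    have e3 : d2 ^ p ≠ 0 := pow_ne_zero _ hd2
    rw [inv_pow] at e1
    have e4 : w ^ (k * SS) * d2 ^ p = w ^ i * w ^ i * (ε * d1 ^ p) := by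
      have e5 : w ^ i * (w ^ i)⁻¹ = 1 := mul_inv_cancel₀ e2
      calc w ^ (k * SS) * d2 ^ p = (ε * ε) * (w ^ i * (w ^ i)⁻¹) * (w ^ (k * SS) * d2 ^ p) := by
            rw [hε2, e5, one_mul, one_mul]
        _ = ε * w ^ i * (ε * w ^ (k * SS) * ((w ^ i)⁻¹ * d2 ^ p)) := by ring
        _ = ε * w ^ i * (w ^ i * d1 ^ p) := by rw [← e1]
        _ = _ := by ring
    rw [← mul_div_assoc, eq_div_iff e3]
    exact e4
  by_contra hcon
  apply hW
  -- exponent `j = k SS - 2 i` modulo `p`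
  set j : ℕ := ((k * SS : ℕ) - 2 * i : ZMod p).val with hj
  have hjc : ((j : ℕ) : ZMod p) = (k * SS : ℕ) - 2 * i := by
    rw [hj, ZMod.natCast_val, ZMod.cast_id', id]
  have hjp : ¬ p ∣ j := by
    intro hd
    rw [← ZMod.natCast_eq_zero_iff, hjc] at hd
    apply hcon
    push_cast at hd
    rw [hkc, hSSc] at hd
    linear_combination -hd
  refine core hpp hl hw hw1 hF hv0 j hjp ?_
  have e1 : w ^ (k * SS) = w ^ (2 * i) * w ^ j := by
    rw [← pow_add, pow_eq_pow_mod _ hw, pow_eq_pow_mod (2 * i + j) hw]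
    congr 1
    have e1 : ((k * SS : ℕ) : ZMod p) = ((2 * i + j : ℕ) : ZMod p) := by
      push_cast
      push_cast at hjc
      rw [hjc]
      ring
    rw [ZMod.natCast_eq_natCast_iff] at e1
    exact e1
  rw [hkey] at e1
  exact (mul_left_cancel₀ (pow_ne_zero _ hw0) e1).symm

end Pool.Agent.H95F
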