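import Pool.Agent.Y546.WQ.PalK
import Pool.Agent.H95F.Ella

/-!
# Project H95F: the relation of first order
-/

set_option autoImplicit false

namespace Pool.Agent.H95F

open Pool.Agent.Y546.WQ NumberField IsDedekindDomain Polynomial

/-- the index one is regular -/
theorem reg_one (p : ℕ) [Fact p.Prime] (hp2 : p ≠ 2) : Reg p 1 := by
  classical
  have hpp : p.Prime := Fact.out
  have hp1 : 1 < p := hpp.one_lt
  have hf1 : Fact (1 < p) := ⟨hp1⟩
  by_contra hcon
  unfold Reg at hcon
  push Not at hcon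
  -- the value of a unit is positive
  have hval : ∀ t : (ZMod p)ˣ, 0 < (t : ZMod p).val ∧ (t : ZMod p).val < p := by
    intro t
    refine ⟨Nat.pos_of_ne_zero fun h => ?_, ZMod.val_lt _⟩
    rw [ZMod.val_eq_zero] at h
    exact t.ne_zero h
  have hall : ∀ a ∈ Finset.range p, hsa p a 1 = 0 := by
    intro a ha
    rw [Finset.mem_range] at ha
    by_cases h0 : a = 0
    · subst h0
      unfold hsa hf
      rw [Finset.filter_false_of_mem, Finset.sum_empty]
      intro t _
      have := (hval t).2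
      rw [Nat.cast_zero, zero_mul, ZMod.val_zero]
      omega
    · by_cases h1 : a = p - 1
      · unfold hsa hf
        rw [Finset.filter_false_of_mem, Finset.sum_empty]
        intro t _
        have h2 : ((a : ℕ) : ZMod p) = -1 := by
          rw [h1, Nat.cast_sub hp1.le, Nat.cast_one, ZMod.natCast_self, zero_sub]
        rw [h2, neg_one_mul, ZMod.neg_val, if_neg t.ne_zero]
        have := hval t
        omega
      · exact hcon a (by omega) (by omega)
  have hsum : ∑ a ∈ Finset.range p, hsa p a 1 = 0 := Finset.sum_eq_zero hall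
  -- exchange the sums
  have hsum2 : ∑ a ∈ Finset.range p, hsa p a 1 =
      ∑ t : (ZMod p)ˣ, ((t⁻¹ : (ZMod p)ˣ) : ZMod p) * (((t : ZMod p).val - 1 : ℕ) : ZMod p) := by
    unfold hsa hf
    have e1 : ∀ a ∈ Finset.range p, (∑ t ∈ (Finset.univ.filter fun t : (ZMod p)ˣ =>
        p < (t : ZMod p).val + ((a : ZMod p) * (t : ZMod p)).val),
          ((t⁻¹ : (ZMod p)ˣ) : ZMod p) ^ 1) =
        ∑ t : (ZMod p)ˣ, if p < (t : ZMod p).val + ((a : ZMod p) * (t : ZMod p)).val then
          ((t⁻¹ : (ZMod p)ˣ) : ZMod p) else 0 := by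
      intro a _
      rw [Finset.sum_filter]
      refine Finset.sum_congr rfl fun t _ => ?_
      rw [pow_one]
    rw [Finset.sum_congr rfl e1, Finset.sum_comm]
    refine Finset.sum_congr rfl fun t _ => ?_
    rw [← Finset.sum_filter, Finset.sum_const, nsmul_eq_mul, mul_comm]
    congr 2
    -- the number of `a`
    have hcard : ((Finset.range p).filter fun a : ℕ =>
        p < (t : ZMod p).val + ((a : ZMod p) * (t : ZMod p)).val).card =
        (Finset.Ioo (p - (t : ZMod p).val) p).card := by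
      refine Finset.card_nbij' (fun a => ((a : ZMod p) * (t : ZMod p)).val)
        (fun b => ((b : ZMod p) * ((t⁻¹ : (ZMod p)ˣ) : ZMod p)).val) ?_ ?_ ?_ ?_
      · intro a ha
        simp only [Finset.coe_filter, Finset.mem_range, Set.mem_setOf_eq] at ha
        simp only [Finset.coe_Ioo, Set.mem_Ioo]
        have := ZMod.val_lt ((a : ZMod p) * (t : ZMod p))
        have := hval t
        omega
      · intro b hb
        simp only [Finset.coe_Ioo, Set.mem_Ioo] at hb
        simp only [Finset.coe_filter, Finset.mem_range, Set.mem_setOf_eq]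
        refine ⟨ZMod.val_lt _, ?_⟩
        rw [ZMod.natCast_val, ZMod.cast_id', id, mul_assoc, Units.inv_mul, mul_one,
          ZMod.val_natCast, Nat.mod_eq_of_lt hb.2]
        have := hval t
        omega
      · intro a ha
        simp only [Finset.coe_filter, Finset.mem_range, Set.mem_setOf_eq] at ha
        simp only
        rw [ZMod.natCast_val, ZMod.cast_id', id, mul_assoc, Units.mul_inv, mul_one,
          ZMod.val_natCast, Nat.mod_eq_of_lt ha.1]
      · intro b hb
        simp only [Finset.coe_Ioo, Set.mem_Ioo] at hb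
        simp only
        rw [ZMod.natCast_val, ZMod.cast_id', id, mul_assoc, Units.inv_mul, mul_one,
          ZMod.val_natCast, Nat.mod_eq_of_lt hb.2]
    rw [hcard, Nat.card_Ioo]
    have := hval t
    omega
  rw [hsum2] at hsum
  have e2 : ∀ t : (ZMod p)ˣ, ((t⁻¹ : (ZMod p)ˣ) : ZMod p) * (((t : ZMod p).val - 1 : ℕ) : ZMod p) =
      1 - ((t⁻¹ : (ZMod p)ˣ) : ZMod p) := by
    intro t
    rw [Nat.cast_sub (hval t).1, ZMod.natCast_val, ZMod.cast_id', id, Nat.cast_one, mul_sub,
      Units.inv_mul, mul_one]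
  rw [Finset.sum_congr rfl fun t _ => e2 t, Finset.sum_sub_distrib, Finset.sum_const,
    Finset.card_univ, ZMod.card_units, nsmul_eq_mul, mul_one, Nat.cast_sub hp1.le,
    ZMod.natCast_self, Nat.cast_one, zero_sub] at hsum
  have e3 : ∑ t : (ZMod p)ˣ, ((t⁻¹ : (ZMod p)ˣ) : ZMod p) = 0 := by
    have h1 : ∑ t : (ZMod p)ˣ, ((t⁻¹ : (ZMod p)ˣ) : ZMod p) =
        ∑ t : (ZMod p)ˣ, (((-t)⁻¹ : (ZMod p)ˣ) : ZMod p) :=
      (Equiv.sum_comp (Equiv.neg (ZMod p)ˣ) fun t => ((t⁻¹ : (ZMod p)ˣ) : ZMod p)).symm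
    have h2 : ∑ t : (ZMod p)ˣ, (((-t)⁻¹ : (ZMod p)ˣ) : ZMod p) =
        -∑ t : (ZMod p)ˣ, ((t⁻¹ : (ZMod p)ˣ) : ZMod p) := by
      rw [← Finset.sum_neg_distrib]
      refine Finset.sum_congr rfl fun t _ => ?_
      rw [inv_neg, Units.val_neg]
    have h3 : (2 : ZMod p) * ∑ t : (ZMod p)ˣ, ((t⁻¹ : (ZMod p)ˣ) : ZMod p) = 0 := by
      linear_combination h1 + h2
    refine (mul_eq_zero.1 h3).resolve_left ?_
    have h : ((2 : ℕ) : ZMod p) ≠ 0 := by
      rw [Ne, ZMod.natCast_eq_zero_iff]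
      intro hd
      exact hp2 ((Nat.prime_dvd_prime_iff_eq hpp Nat.prime_two).1 hd)
    exact_mod_cast h
  rw [e3, sub_zero, neg_eq_zero] at hsum
  exact one_ne_zero hsum

/-- the derivative of a product at a point at which all factors have the same value -/
theorem deriv_prod {R ι : Type*} [CommRing R] [DecidableEq ι] (s : Finset ι)
    (G : ι → Polynomial R) (u x : R) (hG : ∀ t ∈ s, (G t).eval x = u) :
    (derivative (∏ t ∈ s, G t)).eval x * u =
      (∑ t ∈ s, (derivative (G t)).eval x) * (∏ t ∈ s, G t).eval x := by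
  induction s using Finset.induction_on with
  | empty => simp
  | insert t s ht ih =>
    have h1 := ih fun t ht => hG t (Finset.mem_insert_of_mem ht)
    rw [Finset.prod_insert ht, Finset.sum_insert ht, derivative_mul, eval_add, eval_mul, eval_mul,
      eval_mul, hG t (Finset.mem_insert_self t s)]
    linear_combination u * h1

/-- the relation of first order for `thPa` -/
theorem first_order {p : ℕ} [Fact p.Prime] (hp2 : p ≠ 2) (a i : ℕ) (f : Polynomial (ZMod p))
    (r : ZMod p) (hr : r ≠ 0)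
    (h : (X - 1) ^ (p - 1) ∣ thPa p a f - Polynomial.C r * X ^ i) :
    (i : ZMod p) * f.eval 1 = (derivative f).eval 1 * hsa p a 1 := by
  classical
  have hpp : p.Prime := Fact.out
  have h3 : 3 ≤ p := by
    have := hpp.two_le
    omega
  obtain ⟨g, hg⟩ := (pow_dvd_pow (X - 1 : Polynomial (ZMod p)) (by omega : 2 ≤ p - 1)).trans h
  have e0 : thPa p a f = Polynomial.C r * X ^ i + (X - 1) ^ 2 * g := by
    linear_combination hg
  have e1 : (thPa p a f).eval 1 = r := by
    rw [e0]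
    simp
  have e2 : (derivative (thPa p a f)).eval 1 = r * i := by
    rw [e0, derivative_add, pow_two, derivative_C_mul, derivative_mul, derivative_mul,
      derivative_X_pow]
    simp only [eval_add, eval_mul, eval_sub, eval_X, eval_one, eval_C, eval_pow, sub_self,
      one_pow, mul_one, mul_zero, zero_mul, add_zero]
  have e3 := deriv_prod (hf p a)
    (fun t => f.comp (X ^ ((t⁻¹ : (ZMod p)ˣ) : ZMod p).val)) (f.eval 1) 1 (by
      intro t _
      rw [eval_comp, eval_pow, eval_X, one_pow])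
  have e4 : ∀ t ∈ hf p a, (derivative (f.comp (X ^ ((t⁻¹ : (ZMod p)ˣ) : ZMod p).val))).eval 1 =
      ((t⁻¹ : (ZMod p)ˣ) : ZMod p) ^ 1 * (derivative f).eval 1 := by
    intro t _
    rw [derivative_comp, eval_mul, eval_comp, derivative_X_pow, eval_mul, eval_C, eval_pow,
      eval_pow, eval_X, one_pow, one_pow, mul_one, ZMod.natCast_val, ZMod.cast_id', id, pow_one]
  rw [Finset.sum_congr rfl e4, ← Finset.sum_mul] at e3
  change (derivative (thPa p a f)).eval 1 * f.eval 1 =
    (hsa p a 1 * (derivative f).eval 1) * (thPa p a f).eval 1 at e3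
  rw [e1, e2] at e3
  have e5 : r * ((i : ZMod p) * f.eval 1 - (derivative f).eval 1 * hsa p a 1) = 0 := by
    linear_combination e3
  exact sub_eq_zero.1 ((mul_eq_zero.1 e5).resolve_left hr)

/-- the part of an integer prime to `l` -/
theorem exists_coprime_part {l : ℕ} (hl : l.Prime) (D : ℤ) (hD : D ≠ 0) :
    ∃ (s : ℕ) (n : ℤ), ¬ (l : ℤ) ∣ n ∧ D = (l : ℤ) ^ s * n := by
  obtain ⟨s, n, hn, hs⟩ := Nat.exists_eq_pow_mul_and_not_dvd (Int.natAbs_ne_zero.2 hD) l
    hl.ne_one
  rcases Int.natAbs_eq D with h | h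
  · refine ⟨s, n, fun hd => hn (by exact_mod_cast hd), ?_⟩
    rw [h, hs]
    push_cast
    ring
  · refine ⟨s, -n, fun hd => hn (by exact_mod_cast (dvd_neg.1 hd)), ?_⟩
    rw [h, hs]
    push_cast
    ring

/-- the key relation -/
theorem key {p : ℕ} [Fact p.Prime] (hU : S_UNITA) (hL : S_LAMA) (hp2 : p ≠ 2) (l : ℕ)
    (hl : l.Prime) (hlp : l ≠ p) {E : Type} [Field E] [NumberField E] (c : Cyc p E)
    (f : Polynomial ℤ) (D : ℤ) (hpD : ¬ (p : ℤ) ∣ D) (hpf : ¬ (p : ℤ) ∣ f.eval 1)
    (h0 : aeval c.z f ≠ 0)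
    (hv : ∀ P : HeightOneSpectrum (𝓞 E), ∃ m : ℤ, P.valuation E (aeval c.z f) =
      P.valuation E ((D : ℤ) : E) * WithZero.exp ((p : ℤ) * m))
    (m a b s : ℕ) (hdf : f.natDegree ≤ m)
    (hab : X ^ b * f.map (Int.castRingHom (ZMod l)) =
      (-1) ^ s * X ^ a * (f.reflect m).map (Int.castRingHom (ZMod l)))
    (hP : ∀ P : Ideal (𝓞 E), P.IsPrime → ((l : ℕ) : 𝓞 E) ∈ P →
      ∀ w : 𝓞 E, (w : E) = aeval c.z f → w ∉ P)
    (hW : ¬ p ^ 2 ∣ l ^ (p - 1) - 1) :
    2 * (((derivative f).eval 1 : ℤ) : ZMod p) =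
      ((m : ZMod p) + a - b) * ((f.eval 1 : ℤ) : ZMod p) := by
  have hpp : p.Prime := Fact.out
  have hD0 : D ≠ 0 := fun h => hpD (h ▸ dvd_zero _)
  obtain ⟨av, hav, hav2, hne⟩ := reg_one p hp2
  obtain ⟨e, n, hn, hen⟩ := exists_coprime_part hl D hD0
  have hpn : ¬ (p : ℤ) ∣ n := fun h => hpD (hen ▸ dvd_mul_of_dvd_right h _)
  obtain ⟨w, hwz, hw⟩ := exists_zint c
  have hΛ : algebraMap (𝓞 E) E (aeval w f) = aeval c.z f := by
    have hwz' : algebraMap (𝓞 E) E w = c.z := hwz
    rw [← hwz']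
    exact (aeval_algebraMap_apply E w f).symm
  obtain ⟨g, hg, k, hk⟩ := relGA hU hp2 av hav hav2 c f n hpn hpf h0 (by
    intro P
    by_cases hlP : ((l : ℕ) : 𝓞 E) ∈ P.asIdeal
    · refine ⟨0, ?_⟩
      have hn1 : P.valuation E ((n : ℤ) : E) = 1 := by
        have := val_one P ((n : ℤ) : 𝓞 E) (int_notMem P.asIdeal P.isPrime l hl hlP n hn)
        simpa using this
      rw [hn1, mul_zero, WithZero.exp_zero, mul_one, ← hΛ]
      exact val_one P _ (hP P.asIdeal P.isPrime hlP _ hΛ)
    · obtain ⟨m, hm⟩ := hv P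
      refine ⟨m, ?_⟩
      rw [hm, hen]
      congr 1
      push_cast
      rw [map_mul, map_pow]
      have h3 : P.valuation E ((l : ℕ) : E) = 1 := by
        have h10 : (((l : ℕ) : 𝓞 E) : E) = (l : ℕ) := map_natCast (algebraMap (𝓞 E) E) l
        have := val_one P ((l : ℕ) : 𝓞 E) hlP
        rwa [h10] at this
      rw [h3, one_pow, one_mul])
  obtain ⟨r, hr, hdv⟩ := hL p hp2 av hav hav2 E c f n hpn hpf g hg k hk
  have q1 := first_order hp2 av k _ r hr hdv
  have q2 := (ella p hp2 l hl hlp av E c f n hn m a b s hdf hab hP g k hk).resolve_right hW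
  have q3 : (f.map (Int.castRingHom (ZMod p))).eval 1 = ((f.eval 1 : ℤ) : ZMod p) := by
    rw [eval_map, ← map_one (Int.castRingHom (ZMod p)), eval₂_hom]
    rfl
  have q4 : (derivative (f.map (Int.castRingHom (ZMod p)))).eval 1 =
      (((derivative f).eval 1 : ℤ) : ZMod p) := by
    rw [derivative_map, eval_map, ← map_one (Int.castRingHom (ZMod p)), eval₂_hom]
    rfl
  rw [q3, q4] at q1
  have q5 : hsa p av 1 * (2 * (((derivative f).eval 1 : ℤ) : ZMod p) -
      ((m : ZMod p) + a - b) * ((f.eval 1 : ℤ) : ZMod p)) = 0 := by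
    linear_combination (-2 : ZMod p) * q1 + ((f.eval 1 : ℤ) : ZMod p) * q2
  exact sub_eq_zero.1 ((mul_eq_zero.1 q5).resolve_left hne)

end Pool.Agent.H95F
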