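import Pool.Agent.Y546.WQ.Stm3
import Pool.Agent.Y546.WQ.Wie
import Pool.Agent.Y67.WQ.COP

/-!
# Project H95F: norm polynomials modulo `l`
-/

set_option autoImplicit false

namespace Pool.Agent.H95F

open Pool.Agent.Y546.WQ NumberField IsDedekindDomain Polynomial

/-- the type of a pair modulo a prime ideal -/
def Ty {R : Type*} [CommRing R] (P : Ideal R) (x y : R) : Prop :=
  (x ∈ P ∧ y ∉ P) ∨ (x ∉ P ∧ y ∈ P) ∨ (x ∉ P ∧ y ∉ P ∧ (x + y ∈ P ∨ x - y ∈ P))

theorem natDegree_lin {R : Type*} [CommRing R] (a b : R) :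
    (Polynomial.C a + X * Polynomial.C b).natDegree ≤ 1 := by
  compute_degree

theorem reflect_lin {R : Type*} [CommRing R] (a b : R) :
    (Polynomial.C a + X * Polynomial.C b).reflect 1 = Polynomial.C b + X * Polynomial.C a := by
  ext n
  rw [coeff_reflect]
  rcases n with _ | _ | n
  · rw [revAt_le (by norm_num)]
    simp [coeff_X, coeff_C]
  · rw [revAt_le (by norm_num)]
    simp [coeff_X, coeff_C]
  · rw [revAt_eq_self_of_lt (by omega)]
    simp [coeff_X, coeff_C]

theorem natDegree_prod_lin {R ι : Type*} [CommRing R] [DecidableEq ι] (s : Finset ι)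
    (a b : ι → R) :
    (∏ τ ∈ s, (Polynomial.C (a τ) + X * Polynomial.C (b τ))).natDegree ≤ s.card := by
  refine (natDegree_prod_le _ _).trans ?_
  refine (Finset.sum_le_sum fun τ _ => natDegree_lin (a τ) (b τ)).trans ?_
  simp

theorem reflect_prod {R ι : Type*} [CommRing R] [DecidableEq ι] (s : Finset ι) (a b : ι → R) :
    (∏ τ ∈ s, (Polynomial.C (a τ) + X * Polynomial.C (b τ))).reflect s.card =
      ∏ τ ∈ s, (Polynomial.C (b τ) + X * Polynomial.C (a τ)) := by
  induction s using Finset.induction_on with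
  | empty => simp
  | insert τ s hτ ih =>
    rw [Finset.prod_insert hτ, Finset.prod_insert hτ, Finset.card_insert_of_notMem hτ, add_comm,
      reflect_mul _ _ (natDegree_lin _ _) (natDegree_prod_lin s a b), ih, reflect_lin]

open Classical in
/-- LOCL: the norm polynomial modulo `l` -/
theorem locl (K N : Type) [Field K] [NumberField K] [Field N] [NumberField N]
    (hcard : Nat.card (K →+* N) = Module.finrank ℚ K) (l : ℕ) (hl : l.Prime)
    (Q : Ideal (𝓞 N)) (hQ : Q.IsPrime) (hlQ : ((l : ℕ) : 𝓞 N) ∈ Q) (x y : 𝓞 K)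
    (hty : ∀ P : Ideal (𝓞 K), P.IsPrime → ((l : ℕ) : 𝓞 K) ∈ P → Ty P x y) (f : Polynomial ℤ)
    (hf : f.map (Int.castRingHom (𝓞 N)) = nrmP K N x y) :
    ∃ s : ℕ, X ^ Nat.card {τ : K →+* N // RingOfIntegers.mapRingHom τ y ∈ Q} *
        f.map (Int.castRingHom (ZMod l)) =
      (-1) ^ s * X ^ Nat.card {τ : K →+* N // RingOfIntegers.mapRingHom τ x ∈ Q} *
        (f.reflect (Module.finrank ℚ K)).map (Int.castRingHom (ZMod l)) := by
  have hfl : Fact l.Prime := ⟨hl⟩
  have hch : CharP (𝓞 N ⧸ Q) l := charP_quot Q hQ l hl hlQ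
  have hdom : IsDomain (𝓞 N ⧸ Q) := Ideal.Quotient.isDomain Q
  set m : (K →+* N) → (𝓞 K →+* 𝓞 N) := fun τ => RingOfIntegers.mapRingHom τ with hm
  set u : (K →+* N) → (𝓞 N ⧸ Q) := fun τ => Ideal.Quotient.mk Q (m τ x) with hu
  set v : (K →+* N) → (𝓞 N ⧸ Q) := fun τ => Ideal.Quotient.mk Q (m τ y) with hv
  have hu0 : ∀ τ, u τ = 0 ↔ m τ x ∈ Q := fun τ => Ideal.Quotient.eq_zero_iff_mem
  have hv0 : ∀ τ, v τ = 0 ↔ m τ y ∈ Q := fun τ => Ideal.Quotient.eq_zero_iff_mem
  -- the polynomial modulo `Q`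
  have e1 : f.map (Int.castRingHom (𝓞 N ⧸ Q)) =
      ∏ τ : K →+* N, (Polynomial.C (u τ) + X * Polynomial.C (v τ)) := by
    have e0 : f.map (Int.castRingHom (𝓞 N ⧸ Q)) =
        (f.map (Int.castRingHom (𝓞 N))).map (Ideal.Quotient.mk Q) := by
      rw [Polynomial.map_map]
      congr 1
    rw [e0, hf, nrmP, Polynomial.map_prod]
    refine Finset.prod_congr rfl fun τ _ => ?_
    rw [Polynomial.map_add, Polynomial.map_mul, Polynomial.map_C, Polynomial.map_C,
      Polynomial.map_X]
  have e2 : (f.reflect (Module.finrank ℚ K)).map (Int.castRingHom (𝓞 N ⧸ Q)) =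
      ∏ τ : K →+* N, (Polynomial.C (v τ) + X * Polynomial.C (u τ)) := by
    have h3 : (f.reflect (Module.finrank ℚ K)).map (Int.castRingHom (𝓞 N ⧸ Q)) =
        Polynomial.reflect (Module.finrank ℚ K) (f.map (Int.castRingHom (𝓞 N ⧸ Q))) :=
      (Polynomial.reflect_map _ _ _).symm
    rw [h3, e1, ← hcard, Nat.card_eq_fintype_card, ← Finset.card_univ, reflect_prod]
  -- factor by factor
  have hfac : ∀ τ : K →+* N, (if m τ y ∈ Q then (X : Polynomial (𝓞 N ⧸ Q)) else 1) *
      (Polynomial.C (u τ) + X * Polynomial.C (v τ)) =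
      (if m τ x ∉ Q ∧ m τ y ∉ Q ∧ m τ x + m τ y ∈ Q then (-1 : Polynomial (𝓞 N ⧸ Q)) else 1) *
      ((if m τ x ∈ Q then X else 1) * (Polynomial.C (v τ) + X * Polynomial.C (u τ))) := by
    intro τ
    have hP : (Q.comap (m τ)).IsPrime := hQ.comap _
    have hlP : ((l : ℕ) : 𝓞 K) ∈ Q.comap (m τ) := by
      rw [Ideal.mem_comap, map_natCast]
      exact hlQ
    have ht := hty _ hP hlP
    unfold Ty at ht
    simp only [Ideal.mem_comap, map_add, map_sub] at ht
    rcases ht with ⟨h1, h2⟩ | ⟨h1, h2⟩ | ⟨h1, h2, h3⟩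
    · have h4 : u τ = 0 := (hu0 τ).2 h1
      rw [if_neg h2, if_pos h1, if_neg (fun h => h.1 h1), h4]
      simp
    · have h4 : v τ = 0 := (hv0 τ).2 h2
      rw [if_pos h2, if_neg h1, if_neg (fun h => h.2.1 h2), h4]
      simp
    · rw [if_neg h2, if_neg h1]
      by_cases h5 : m τ x + m τ y ∈ Q
      · rw [if_pos ⟨h1, h2, h5⟩]
        have h6 : u τ + v τ = 0 := by
          have := Ideal.Quotient.eq_zero_iff_mem.2 h5
          rwa [map_add] at this
        have h7 : v τ = -u τ := by linear_combination h6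
        rw [h7, Polynomial.C_neg]
        ring
      · rw [if_neg (fun h => h5 h.2.2)]
        have h6 := h3.resolve_left h5
        have h7 : u τ = v τ := by
          have := Ideal.Quotient.eq_zero_iff_mem.2 h6
          rw [map_sub] at this
          exact sub_eq_zero.1 this
        rw [h7]
        ring
  have hα : Nat.card {τ : K →+* N // RingOfIntegers.mapRingHom τ x ∈ Q} =
      (Finset.univ.filter fun τ : K →+* N => m τ x ∈ Q).card := by
    rw [Nat.card_eq_fintype_card, Fintype.card_subtype]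
  have hβ : Nat.card {τ : K →+* N // RingOfIntegers.mapRingHom τ y ∈ Q} =
      (Finset.univ.filter fun τ : K →+* N => m τ y ∈ Q).card := by
    rw [Nat.card_eq_fintype_card, Fintype.card_subtype]
  refine ⟨(Finset.univ.filter fun τ : K →+* N =>
    m τ x ∉ Q ∧ m τ y ∉ Q ∧ m τ x + m τ y ∈ Q).card, ?_⟩
  rw [hα, hβ]
  let ι : ZMod l →+* (𝓞 N ⧸ Q) := ZMod.castHom (dvd_refl l) (𝓞 N ⧸ Q)
  have hι : Function.Injective ι := ι.injective
  apply Polynomial.map_injective ι hι
  have h5 : ∀ g : Polynomial ℤ, (g.map (Int.castRingHom (ZMod l))).map ι =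
      g.map (Int.castRingHom (𝓞 N ⧸ Q)) := by
    intro g
    rw [Polynomial.map_map]
    congr 1
    exact RingHom.ext_int _ _
  rw [Polynomial.map_mul, Polynomial.map_mul, Polynomial.map_mul, Polynomial.map_pow,
    Polynomial.map_pow, Polynomial.map_pow, Polynomial.map_neg, Polynomial.map_one,
    Polynomial.map_X, h5, h5, e1, e2]
  have h6 := Finset.prod_congr (rfl : (Finset.univ : Finset (K →+* N)) = Finset.univ)
    fun τ _ => hfac τ
  rw [Finset.prod_mul_distrib, Finset.prod_mul_distrib, Finset.prod_mul_distrib,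
    Finset.prod_ite, Finset.prod_ite, Finset.prod_ite, Finset.prod_const, Finset.prod_const,
    Finset.prod_const, Finset.prod_const, Finset.prod_const, Finset.prod_const, one_pow, one_pow,
    one_pow, mul_one, mul_one, mul_one] at h6
  rw [h6]
  ring

/-- COPL: the norm of `x + z y` is prime to `l` -/
theorem copl (p : ℕ) [Fact p.Prime] (l : ℕ) (hl : l.Prime) (hlp : l ≠ p)
    (E : Type) [Field E] [NumberField E] (c : Cyc p E) (K N : Type) [Field K] [NumberField K]
    [Field N] [NumberField N] (i : E →+* N) (hp2 : p ≠ 2) (x y : 𝓞 K)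
    (hty : ∀ P : Ideal (𝓞 K), P.IsPrime → ((l : ℕ) : 𝓞 K) ∈ P → Ty P x y) (f : Polynomial ℤ)
    (hf : f.map (Int.castRingHom (𝓞 N)) = nrmP K N x y) :
    ∀ P : Ideal (𝓞 E), P.IsPrime → ((l : ℕ) : 𝓞 E) ∈ P → ∀ w : 𝓞 E, (w : E) = aeval c.z f →
      w ∉ P := by
  classical
  intro P hP hlP w hw hwP
  haveI := hP
  have hpp : p.Prime := Fact.out
  have hodd : Odd p := hpp.odd_of_ne_two hp2
  set j : 𝓞 E →+* 𝓞 N := RingOfIntegers.mapRingHom i with hj
  have hjinj : Function.Injective j := by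
    intro a b hab
    have h1 : ((j a : 𝓞 N) : N) = j b := congrArg _ hab
    rw [hj, RingOfIntegers.mapRingHom_apply, RingOfIntegers.mapRingHom_apply] at h1
    exact RingOfIntegers.ext (i.injective h1)
  obtain ⟨Q, hQ, hQP⟩ := Y67.WQ.exists_over j hjinj P
  haveI := hQ
  have hmem : ∀ a : 𝓞 E, a ∈ P → j a ∈ Q := by
    intro a ha
    rw [← hQP] at ha
    exact ha
  obtain ⟨u, hu, hup⟩ := exists_zint c
  have hzp : IsPrimitiveRoot (j u) p := hup.map_of_injective hjinj
  set v : 𝓞 N := j u with hv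
  have hlQ : ((l : ℕ) : 𝓞 N) ∈ Q := by
    have := hmem _ hlP
    rwa [map_natCast] at this
  have hvQ : v ∉ Q := by
    intro h
    apply one_notMem Q hQ
    rw [← hzp.pow_eq_one]
    exact Q.pow_mem_of_mem h p hpp.pos
  have hpQ : ((p : ℕ) : 𝓞 N) ∉ Q := by
    intro h5
    have h6 := int_notMem Q hQ l hl hlQ (p : ℤ) (by
      intro h
      have h9 : l ∣ p := by exact_mod_cast h
      exact hlp ((Nat.prime_dvd_prime_iff_eq hl hpp).1 h9))
    exact h6 (by exact_mod_cast h5)
  have h1v : 1 - v ∉ Q := fun h => hpQ (p_mem_of_one_sub_mem v hzp Q h)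
  have h1v' : 1 + v ∉ Q := by
    intro h
    -- `v = - 1`, so `1 = v ^ p = - 1`
    have h2 : (Ideal.Quotient.mk Q v) = -1 := by
      have := Ideal.Quotient.eq_zero_iff_mem.2 h
      rw [map_add, map_one] at this
      linear_combination this
    have h3 : (Ideal.Quotient.mk Q (2 : 𝓞 N)) = 0 := by
      have h4 : (Ideal.Quotient.mk Q v) ^ p = 1 := by
        rw [← map_pow, hzp.pow_eq_one, map_one]
      rw [h2, hodd.neg_one_pow] at h4
      have h5 : (Ideal.Quotient.mk Q (2 : 𝓞 N)) = 1 - (-1) := by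
        rw [show (2 : 𝓞 N) = 1 + 1 by norm_num, map_add, map_one]
        ring
      rw [h5, h4]
      ring
    have h4 := Ideal.Quotient.eq_zero_iff_mem.1 h3
    apply h1v
    have e : 1 - v = 2 - (1 + v) := by ring
    rw [e]
    exact Q.sub_mem h4 h
  -- the value
  have hw' : w = aeval u f := by
    apply RingOfIntegers.ext
    rw [hw, ← hu]
    exact (Polynomial.aeval_algebraMap_apply E u f)
  have hjw : j w = ∏ τ : K →+* N, (RingOfIntegers.mapRingHom τ x +
      v * RingOfIntegers.mapRingHom τ y) := by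
    have h1 : j w = (f.map (Int.castRingHom (𝓞 N))).eval v := by
      rw [hw', Polynomial.aeval_def, Polynomial.hom_eval₂, Polynomial.eval_map,
        RingHom.ext_int (j.comp (algebraMap ℤ (𝓞 E))) (Int.castRingHom (𝓞 N))]
    rw [h1, hf, nrmP, Polynomial.eval_prod]
    refine Finset.prod_congr rfl fun τ _ => ?_
    rw [Polynomial.eval_add, Polynomial.eval_C, Polynomial.eval_mul, Polynomial.eval_X,
      Polynomial.eval_C]
  have hprod := hmem w hwP
  rw [hjw, hQ.prod_mem_iff] at hprod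
  obtain ⟨τ, -, hτ⟩ := hprod
  set T : 𝓞 K →+* 𝓞 N := RingOfIntegers.mapRingHom τ with hT
  haveI hPτ : (Q.comap T).IsPrime := Ideal.comap_isPrime T Q
  have hlτ : ((l : ℕ) : 𝓞 K) ∈ Q.comap T := by
    rw [Ideal.mem_comap, map_natCast]
    exact hlQ
  have ht := hty (Q.comap T) hPτ hlτ
  unfold Ty at ht
  simp only [Ideal.mem_comap, map_add, map_sub] at ht
  rcases ht with ⟨h1, h2⟩ | ⟨h1, h2⟩ | ⟨h1, h2, h3 | h3⟩
  · have h4 : v * T y ∈ Q := by
      have := Q.sub_mem hτ h1
      rwa [add_sub_cancel_left] at this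
    exact h2 ((hQ.mem_or_mem h4).resolve_left hvQ)
  · have h4 : T x ∈ Q := by
      have := Q.sub_mem hτ (Q.mul_mem_left v h2)
      rwa [add_sub_cancel_right] at this
    exact h1 h4
  · have h4 : (1 - v) * T y ∈ Q := by
      have e : (1 - v) * T y = (T x + T y) - (T x + v * T y) := by ring
      rw [e]
      exact Q.sub_mem h3 hτ
    exact h2 ((hQ.mem_or_mem h4).resolve_left h1v)
  · have h4 : (1 + v) * T y ∈ Q := by
      have e : (1 + v) * T y = (T x + v * T y) - (T x - T y) := by ring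
      rw [e]
      exact Q.sub_mem hτ h3
    exact h2 ((hQ.mem_or_mem h4).resolve_left h1v')

end Pool.Agent.H95F
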