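import Pool.Agent.H95F.ThS
import Pool.Agent.Y546.WQ.All2

/-!
# Project H95F: the auxiliary prime and regular indices, all degrees
-/

set_option autoImplicit false

namespace Pool.Agent.H95F

open Pool.Agent.Y546.WQ NumberField IsDedekindDomain Polynomial

theorem deriv_reflect {R : Type*} [CommRing R] (m : ℕ) (f : R[X]) (hd : f.natDegree ≤ m) :
    (derivative (f.reflect m)).eval 1 = m * f.eval 1 - (derivative f).eval 1 := by
  have hf : f = ∑ j ∈ Finset.range (m + 1), C (f.coeff j) * X ^ j :=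
    as_sum_range_C_mul_X_pow' f (Nat.lt_succ_of_le hd)
  have hfr : f.reflect m = ∑ j ∈ Finset.range (m + 1), C ((f.reflect m).coeff j) * X ^ j :=
    as_sum_range_C_mul_X_pow' _ (Nat.lt_succ_of_le
      (natDegree_reflect_le.trans (max_le le_rfl hd)))
  have h1 : f.eval 1 = ∑ j ∈ Finset.range (m + 1), f.coeff j := by
    conv_lhs => rw [hf]
    rw [eval_finsetSum]
    simp
  have h2 : (derivative f).eval 1 = ∑ j ∈ Finset.range (m + 1), f.coeff j * (j : R) := by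
    conv_lhs => rw [hf]
    rw [derivative_sum, eval_finsetSum]
    refine Finset.sum_congr rfl (fun j _ => ?_)
    rw [derivative_C_mul_X_pow]
    simp
  have h3 : (derivative (f.reflect m)).eval 1 =
      ∑ j ∈ Finset.range (m + 1), f.coeff j * ((m - j : ℕ) : R) := by
    conv_lhs => rw [hfr]
    rw [derivative_sum, eval_finsetSum, ← Finset.sum_range_reflect]
    refine Finset.sum_congr rfl (fun j hj => ?_)
    have hj' : j ≤ m := Nat.lt_succ_iff.1 (Finset.mem_range.1 hj)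
    rw [derivative_C_mul_X_pow, coeff_reflect, revAt_le (by omega),
      show m - (m + 1 - 1 - j) = j by omega, show m + 1 - 1 - j = m - j by omega]
    simp
  rw [h3, h2, h1, Finset.mul_sum, ← Finset.sum_sub_distrib]
  refine Finset.sum_congr rfl (fun j hj => ?_)
  have hj' : j ≤ m := Nat.lt_succ_iff.1 (Finset.mem_range.1 hj)
  rw [Nat.cast_sub hj']
  ring

/-- the first order relation determines the exponent -/
theorem pal_count {p : ℕ} [Fact p.Prime] (m a b : ℕ) (f : (ZMod p)[X]) (hp : 2 * m + 3 ≤ p)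
    (ha : a ≤ m) (hb : b ≤ m) (hf : f.natDegree ≤ m) (h0 : f.coeff 0 ≠ 0) (hm : f.coeff m ≠ 0)
    (h1 : f.eval 1 ≠ 0) (hrel : Rel p f)
    (h2 : 2 * (derivative f).eval 1 = ((m : ZMod p) + a - b) * f.eval 1)
    (hreg : (∀ j, Odd j → 3 ≤ j → j < 2 * m → Reg p j) ∨ f.reflect m = f) : a = b := by
  have hp2 : p ≠ 2 := by omega
  have hdr := deriv_reflect m f hf
  have hr1 : (f.reflect m).eval 1 = f.eval 1 := Y824.WQ.eval_reflect hf
  rcases hreg with hreg | hpal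
  · obtain ⟨s, hs⟩ : ∃ s : ℕ, s + b = m + a := ⟨m + a - b, by omega⟩
    have hsZ : (s : ZMod p) = (m : ZMod p) + a - b := by
      have := congrArg (fun n : ℕ => (n : ZMod p)) hs
      push_cast at this
      rw [← this]
      ring
    obtain ⟨G, hG⟩ : ∃ G : (ZMod p)[X], G = X ^ m * f - X ^ s * f.reflect m := ⟨_, rfl⟩
    have hG0 : G.eval 1 = 0 := by
      rw [hG]
      simp only [eval_sub, eval_mul, eval_pow, eval_X, one_pow, one_mul]
      rw [hr1, sub_self]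
    have hG1 : (derivative G).eval 1 = 0 := by
      have e := congrArg (fun q => q.eval (1 : ZMod p)) (Y587.WQ.X_mul_derivative m f)
      have e' := congrArg (fun q => q.eval (1 : ZMod p))
        (Y587.WQ.X_mul_derivative s (f.reflect m))
      simp only [eval_mul, eval_X, one_mul, eval_pow, one_pow, eval_add, eval_C] at e e'
      rw [hG, derivative_sub, eval_sub, e, e', hr1, hdr, hsZ]
      linear_combination h2
    have hG2 := Y587.WQ.sq_dvd hG0 hG1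
    have key : (X - 1 : (ZMod p)[X]) ^ (2 * m + 1) ∣ G := by
      by_cases hGz : G = 0
      · rw [hGz]
        exact dvd_zero _
      · obtain ⟨W, hW, hWn⟩ := exists_eq_pow_rootMultiplicity_mul_and_not_dvd G hGz 1
        obtain ⟨l, hl⟩ : ∃ l, l = G.rootMultiplicity 1 := ⟨_, rfl⟩
        rw [← hl, C_1] at hW
        rw [C_1] at hWn
        have hl2 : 2 ≤ l := by
          rw [hl, le_rootMultiplicity_iff hGz, C_1]
          exact hG2
        have hW1 : W.eval 1 ≠ 0 := by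
          intro h
          apply hWn
          have := dvd_iff_isRoot.2 h
          rwa [C_1] at this
        by_cases hlm : l ≤ 2 * m
        · have hall : ∀ a : ℕ, 0 < a → a + 2 ≤ p → Odd l ∧ hsa p a l = 0 := by
            intro a ha ha'
            obtain ⟨i, r, hr, hdiv⟩ := hrel a ha ha'
            exact Y275.WQ.mainCOREA p hp2 a ha ha' m s i l f W r hf h1 hr hdiv
              (by rw [← hG]; exact hW) hW1 hl2 (by omega)
          have hodd := (hall 1 (by omega) (by omega)).1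
          have h3 : 3 ≤ l := by
            obtain ⟨t, ht⟩ := hodd
            omega
          have h4 : l < 2 * m := by
            obtain ⟨t, ht⟩ := hodd
            omega
          obtain ⟨a, ha, ha', hne⟩ := hreg l hodd h3 h4
          exact absurd (hall a ha ha').2 hne
        · rw [hW]
          exact (pow_dvd_pow _ (by omega)).mul_right _
    rw [hG] at key
    have := (Y824.WQ.pal hf h0 hm (by omega) key).1
    omega
  · rw [hpal] at hdr
    have h3 : ((a : ZMod p) - b) * f.eval 1 = 0 := by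
      linear_combination hdr - h2
    have h4 : (a : ZMod p) = b := sub_eq_zero.1 ((mul_eq_zero.1 h3).resolve_right h1)
    have h5 := (ZMod.natCast_eq_natCast_iff a b p).1 h4
    exact Nat.ModEq.eq_of_lt_of_lt h5 (by omega) (by omega)

section

variable {K : Type} [Field K] [NumberField K]

/-- the counts of `Y` and `Z` are equal: with regular indices -/
theorem cntB {p : ℕ} [Fact p.Prime] {E : Type} [Field E] [NumberField E]
    {N : Type} [Field N] [NumberField N] (c : Cyc p E) (i : E →+* N)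
    (hD : Dn p E N i) (hcard : Nat.card (K →+* N) = Module.finrank ℚ K)
    (hm : 2 * Module.finrank ℚ K + 3 ≤ p)
    (hreg : (∀ j, Odd j → 3 ≤ j → j < 2 * Module.finrank ℚ K → Reg p j) ∨ PalK p K)
    (l : ℕ) (hl : l.Prime) (hlp : l ≠ p) (hW : ¬ p ^ 2 ∣ l ^ (p - 1) - 1) (k : ℕ) (hk : k ≠ 0)
    {X Y Z : 𝓞 K} (hX : X ≠ 0) (hY : Y ≠ 0) (hZ : Z ≠ 0)
    (h : X ^ (k * p) + Y ^ (k * p) = Z ^ (k * p))
    (hcp : ∀ P : Ideal (𝓞 K), P.IsPrime → ((p : ℕ) : 𝓞 K) ∈ P → X ∉ P ∧ Y ∉ P ∧ Z ∉ P)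
    (ht3 : ∀ P : Ideal (𝓞 K), P.IsPrime → ((l : ℕ) : 𝓞 K) ∈ P → T3 P (X ^ k) (Y ^ k) (-Z ^ k))
    (Q : Ideal (𝓞 N)) (hQ : Q.IsPrime) (hlQ : ((l : ℕ) : 𝓞 N) ∈ Q) :
    cnt Q Z = cnt Q Y := by
  have hpp : p.Prime := Fact.out
  have hp2 : p ≠ 2 := by omega
  have hodd : Odd p := hpp.odd_of_ne_two hp2
  have hpw : ∀ (P : Ideal (𝓞 K)), P.IsPrime → ∀ w : 𝓞 K,
      w ^ k ∈ P ↔ w ∈ P := fun P hP w =>
    ⟨fun h => hP.mem_of_pow_mem _ h,
      fun h => Ideal.pow_mem_of_mem P h _ (Nat.pos_of_ne_zero hk)⟩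
  have s : Sol p K (Z ^ k) (-Y ^ k) (-X ^ k) := by
    refine ⟨pow_ne_zero _ hZ, neg_ne_zero.2 (pow_ne_zero _ hY), neg_ne_zero.2 (pow_ne_zero _ hX),
      ?_, ?_⟩
    · rw [hodd.neg_pow, hodd.neg_pow, ← pow_mul, ← pow_mul, ← pow_mul]
      linear_combination -h
    · intro P hP hpP
      rw [neg_mem_iff, neg_mem_iff, hpw P hP, hpw P hP, hpw P hP]
      exact ⟨(hcp P hP hpP).2.2, (hcp P hP hpP).2.1, (hcp P hP hpP).1⟩
  obtain ⟨f, hdeg, hc0, hcm, hev, hf'⟩ := Y290.WQ.mainNORM K (Z ^ k) (-Y ^ k)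
  have hf := hf' N hcard
  obtain ⟨b1, b2, b3, b4, b5⟩ := base Y290.WQ.mainNORM hcard s f hdeg hc0 hcm hev
  have hrel := rel_of_sol aUNITA Y261.WQ.main Y919.WQ.mainLAMA Y290.WQ.mainNORM c i hD hcard
    hp2 s f hdeg hc0 hcm hev hf
  obtain ⟨g, hg, -, h1⟩ := relD hp2 c i hD hcard l hl hlp hW 1 1 0 one_ne_zero (by norm_num)
    (pow_ne_zero k hX) (pow_ne_zero k hY) (pow_ne_zero k hZ)
    (by rw [one_mul, ← pow_mul, ← pow_mul, ← pow_mul]; exact h)
    (fun P hP hpP hm => (hcp P hP hpP).1 ((hpw P hP X).1 hm)) (by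
      intro τ ζ _ P hP h1P
      exact absurd (by simpa using h1P) (one_notMem P hP)) (by
      intro P hP hlP
      have h1 := ht3 P hP hlP
      unfold T3 at h1
      unfold Ty
      have e : Z ^ k + -Y ^ k = -(Y ^ k + -Z ^ k) := by ring
      rw [neg_mem_iff] at h1 ⊢
      rw [e, neg_mem_iff]
      tauto) Q hQ hlQ
  have hgf : g = f := by
    have hinj : Function.Injective (Int.castRingHom (𝓞 N)) := by
      intro a b hab
      simpa using hab
    exact Polynomial.map_injective _ hinj (hg.trans hf.symm)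
  rw [hgf, cnt_pow hQ _ hk, cnt_pow hQ _ hk] at h1
  have e1 : (f.map (Int.castRingHom (ZMod p))).eval 1 = ((f.eval 1 : ℤ) : ZMod p) := by
    rw [eval_map, ← map_one (Int.castRingHom (ZMod p)), eval₂_hom]
    rfl
  have e2 : (derivative (f.map (Int.castRingHom (ZMod p)))).eval 1 =
      (((derivative f).eval 1 : ℤ) : ZMod p) := by
    rw [derivative_map, eval_map, ← map_one (Int.castRingHom (ZMod p)), eval₂_hom]
    rfl
  rw [← e1, ← e2] at h1
  refine pal_count (Module.finrank ℚ K) (cnt Q Z) (cnt Q Y) _ hm (cnt_le hcard _) (cnt_le hcard _)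
    b1 b2 b3 b4 hrel h1 ?_
  rcases hreg with h2 | h2
  · exact Or.inl h2
  · exact Or.inr (h2 _ _ _ s f hdeg hc0 hcm hev hf')

/-- the auxiliary prime, all degrees -/
theorem mainB {p l k : ℕ} (hp : p.Prime) (hl : l.Prime) (hlp : l ≠ p)
    (hW : ¬ p ^ 2 ∣ l ^ (p - 1) - 1) (hk : k ≠ 0)
    (hreg : (2 * Module.finrank ℚ K + 3 ≤ p ∧ ∀ j ∈ irr p, j + 2 * Module.finrank ℚ K < p) ∨
      Module.finrank ℚ K * (((irr p).card + 1) * ((irr p).card + 2)) + 3 ≤ p)
    (hloc : ∀ P : Ideal (𝓞 K), P.IsPrime → ((l : ℕ) : 𝓞 K) ∈ P →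
      ¬ p ∣ (Nat.card (𝓞 K ⧸ P) - 1) / Nat.gcd (Nat.card (𝓞 K ⧸ P) - 1) k ∧
      ∀ u v : 𝓞 K, u ∉ P → v ∉ P → 1 + u ^ (k * p) - v ^ (k * p) ∉ P)
    (halt : ¬ 3 ∣ Module.finrank ℚ K ∨
      (∀ P P' : Ideal (𝓞 K), P.IsPrime → P'.IsPrime →
        ((l : ℕ) : 𝓞 K) ∈ P → ((l : ℕ) : 𝓞 K) ∈ P' → P = P') ∨
      ∀ P : Ideal (𝓞 K), P.IsPrime → ((l : ℕ) : 𝓞 K) ∈ P → ∀ u : 𝓞 K, u ^ (k * p) + 1 ∉ P)
    {x y z : K} (hx : x ≠ 0) (hy : y ≠ 0) (hz : z ≠ 0)
    (h : x ^ (k * p) + y ^ (k * p) = z ^ (k * p))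
    (hv : ∀ v : HeightOneSpectrum (𝓞 K), ((p : ℕ) : 𝓞 K) ∈ v.asIdeal →
      v.valuation K x = v.valuation K y ∧ v.valuation K y = v.valuation K z) : False := by
  have hfact : Fact p.Prime := ⟨hp⟩
  have hm := Module.finrank_pos (R := ℚ) (M := K)
  have h5 : 2 * Module.finrank ℚ K + 3 ≤ p := by
    rcases hreg with h | h
    · exact h.1
    · have e : 2 ≤ ((irr p).card + 1) * ((irr p).card + 2) := by nlinarith [(irr p).card.zero_le]
      have := Nat.mul_le_mul_left (Module.finrank ℚ K) e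
      omega
  have hp2 : p ≠ 2 := by omega
  have hkp : k * p ≠ 0 := Nat.mul_ne_zero hk hp.ne_zero
  obtain ⟨X, Y, Z, hX, hY, hZ, hXYZ, hcp, hcl⟩ := prepL hp l (k * p) hl.ne_zero hx hy hz h hv
  have ht3 : ∀ P : Ideal (𝓞 K), P.IsPrime → ((l : ℕ) : 𝓞 K) ∈ P →
      T3 P (X ^ k) (Y ^ k) (-Z ^ k) := fun P hP hlP =>
    t3_of hp hp2 hk P hP (ne_bot_of_mem hl.ne_zero hlP) (hloc P hP hlP).1 (hloc P hP hlP).2 hXYZ
      (hcl P hP hlP)
  have hpw : ∀ (P : Ideal (𝓞 K)), P.IsPrime → ∀ w : 𝓞 K,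
      w ^ k ∈ P ↔ w ∈ P := fun P hP w =>
    ⟨fun h => hP.mem_of_pow_mem _ h,
      fun h => Ideal.pow_mem_of_mem P h _ (Nat.pos_of_ne_zero hk)⟩
  have hone : ∀ P : Ideal (𝓞 K), P.IsPrime → ((l : ℕ) : 𝓞 K) ∈ P → OneIn P X Y Z := by
    intro P hP hlP
    have h1 := (ht3 P hP hlP).one
    unfold OneIn at *
    rw [neg_mem_iff, hpw P hP, hpw P hP, hpw P hP] at h1
    exact h1
  obtain ⟨E, _, _, ⟨c⟩⟩ := Y978.WQ.main p hp2
  obtain ⟨N, _, _, i, hcard, hD⟩ := Y258.WQ.mainDOWNG p E c K (by omega)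
  have hD' : Dn p E N i := hD
  obtain ⟨Q, hQ, hlQ⟩ := exists_above (K := N) l hl
  have hPl : ∀ τ : K →+* N, ((l : ℕ) : 𝓞 K) ∈ Q.comap (RingOfIntegers.mapRingHom τ) := by
    intro τ
    rw [Ideal.mem_comap, map_natCast]
    exact hlQ
  have hsum := cnt_add (Q := Q) hcard (X := X) (Y := Y) (Z := Z)
    (fun τ => hone _ (hQ.comap _) (hPl τ))
  have hreg' : (∀ j, Odd j → 3 ≤ j → j < 2 * Module.finrank ℚ K → Reg p j) ∨ PalK p K := by
    rcases hreg with h | h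
    · refine Or.inl fun j hj h3j hjm => ?_
      apply reg_of Y61.WQ.mainBER j hj h3j (by omega)
      intro hk
      have := h.2 _ hk
      omega
    · exact Or.inr (palK aUNITA Y261.WQ.main Y919.WQ.mainLAMA Y290.WQ.mainNORM
        (Y510.WQ.mainPOLBA Y275.WQ.mainCOREA)
        (Y590.WQ.mainPOLE Y780.WQ.mainPOLE1 Y286.WQ.mainPOLE2) Y61.WQ.mainBER c i hD' hcard
        (Or.inr h))
  have e1 := cntB c i hD' hcard h5 hreg' l hl hlp hW k hk hX hY hZ hXYZ hcp ht3 Q hQ hlQ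
  have e2 := cntB c i hD' hcard h5 hreg' l hl hlp hW k hk hY hX hZ (by rw [← hXYZ]; ring)
    (fun P hP hpP => ⟨(hcp P hP hpP).2.1, (hcp P hP hpP).1, (hcp P hP hpP).2.2⟩)
    (fun P hP hlP => by
      have h1 := ht3 P hP hlP
      unfold T3 at h1 ⊢
      rcases h1 with ⟨a1, a2, a3, a4⟩ | ⟨a1, a2, a3, a4⟩ | ⟨a1, a2, a3, a4⟩
      · exact Or.inr (Or.inl ⟨a1, a3, a2, by rwa [add_comm]⟩)
      · exact Or.inl ⟨a1, a3, a2, by rwa [add_comm]⟩
      · exact Or.inr (Or.inr ⟨a1, a3, a2, by rwa [add_comm]⟩)) Q hQ hlQ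
  have key : ∀ w : 𝓞 K, 0 < cnt Q w → ∃ P : Ideal (𝓞 K), P.IsPrime ∧
      ((l : ℕ) : 𝓞 K) ∈ P ∧ w ∈ P := by
    intro w hw
    unfold cnt at hw
    obtain ⟨⟨τ, hτ⟩⟩ := (Nat.card_pos_iff.1 hw).1
    exact ⟨_, hQ.comap _, hPl τ, hτ⟩
  rcases halt with h3 | huniq | hneg
  · apply h3
    exact ⟨cnt Q X, by omega⟩
  · obtain ⟨P1, hP1, hl1, hX1⟩ := key X (by omega)
    obtain ⟨P2, hP2, hl2, hY2⟩ := key Y (by omega)
    rw [huniq P2 P1 hP2 hP1 hl2 hl1] at hY2
    rcases hone P1 hP1 hl1 with ⟨a1, a2, a3⟩ | ⟨a1, a2, a3⟩ | ⟨a1, a2, a3⟩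
    · exact a2 hY2
    · exact a1 hX1
    · exact a1 hX1
  · obtain ⟨P, hP, hlP, hZP⟩ := key Z (by omega)
    have hP0 := ne_bot_of_mem hl.ne_zero hlP
    have hPm : P.IsMaximal := hP.isMaximal hP0
    have hYP : Y ∉ P := by
      rcases hone P hP hlP with ⟨a1, a2, a3⟩ | ⟨a1, a2, a3⟩ | ⟨a1, a2, a3⟩
      · exact a2
      · exact absurd hZP a3
      · exact a2
    let _ : Field (𝓞 K ⧸ P) := Ideal.Quotient.field P
    have hYq : Ideal.Quotient.mk P Y ≠ 0 := fun h => hYP (Ideal.Quotient.eq_zero_iff_mem.1 h)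
    obtain ⟨u, hu⟩ := Ideal.Quotient.mk_surjective (Ideal.Quotient.mk P X / Ideal.Quotient.mk P Y)
    apply hneg P hP hlP u
    rw [← Ideal.Quotient.eq_zero_iff_mem, map_add, map_pow, map_one, hu, div_pow,
      div_add_one (pow_ne_zero _ hYq)]
    have h6 : Ideal.Quotient.mk P (X ^ (k * p) + Y ^ (k * p)) = 0 := by
      rw [hXYZ, Ideal.Quotient.eq_zero_iff_mem]
      exact Ideal.pow_mem_of_mem P hZP _ (Nat.pos_of_ne_zero hkp)
    rw [map_add, map_pow, map_pow] at h6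
    rw [h6, zero_div]

end

end Pool.Agent.H95F
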