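import Mathlib

/-!
# Project H95F: power sums of `(a + 1) / (a - 1)` and characters with complex values
-/

set_option autoImplicit false

namespace Pool.Agent.H95F

open Finset

section identities

variable {R ι : Type*} [CommRing R] [DecidableEq ι]

/-- the product of the `Y i - 1` -/
theorem prod_exp (s : Finset ι) (Y : ι → R) :
    ∏ i ∈ s, (Y i - 1) = ∑ S ∈ s.powerset, (-1) ^ (s.card + S.card) * ∏ i ∈ S, Y i := by
  induction s using Finset.induction_on with
  | empty => simp
  | insert a s ha ih =>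
    rw [prod_insert ha, sum_powerset_insert ha, card_insert_of_notMem ha, ih, sub_mul, mul_sum,
      one_mul, sub_eq_add_neg, ← sum_neg_distrib, add_comm]
    congr 1
    · refine sum_congr rfl fun S hS => ?_
      ring
    · refine sum_congr rfl fun S hS => ?_
      have haS : a ∉ S := fun h => ha (mem_powerset.1 hS h)
      rw [prod_insert haS, card_insert_of_notMem haS]
      ring

/-- the sum of the `(Y i + 1)` times the product of the other `Y j - 1` -/
theorem sum_exp (s : Finset ι) (Y : ι → R) :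
    ∑ i ∈ s, (Y i + 1) * ∏ j ∈ s.erase i, (Y j - 1) =
      ∑ S ∈ s.powerset, (-1) ^ (s.card + S.card) * (2 * S.card - s.card) * ∏ i ∈ S, Y i := by
  induction s using Finset.induction_on with
  | empty => simp
  | insert a s ha ih =>
    have e1 : ∑ i ∈ insert a s, (Y i + 1) * ∏ j ∈ (insert a s).erase i, (Y j - 1) =
        (Y a + 1) * ∏ j ∈ s, (Y j - 1) +
          (Y a - 1) * ∑ i ∈ s, (Y i + 1) * ∏ j ∈ s.erase i, (Y j - 1) := by
      rw [sum_insert ha, erase_insert ha, mul_sum]
      congr 1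
      refine sum_congr rfl fun i hi => ?_
      have hia : i ≠ a := fun h => ha (h ▸ hi)
      rw [erase_insert_of_ne hia.symm, prod_insert (fun h => ha (mem_of_mem_erase h))]
      ring
    rw [e1, ih, prod_exp, sum_powerset_insert ha, card_insert_of_notMem ha]
    have e2 : ∀ S ∈ s.powerset, (-1 : R) ^ (s.card + 1 + S.card) *
        (2 * (S.card : R) - ((s.card + 1 : ℕ) : R)) * ∏ i ∈ S, Y i =
        -((-1) ^ (s.card + S.card) * (2 * S.card - s.card) * ∏ i ∈ S, Y i) +
          (-1) ^ (s.card + S.card) * ∏ i ∈ S, Y i := by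
      intro S _
      push_cast
      ring
    have e3 : ∀ S ∈ s.powerset, (-1 : R) ^ (s.card + 1 + (insert a S).card) *
        (2 * ((insert a S).card : R) - ((s.card + 1 : ℕ) : R)) * ∏ i ∈ insert a S, Y i =
        Y a * ((-1) ^ (s.card + S.card) * (2 * S.card - s.card) * ∏ i ∈ S, Y i) +
          Y a * ((-1) ^ (s.card + S.card) * ∏ i ∈ S, Y i) := by
      intro S hS
      have haS : a ∉ S := fun h => ha (mem_powerset.1 hS h)
      rw [prod_insert haS, card_insert_of_notMem haS]
      push_cast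
      ring
    rw [sum_congr rfl e2, sum_congr rfl e3, sum_add_distrib, sum_add_distrib, sum_neg_distrib,
      ← mul_sum, ← mul_sum]
    ring

end identities

/-- a faithful character of the group of units of a finite field -/
theorem exists_char (F : Type*) [Field F] [Finite F] : ∃ χ : Fˣ →* ℂˣ, Function.Injective χ := by
  have hN : NeZero (Nat.card Fˣ) := ⟨Nat.card_pos.ne'⟩
  have h1 : Nat.card Fˣ = Nat.card (rootsOfUnity (Nat.card Fˣ) ℂ) :=
    (Complex.card_rootsOfUnity _).symm
  let e : Fˣ ≃* rootsOfUnity (Nat.card Fˣ) ℂ := mulEquivOfCyclicCardEq h1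
  exact ⟨(rootsOfUnity (Nat.card Fˣ) ℂ).subtype.comp e.toMonoidHom,
    (Subtype.val_injective).comp e.injective⟩

/-- the real part of `(b + 1) / (b - 1)` for a root of unity -/
theorem re_zero (b : ℂ) (hb : ‖b‖ = 1) : ((b + 1) / (b - 1)).re = 0 := by
  have h1 : b.re * b.re + b.im * b.im = 1 := by
    rw [← Complex.normSq_apply, Complex.normSq_eq_norm_sq, hb, one_pow]
  rw [Complex.div_re]
  simp only [Complex.add_re, Complex.sub_re, Complex.one_re, Complex.add_im, Complex.sub_im,
    Complex.one_im, add_zero, sub_zero]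
  rw [← add_div]
  have : (b.re + 1) * (b.re - 1) + b.im * b.im = 0 := by linarith
  rw [this, zero_div]

/-- the vanishing of the constant `c` -/
theorem chr {F : Type} [Field F] [Finite F] (p : ℕ) [CharP F p] {ι : Type}
    [Fintype ι] [DecidableEq ι] (a : ι → Fˣ) (ha : ∀ i, a i ≠ 1) (c : ℤ) (m : ℕ)
    (hm : Fintype.card ι = m) (h2 : 2 ≤ m) (hc : |c| ≤ m) (hpm : m * 2 ^ (m + 1) < p)
    (hrel : ∀ e : ℕ, 0 < e → e < 2 ^ m →
      ∑ i, (((a i : Fˣ) : F) ^ e + 1) * ∏ j ∈ univ.erase i, (((a j : Fˣ) : F) ^ e - 1) =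
        c * ∏ i, (((a i : Fˣ) : F) ^ e - 1)) : c = 0 := by
  classical
  -- the coefficients and the monomials
  set κ : Finset ι → ℤ := fun S => (-1) ^ (m + S.card) * (2 * S.card - m - c) with hκ
  set A : Finset ι → Fˣ := fun S => ∏ i ∈ S, a i with hA
  have hmc : (univ : Finset ι).card = m := by rw [card_univ, hm]
  -- the identity in a commutative ring
  have hid : ∀ {R : Type} [CommRing R] (Y : ι → R),
      ∑ S ∈ (univ : Finset ι).powerset, ((κ S : ℤ) : R) * ∏ i ∈ S, Y i =
        ∑ i, (Y i + 1) * ∏ j ∈ univ.erase i, (Y j - 1) - c * ∏ i, (Y i - 1) := by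
    intro R _ Y
    rw [sum_exp, prod_exp, mul_sum, ← sum_sub_distrib, hmc]
    refine sum_congr rfl fun S _ => ?_
    simp only [hκ]
    push_cast
    ring
  -- the vanishing of the power sums
  have hpow : ∀ e : ℕ, e < 2 ^ m →
      ∑ S ∈ (univ : Finset ι).powerset, ((κ S : ℤ) : F) * ((A S : Fˣ) : F) ^ e = 0 := by
    intro e he
    have h1 : ∀ S : Finset ι, ((A S : Fˣ) : F) ^ e = ∏ i ∈ S, (((a i : Fˣ) : F) ^ e) := by
      intro S
      simp only [hA]
      rw [Units.coe_prod, prod_pow]
    simp only [h1]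
    rw [hid fun i => ((a i : Fˣ) : F) ^ e]
    rcases Nat.eq_zero_or_pos e with rfl | he0
    · simp only [pow_zero, sub_self]
      have h2' : ∀ i : ι, (univ.erase i).card ≠ 0 := by
        intro i
        rw [card_erase_of_mem (mem_univ i), hmc]
        omega
      have h3 : (univ : Finset ι).card ≠ 0 := by omega
      simp only [prod_const, zero_pow (h2' _), zero_pow h3, mul_zero, sum_const_zero, sub_zero]
    · rw [hrel e he0 he, sub_self]
  -- group by the values
  set G : Finset Fˣ := (univ : Finset ι).powerset.image A with hG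
  set k : Fˣ → ℤ := fun g => ∑ S ∈ (univ : Finset ι).powerset.filter (fun S => A S = g), κ S
    with hk
  have hgrp : ∀ {R : Type} [CommRing R] (φ : Fˣ → R),
      ∑ S ∈ (univ : Finset ι).powerset, ((κ S : ℤ) : R) * φ (A S) =
        ∑ g ∈ G, ((k g : ℤ) : R) * φ g := by
    intro R _ φ
    rw [← sum_fiberwise_of_maps_to (s := (univ : Finset ι).powerset) (t := G) (g := A)
      (fun S hS => mem_image_of_mem A hS)]
    refine sum_congr rfl fun g _ => ?_
    simp only [hk]
    rw [Int.cast_sum, sum_mul]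
    refine sum_congr rfl fun S hS => ?_
    rw [(mem_filter.1 hS).2]
  have hGcard : G.card ≤ 2 ^ m := by
    refine card_image_le.trans ?_
    rw [card_powerset, hmc]
  -- Vandermonde
  have hkF : ∀ g ∈ G, ((k g : ℤ) : F) = 0 := by
    let ε : Fin G.card ≃ G := G.equivFin.symm
    have hv := Matrix.eq_zero_of_forall_pow_sum_mul_pow_eq_zero
      (f := fun j : Fin G.card => (((ε j : Fˣ)) : F))
      (v := fun j : Fin G.card => ((k (ε j : Fˣ) : ℤ) : F)) ?_ ?_
    · intro g hg
      have h1 := congrFun hv (ε.symm ⟨g, hg⟩)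
      simpa using h1
    · intro i j hij
      have h1 : (ε i : Fˣ) = (ε j : Fˣ) := Units.ext hij
      exact ε.injective (Subtype.ext h1)
    · intro i
      have h1 := hpow (i : ℕ) (lt_of_lt_of_le i.2 hGcard)
      rw [hgrp fun g : Fˣ => (g : F) ^ (i : ℕ)] at h1
      rw [← h1, ← sum_coe_sort G]
      exact Equiv.sum_comp ε fun g : G => ((k (g : Fˣ) : ℤ) : F) * ((g : Fˣ) : F) ^ (i : ℕ)
  -- the coefficients are small
  have hκb : ∀ S ∈ (univ : Finset ι).powerset, |κ S| ≤ 2 * m := by
    intro S _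
    have hS : S.card ≤ m := by
      rw [← hmc]
      exact card_le_univ S
    simp only [hκ]
    rw [abs_mul, abs_pow, abs_neg, abs_one, one_pow, one_mul]
    rw [abs_le] at hc ⊢
    constructor <;> omega
  have hk0 : ∀ g ∈ G, k g = 0 := by
    intro g hg
    have h1 : (p : ℤ) ∣ k g := (CharP.intCast_eq_zero_iff F p _).1 (hkF g hg)
    apply Int.eq_zero_of_abs_lt_dvd h1
    have h3 : |k g| ≤ ∑ S ∈ (univ : Finset ι).powerset, |κ S| := by
      simp only [hk]
      refine (abs_sum_le_sum_abs _ _).trans ?_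
      exact sum_le_sum_of_subset_of_nonneg (filter_subset _ _) fun S _ _ => abs_nonneg _
    have h4 : ∑ S ∈ (univ : Finset ι).powerset, |κ S| ≤ 2 ^ m * (2 * m) := by
      refine (sum_le_card_nsmul _ _ _ hκb).trans ?_
      rw [card_powerset, hmc, nsmul_eq_mul]
      push_cast
      exact le_rfl
    have h5 : ((2 : ℤ) ^ m * (2 * m)) < p := by
      have : (2 : ℕ) ^ m * (2 * m) = m * 2 ^ (m + 1) := by
        rw [pow_succ]
        ring
      have h6 : 2 ^ m * (2 * m) < p := by rw [this]; exact hpm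
      exact_mod_cast h6
    exact lt_of_le_of_lt (h3.trans h4) h5
  -- apply a faithful character
  obtain ⟨χ, hχ⟩ := exists_char F
  set b : ι → ℂ := fun i => ((χ (a i) : ℂˣ) : ℂ) with hb
  have hb1 : ∀ i, b i ≠ 1 := by
    intro i h
    apply ha i
    apply hχ
    rw [map_one]
    exact Units.ext h
  have hbn : ∀ i, ‖b i‖ = 1 := by
    intro i
    have hfin : IsOfFinOrder (a i) := isOfFinOrder_of_finite (a i)
    have h1 : IsOfFinOrder (χ (a i)) := χ.isOfFinOrder hfin
    have h2 : IsOfFinOrder (b i) := by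
      have := (Units.coeHom ℂ).isOfFinOrder h1
      exact this
    exact Complex.norm_eq_one_of_pow_eq_one (pow_orderOf_eq_one (b i)) h2.orderOf_pos.ne'
  have h1 := hid b
  have h2 : ∑ S ∈ (univ : Finset ι).powerset, ((κ S : ℤ) : ℂ) * ∏ i ∈ S, b i = 0 := by
    have h3 : ∀ S : Finset ι, ∏ i ∈ S, b i = ((χ (A S) : ℂˣ) : ℂ) := by
      intro S
      simp only [hA, hb]
      rw [map_prod, Units.coe_prod]
    simp only [h3]
    rw [hgrp fun g : Fˣ => ((χ g : ℂˣ) : ℂ)]
    exact sum_eq_zero fun g hg => by rw [hk0 g hg, Int.cast_zero, zero_mul]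
  rw [h2] at h1
  have h3 : ∑ i, (b i + 1) / (b i - 1) = (c : ℂ) := by
    have hne : ∀ i, b i - 1 ≠ 0 := fun i => sub_ne_zero.2 (hb1 i)
    have hP : ∏ i, (b i - 1) ≠ 0 := prod_ne_zero_iff.2 fun i _ => hne i
    apply mul_right_cancel₀ hP
    rw [sum_mul]
    have h4 : ∀ i ∈ (univ : Finset ι), (b i + 1) / (b i - 1) * ∏ j, (b j - 1) =
        (b i + 1) * ∏ j ∈ univ.erase i, (b j - 1) := by
      intro i _
      rw [← mul_prod_erase univ (fun j => b j - 1) (mem_univ i)]
      have := hne i
      field_simp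
    rw [sum_congr rfl h4]
    linear_combination -h1
  have h4 := congrArg Complex.re h3
  rw [Complex.re_sum, sum_eq_zero fun i _ => re_zero (b i) (hbn i), Complex.intCast_re] at h4
  exact_mod_cast h4.symm

end Pool.Agent.H95F
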