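import Mathlib

/-!
# Project H95F: the values of `(a + 1) / (a - 1)`, degrees at most four
-/

set_option autoImplicit false

namespace Pool.Agent.H95F

open Polynomial

/-- from the product form to fractions -/
theorem frac {F ι : Type*} [Field F] [Fintype ι] [DecidableEq ι] (b : ι → F) (hb : ∀ i, b i ≠ 1)
    (c : F) (h : ∑ i, (b i + 1) * ∏ j ∈ Finset.univ.erase i, (b j - 1) = c * ∏ i, (b i - 1)) :
    ∑ i, (b i + 1) / (b i - 1) = c := by
  have hne : ∀ i, b i - 1 ≠ 0 := fun i => sub_ne_zero.2 (hb i)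
  have hP : ∏ i, (b i - 1) ≠ 0 := Finset.prod_ne_zero_iff.2 fun i _ => hne i
  apply mul_right_cancel₀ hP
  rw [Finset.sum_mul, ← h]
  refine Finset.sum_congr rfl fun i _ => ?_
  rw [← Finset.mul_prod_erase Finset.univ (fun j => b j - 1) (Finset.mem_univ i)]
  have := hne i
  field_simp

/-- a sum of `m` fractions with `m + 1` prescribed values -/
theorem frac_zero {F ι : Type*} [Field F] [Fintype ι] [DecidableEq ι] (a : ι → F)
    (ha : ∀ i, a i ≠ 0) (c : F) (S : Finset F) (hS : Fintype.card ι < S.card)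
    (h0 : ∀ η ∈ S, ∀ i, a i ^ 2 + 1 - a i * η ≠ 0)
    (h : ∀ η ∈ S, ∑ i, (a i ^ 2 - 1) / (a i ^ 2 + 1 - a i * η) = c) : c = 0 := by
  set q : ι → F[X] := fun i => C (a i ^ 2 + 1) - C (a i) * X with hq
  have hqd : ∀ i, (q i).natDegree ≤ 1 := by
    intro i
    simp only [hq]
    compute_degree
  set P : F[X] := ∑ i, C (a i ^ 2 - 1) * ∏ j ∈ Finset.univ.erase i, q j - C c * ∏ i, q i with hP
  have hd1 : ∀ s : Finset ι, (∏ i ∈ s, q i).natDegree ≤ s.card := by
    intro s
    refine (natDegree_prod_le _ _).trans ?_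
    refine (Finset.sum_le_sum fun i _ => hqd i).trans ?_
    simp
  have hPd : P.natDegree ≤ Fintype.card ι := by
    rw [hP]
    refine (natDegree_sub_le _ _).trans (max_le ?_ ?_)
    · refine natDegree_sum_le_of_forall_le _ _ fun i _ => ?_
      refine (natDegree_C_mul_le _ _).trans ((hd1 _).trans ?_)
      exact Finset.card_le_univ _
    · exact (natDegree_C_mul_le _ _).trans (hd1 _)
  have hP0 : P = 0 := by
    apply eq_zero_of_natDegree_lt_card_of_eval_eq_zero' P S _ (lt_of_le_of_lt hPd hS)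
    intro η hη
    have e1 : ∀ i, (q i).eval η = a i ^ 2 + 1 - a i * η := by
      intro i
      simp [hq]
    rw [hP, eval_sub, eval_finset_sum, eval_mul, eval_C, eval_prod]
    simp only [eval_mul, eval_C, eval_prod, e1]
    rw [← h η hη, Finset.sum_mul, sub_eq_zero]
    refine Finset.sum_congr rfl fun i _ => ?_
    rw [← Finset.mul_prod_erase Finset.univ (fun j => a j ^ 2 + 1 - a j * η) (Finset.mem_univ i),
      ← mul_assoc, div_mul_cancel₀ _ (h0 η hη i)]
  -- the leading coefficient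
  have hc := congrArg (fun r => coeff r (Fintype.card ι)) hP0
  simp only [hP, coeff_sub, coeff_C_mul, finset_sum_coeff, coeff_zero] at hc
  have e2 : ∀ i ∈ (Finset.univ : Finset ι), (a i ^ 2 - 1) *
      (∏ j ∈ Finset.univ.erase i, q j).coeff (Fintype.card ι) = 0 := by
    intro i _
    rw [coeff_eq_zero_of_natDegree_lt, mul_zero]
    refine lt_of_le_of_lt (hd1 _) ?_
    rw [Finset.card_erase_of_mem (Finset.mem_univ i), Finset.card_univ]
    have : 0 < Fintype.card ι := Fintype.card_pos_iff.2 ⟨i⟩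
    omega
  have e3 : (∏ i, q i).coeff (Fintype.card ι) = ∏ i, (-a i) := by
    have h1 := coeff_prod_of_natDegree_le (s := (Finset.univ : Finset ι)) q 1
      (fun i _ => hqd i)
    rw [mul_one, Finset.card_univ] at h1
    rw [h1]
    refine Finset.prod_congr rfl fun i _ => ?_
    simp only [hq]
    rw [coeff_sub, coeff_C_mul, coeff_X_one, coeff_C, if_neg one_ne_zero]
    ring
  rw [Finset.sum_eq_zero e2, e3, zero_sub, neg_eq_zero] at hc
  refine (mul_eq_zero.1 hc).resolve_right ?_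
  exact Finset.prod_ne_zero_iff.2 fun i _ => neg_ne_zero.2 (ha i)

/-- the vanishing of the constant `c`, degrees at most four -/
theorem chrS {F ι : Type*} [Field F] [Fintype ι] [DecidableEq ι] (h2 : (2 : F) ≠ 0)
    (h3 : (3 : F) ≠ 0) (a : ι → F) (ha : ∀ i, a i ≠ 0) (c : F) (D : ℕ)
    (hD : (Fintype.card ι ≤ 3 ∧ D = 6) ∨ (Fintype.card ι ≤ 4 ∧ D = 12))
    (hrel : ∀ e : ℕ, e ∣ D → (∀ i, a i ^ e ≠ 1) ∧
      ∑ i, (a i ^ e + 1) * ∏ j ∈ Finset.univ.erase i, (a j ^ e - 1) =
        c * ∏ i, (a i ^ e - 1)) : c = 0 := by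
  have h6 : 6 ∣ D := by
    rcases hD with ⟨-, rfl⟩ | ⟨-, rfl⟩ <;> norm_num
  have key : ∀ e : ℕ, e ∣ D → (∀ i, a i ^ e ≠ 1) ∧ ∑ i, (a i ^ e + 1) / (a i ^ e - 1) = c :=
    fun e he => ⟨(hrel e he).1, frac (fun i => a i ^ e) (hrel e he).1 c (hrel e he).2⟩
  obtain ⟨k1, r1⟩ := key 1 (one_dvd D)
  obtain ⟨k2, r2⟩ := key 2 ((by norm_num : 2 ∣ 6).trans h6)
  obtain ⟨k3, r3⟩ := key 3 ((by norm_num : 3 ∣ 6).trans h6)
  obtain ⟨k6, r6⟩ := key 6 h6
  simp only [pow_one] at k1 r1
  -- the denominators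
  have n1 : ∀ i, a i - 1 ≠ 0 := fun i => sub_ne_zero.2 (k1 i)
  have n2 : ∀ i, a i + 1 ≠ 0 := by
    intro i h
    apply k2 i
    have : a i = -1 := by linear_combination h
    rw [this]
    norm_num
  have n3 : ∀ i, a i ^ 2 + a i + 1 ≠ 0 := by
    intro i h
    apply k3 i
    linear_combination (a i - 1) * h
  have n6 : ∀ i, a i ^ 2 - a i + 1 ≠ 0 := by
    intro i h
    apply k6 i
    linear_combination (a i + 1) * (a i ^ 3 - 1) * h
  have m2 : ∀ i, a i ^ 2 - 1 ≠ 0 := fun i => sub_ne_zero.2 (k2 i)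
  have m3 : ∀ i, a i ^ 3 - 1 ≠ 0 := fun i => sub_ne_zero.2 (k3 i)
  have m6 : ∀ i, a i ^ 6 - 1 ≠ 0 := fun i => sub_ne_zero.2 (k6 i)
  -- the values
  have v2 : ∑ i, (a i - 1) / (a i + 1) = c := by
    have e : ∀ i, (a i - 1) / (a i + 1) =
        2 * ((a i ^ 2 + 1) / (a i ^ 2 - 1)) - (a i + 1) / (a i - 1) := by
      intro i
      have := n1 i
      have := n2 i
      have := m2 i
      field_simp
      ring
    rw [Finset.sum_congr rfl fun i _ => e i, Finset.sum_sub_distrib, ← Finset.mul_sum, r2, r1]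
    ring
  have v3 : ∑ i, (a i ^ 2 - 1) / (a i ^ 2 + a i + 1) = c := by
    have e : ∀ i, (a i ^ 2 - 1) / (a i ^ 2 + a i + 1) =
        (3 * ((a i ^ 3 + 1) / (a i ^ 3 - 1)) - (a i + 1) / (a i - 1)) / 2 := by
      intro i
      have h1 := n1 i
      have h3' := n3 i
      have e3 : a i ^ 3 - 1 = (a i - 1) * (a i ^ 2 + a i + 1) := by ring
      rw [e3]
      obtain ⟨A, hA⟩ : ∃ A, A = a i ^ 2 + a i + 1 := ⟨_, rfl⟩
      obtain ⟨B, hB⟩ : ∃ B, B = a i - 1 := ⟨_, rfl⟩
      rw [← hA, ← hB]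
      rw [← hA] at h3'
      rw [← hB] at h1
      field_simp
      rw [hA, hB]
      ring
    rw [Finset.sum_congr rfl fun i _ => e i, ← Finset.sum_div, Finset.sum_sub_distrib,
      ← Finset.mul_sum, r3, r1]
    field_simp
    ring
  have v6 : ∑ i, (a i ^ 2 - 1) / (a i ^ 2 - a i + 1) = c := by
    have e : ∀ i, (a i ^ 2 - 1) / (a i ^ 2 - a i + 1) =
        (6 * ((a i ^ 6 + 1) / (a i ^ 6 - 1)) - (a i + 1) / (a i - 1) - (a i - 1) / (a i + 1)) / 2 -
          (a i ^ 2 - 1) / (a i ^ 2 + a i + 1) := by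
      intro i
      have h1 := n1 i
      have h2' := n2 i
      have h3' := n3 i
      have h6' := n6 i
      have e6 : a i ^ 6 - 1 = (a i - 1) * (a i + 1) * (a i ^ 2 + a i + 1) *
          (a i ^ 2 - a i + 1) := by ring
      rw [e6]
      obtain ⟨A, hA⟩ : ∃ A, A = a i ^ 2 + a i + 1 := ⟨_, rfl⟩
      obtain ⟨B, hB⟩ : ∃ B, B = a i ^ 2 - a i + 1 := ⟨_, rfl⟩
      obtain ⟨U, hU⟩ : ∃ U, U = a i - 1 := ⟨_, rfl⟩
      obtain ⟨V, hV⟩ : ∃ V, V = a i + 1 := ⟨_, rfl⟩
      rw [← hA, ← hB, ← hU, ← hV]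
      rw [← hU] at h1
      rw [← hV] at h2'
      rw [← hA] at h3'
      rw [← hB] at h6'
      field_simp
      rw [hA, hB, hU, hV]
      ring
    rw [Finset.sum_congr rfl fun i _ => e i, Finset.sum_sub_distrib, ← Finset.sum_div,
      Finset.sum_sub_distrib, Finset.sum_sub_distrib, ← Finset.mul_sum, r6, r1, v2, v3]
    field_simp
    ring
  classical
  -- the points
  have w2 : ∑ i, (a i ^ 2 - 1) / (a i ^ 2 + 1 - a i * 2) = c := by
    rw [← r1]
    refine Finset.sum_congr rfl fun i _ => ?_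
    have e1 : a i ^ 2 + 1 - a i * 2 = (a i - 1) * (a i - 1) := by ring
    have e2 : a i ^ 2 - 1 = (a i + 1) * (a i - 1) := by ring
    rw [e1, e2]
    have := n1 i
    field_simp
  have w2' : ∑ i, (a i ^ 2 - 1) / (a i ^ 2 + 1 - a i * (-2)) = c := by
    rw [← v2]
    refine Finset.sum_congr rfl fun i _ => ?_
    have e1 : a i ^ 2 + 1 - a i * (-2) = (a i + 1) * (a i + 1) := by ring
    have e2 : a i ^ 2 - 1 = (a i - 1) * (a i + 1) := by ring
    rw [e1, e2]
    have := n2 i
    field_simp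
  have w1' : ∑ i, (a i ^ 2 - 1) / (a i ^ 2 + 1 - a i * (-1)) = c := by
    rw [← v3]
    refine Finset.sum_congr rfl fun i _ => ?_
    congr 1
    ring
  have w1 : ∑ i, (a i ^ 2 - 1) / (a i ^ 2 + 1 - a i * 1) = c := by
    rw [← v6]
    refine Finset.sum_congr rfl fun i _ => ?_
    congr 1
    ring
  have d2 : ∀ i, a i ^ 2 + 1 - a i * 2 ≠ 0 := by
    intro i
    have e1 : a i ^ 2 + 1 - a i * 2 = (a i - 1) * (a i - 1) := by ring
    rw [e1]
    exact mul_ne_zero (n1 i) (n1 i)
  have d2' : ∀ i, a i ^ 2 + 1 - a i * (-2) ≠ 0 := by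
    intro i
    have e1 : a i ^ 2 + 1 - a i * (-2) = (a i + 1) * (a i + 1) := by ring
    rw [e1]
    exact mul_ne_zero (n2 i) (n2 i)
  have d1' : ∀ i, a i ^ 2 + 1 - a i * (-1) ≠ 0 := by
    intro i
    have e1 : a i ^ 2 + 1 - a i * (-1) = a i ^ 2 + a i + 1 := by ring
    rw [e1]
    exact n3 i
  have d1 : ∀ i, a i ^ 2 + 1 - a i * 1 ≠ 0 := by
    intro i
    have e1 : a i ^ 2 + 1 - a i * 1 = a i ^ 2 - a i + 1 := by ring
    rw [e1]
    exact n6 i
  have p1 : (2 : F) ≠ -2 := by
    intro h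
    have : (2 : F) * 2 = 0 := by linear_combination h
    exact mul_ne_zero h2 h2 this
  have p2 : (2 : F) ≠ -1 := by
    intro h
    exact h3 (by linear_combination h)
  have p3 : (2 : F) ≠ 1 := by
    intro h
    exact one_ne_zero (by linear_combination h : (1 : F) = 0)
  have p4 : (-2 : F) ≠ -1 := by
    intro h
    exact one_ne_zero (by linear_combination -h : (1 : F) = 0)
  have p5 : (-2 : F) ≠ 1 := by
    intro h
    exact h3 (by linear_combination -h)
  have p6 : (-1 : F) ≠ 1 := by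
    intro h
    exact h2 (by linear_combination -h)
  rcases hD with ⟨hc, rfl⟩ | ⟨hc, rfl⟩
  · refine frac_zero a ha c {2, -2, -1, 1} ?_ ?_ ?_
    · have : ({2, -2, -1, 1} : Finset F).card = 4 := by
        rw [Finset.card_insert_of_notMem (by simp [p1, p2, p3]),
          Finset.card_insert_of_notMem (by simp [p4, p5]),
          Finset.card_insert_of_notMem (by simp [p6]), Finset.card_singleton]
      omega
    · intro η hη
      simp only [Finset.mem_insert, Finset.mem_singleton] at hη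
      rcases hη with rfl | rfl | rfl | rfl
      · exact d2
      · exact d2'
      · exact d1'
      · exact d1
    · intro η hη
      simp only [Finset.mem_insert, Finset.mem_singleton] at hη
      rcases hη with rfl | rfl | rfl | rfl
      · exact w2
      · exact w2'
      · exact w1'
      · exact w1
  · obtain ⟨k4, r4⟩ := key 4 (by norm_num)
    have m4 : ∀ i, a i ^ 4 - 1 ≠ 0 := fun i => sub_ne_zero.2 (k4 i)
    have n4 : ∀ i, a i ^ 2 + 1 ≠ 0 := by
      intro i h
      apply k4 i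
      linear_combination (a i ^ 2 - 1) * h
    have v4 : ∑ i, (a i ^ 2 - 1) / (a i ^ 2 + 1) = c := by
      have e : ∀ i, (a i ^ 2 - 1) / (a i ^ 2 + 1) =
          2 * ((a i ^ 4 + 1) / (a i ^ 4 - 1)) - (a i ^ 2 + 1) / (a i ^ 2 - 1) := by
        intro i
        have := n4 i
        have := m2 i
        have := m4 i
        field_simp
        ring
      rw [Finset.sum_congr rfl fun i _ => e i, Finset.sum_sub_distrib, ← Finset.mul_sum, r4, r2]
      ring
    have w0 : ∑ i, (a i ^ 2 - 1) / (a i ^ 2 + 1 - a i * 0) = c := by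
      rw [← v4]
      refine Finset.sum_congr rfl fun i _ => ?_
      congr 1
      ring
    have d0 : ∀ i, a i ^ 2 + 1 - a i * 0 ≠ 0 := by
      intro i
      rw [mul_zero, sub_zero]
      exact n4 i
    refine frac_zero a ha c {0, 2, -2, -1, 1} ?_ ?_ ?_
    · have : ({0, 2, -2, -1, 1} : Finset F).card = 5 := by
        rw [Finset.card_insert_of_notMem (by simp [h2, h2.symm]),
          Finset.card_insert_of_notMem (by simp [p1, p2, p3]),
          Finset.card_insert_of_notMem (by simp [p4, p5]),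
          Finset.card_insert_of_notMem (by simp [p6]), Finset.card_singleton]
      omega
    · intro η hη
      simp only [Finset.mem_insert, Finset.mem_singleton] at hη
      rcases hη with rfl | rfl | rfl | rfl | rfl
      · exact d0
      · exact d2
      · exact d2'
      · exact d1'
      · exact d1
    · intro η hη
      simp only [Finset.mem_insert, Finset.mem_singleton] at hη
      rcases hη with rfl | rfl | rfl | rfl | rfl
      · exact w0
      · exact w2
      · exact w2'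
      · exact w1'
      · exact w1

end Pool.Agent.H95F
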