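import Pool.Agent.H95F.Loc

/-!
# Project H95F: the residues at a prime above `l`
-/

set_option autoImplicit false

namespace Pool.Agent.H95F

open Pool.Agent.Y546.WQ NumberField IsDedekindDomain

/-- exactly one of three elements is in the ideal -/
def OneIn {R : Type*} [CommRing R] (P : Ideal R) (x y z : R) : Prop :=
  (x ∈ P ∧ y ∉ P ∧ z ∉ P) ∨ (x ∉ P ∧ y ∈ P ∧ z ∉ P) ∨ (x ∉ P ∧ y ∉ P ∧ z ∈ P)

/-- the type of a triple modulo a prime ideal -/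
def T3 {R : Type*} [CommRing R] (P : Ideal R) (x y z : R) : Prop :=
  (x ∈ P ∧ y ∉ P ∧ z ∉ P ∧ y + z ∈ P) ∨ (y ∈ P ∧ z ∉ P ∧ x ∉ P ∧ z + x ∈ P) ∨
    (z ∈ P ∧ x ∉ P ∧ y ∉ P ∧ x + y ∈ P)

theorem T3.rot {R : Type*} [CommRing R] {P : Ideal R} {x y z : R} (h : T3 P x y z) :
    T3 P y z x := by
  unfold T3 at *
  tauto

theorem T3.one {R : Type*} [CommRing R] {P : Ideal R} {x y z : R} (h : T3 P x y z) :
    OneIn P x y z := by
  unfold T3 at h
  unfold OneIn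
  tauto

theorem T3.ty {R : Type*} [CommRing R] {P : Ideal R} {x y z : R} (h : T3 P x y z) :
    Ty P x y := by
  unfold T3 at h
  unfold Ty
  tauto

section fin

variable {F : Type*} [Field F] [Finite F]

/-- an element whose order divides two coprime numbers -/
theorem eq_one_of_pow {G : Type*} [Monoid G] (r : G) (a b : ℕ) (hab : Nat.Coprime a b)
    (h1 : r ^ a = 1) (h2 : r ^ b = 1) : r = 1 := by
  rw [← orderOf_eq_one_iff, ← Nat.dvd_one, ← hab]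
  exact Nat.dvd_gcd (orderOf_dvd_of_pow_eq_one h1) (orderOf_dvd_of_pow_eq_one h2)

theorem pow_card_sub {a : F} (ha : a ≠ 0) {j : ℕ} (hj : Nat.card F - 1 ∣ j) : a ^ j = 1 := by
  have hfin : Fintype F := Fintype.ofFinite F
  obtain ⟨k, rfl⟩ := hj
  rw [pow_mul, Nat.card_eq_fintype_card, FiniteField.pow_card_sub_one_eq_one a ha, one_pow]

/-- the type of the `k`-th powers in a finite field -/
theorem fin_type {p k : ℕ} (hp : p.Prime) (hp2 : p ≠ 2) (hk : k ≠ 0)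
    (h1 : ¬ p ∣ (Nat.card F - 1) / Nat.gcd (Nat.card F - 1) k)
    (h2 : ∀ u v : F, u ≠ 0 → v ≠ 0 → 1 + u ^ (k * p) ≠ v ^ (k * p)) (x y z : F)
    (h : x ^ (k * p) + y ^ (k * p) = z ^ (k * p)) (hn : ¬ (x = 0 ∧ y = 0 ∧ z = 0)) :
    (x = 0 ∧ y ≠ 0 ∧ z ≠ 0 ∧ y ^ k = z ^ k) ∨ (y = 0 ∧ z ≠ 0 ∧ x ≠ 0 ∧ z ^ k = x ^ k) ∨
      (z = 0 ∧ x ≠ 0 ∧ y ≠ 0 ∧ x ^ k + y ^ k = 0) := by
  have hkp : k * p ≠ 0 := Nat.mul_ne_zero hk hp.ne_zero
  have hodd : Odd p := hp.odd_of_ne_two hp2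
  set t := (Nat.card F - 1) / Nat.gcd (Nat.card F - 1) k with ht
  have hpt : Nat.Coprime p t := (Nat.Prime.coprime_iff_not_dvd hp).2 h1
  -- the `t`-th powers of `k`-th powers
  have hkt : ∀ a : F, a ≠ 0 → (a ^ k) ^ t = 1 := by
    intro a ha
    rw [← pow_mul]
    apply pow_card_sub ha
    rw [ht]
    obtain ⟨g', hg'⟩ := Nat.gcd_dvd_right (Nat.card F - 1) k
    have e : k * ((Nat.card F - 1) / Nat.gcd (Nat.card F - 1) k) = g' * (Nat.card F - 1) := by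
      conv_lhs => rw [hg']
      have h3 := Nat.mul_div_cancel' (Nat.gcd_dvd_left (Nat.card F - 1) k)
      calc Nat.gcd (Nat.card F - 1) k * g' *
            ((Nat.card F - 1) / Nat.gcd (Nat.card F - 1) (Nat.gcd (Nat.card F - 1) k * g')) =
            g' * (Nat.gcd (Nat.card F - 1) k * ((Nat.card F - 1) /
              Nat.gcd (Nat.card F - 1) (Nat.gcd (Nat.card F - 1) k * g'))) := by ring
        _ = g' * (Nat.gcd (Nat.card F - 1) k * ((Nat.card F - 1) /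
              Nat.gcd (Nat.card F - 1) k)) := by rw [← hg']
        _ = _ := by rw [h3]
    rw [e]
    exact Dvd.intro_left _ rfl
  have hinj : ∀ a b : F, a ≠ 0 → b ≠ 0 → a ^ (k * p) = b ^ (k * p) → a ^ k = b ^ k := by
    intro a b ha hb hab
    have hab0 : a / b ≠ 0 := div_ne_zero ha hb
    have h3 : (a / b) ^ k = 1 := by
      apply eq_one_of_pow _ p t hpt
      · rw [← pow_mul, div_pow, hab, div_self (pow_ne_zero _ hb)]
      · exact hkt _ hab0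
    rw [div_pow, div_eq_one_iff_eq (pow_ne_zero _ hb)] at h3
    exact h3
  by_cases hx : x = 0
  · left
    rw [hx, zero_pow hkp, zero_add] at h
    have hy : y ≠ 0 := by
      intro hy
      rw [hy, zero_pow hkp] at h
      exact hn ⟨hx, hy, (pow_eq_zero_iff hkp).1 h.symm⟩
    have hz : z ≠ 0 := by
      intro hz
      rw [hz, zero_pow hkp] at h
      exact hy ((pow_eq_zero_iff hkp).1 h)
    exact ⟨hx, hy, hz, hinj y z hy hz h⟩
  by_cases hy : y = 0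
  · right; left
    rw [hy, zero_pow hkp, add_zero] at h
    have hz : z ≠ 0 := by
      intro hz
      rw [hz, zero_pow hkp] at h
      exact hx ((pow_eq_zero_iff hkp).1 h)
    exact ⟨hy, hz, hx, (hinj x z hx hz h).symm⟩
  by_cases hz : z = 0
  · right; right
    refine ⟨hz, hx, hy, ?_⟩
    rw [hz, zero_pow hkp] at h
    have hr0 : x / y ≠ 0 := div_ne_zero hx hy
    have h3 : ((x / y) ^ k) ^ p = -1 := by
      rw [← pow_mul, div_pow, div_eq_iff (pow_ne_zero _ hy)]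
      linear_combination h
    have h4 : ((x / y) ^ k) ^ 2 = 1 := by
      apply eq_one_of_pow _ p t hpt
      · rw [← pow_mul, mul_comm 2 p, pow_mul, h3]
        norm_num
      · rw [← pow_mul, mul_comm 2 t, pow_mul, hkt _ hr0, one_pow]
    have h5 : (x / y) ^ k = -1 := by
      obtain ⟨q, hq⟩ := hodd
      rw [hq, pow_succ, pow_mul, h4, one_pow, one_mul] at h3
      exact h3
    rw [div_pow, div_eq_iff (pow_ne_zero _ hy)] at h5
    rw [h5]
    ring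
  · exfalso
    refine h2 (y / x) (z / x) (div_ne_zero hy hx) (div_ne_zero hz hx) ?_
    rw [div_pow, div_pow]
    have hx' : x ^ (k * p) ≠ 0 := pow_ne_zero _ hx
    field_simp
    exact h

end fin

section

variable {K : Type} [Field K] [NumberField K]

/-- a prime ideal containing a prime number -/
theorem ne_bot_of_mem {P : Ideal (𝓞 K)} {l : ℕ} (hl : l ≠ 0) (h : ((l : ℕ) : 𝓞 K) ∈ P) :
    P ≠ ⊥ := by
  rintro rfl
  rw [Ideal.mem_bot, Nat.cast_eq_zero] at h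
  exact hl h

/-- the type of the `k`-th powers of a solution modulo a prime ideal -/
theorem t3_of {p k : ℕ} (hp : p.Prime) (hp2 : p ≠ 2) (hk : k ≠ 0) (P : Ideal (𝓞 K))
    (hP : P.IsPrime) (hP0 : P ≠ ⊥)
    (h1 : ¬ p ∣ (Nat.card (𝓞 K ⧸ P) - 1) / Nat.gcd (Nat.card (𝓞 K ⧸ P) - 1) k)
    (h2 : ∀ u v : 𝓞 K, u ∉ P → v ∉ P → 1 + u ^ (k * p) - v ^ (k * p) ∉ P) {X Y Z : 𝓞 K}
    (h : X ^ (k * p) + Y ^ (k * p) = Z ^ (k * p)) (hn : ¬ (X ∈ P ∧ Y ∈ P ∧ Z ∈ P)) :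
    T3 P (X ^ k) (Y ^ k) (-Z ^ k) := by
  have hPm : P.IsMaximal := hP.isMaximal hP0
  let _ : Field (𝓞 K ⧸ P) := Ideal.Quotient.field P
  have hfin : Finite (𝓞 K ⧸ P) := Ideal.finiteQuotientOfFreeOfNeBot P hP0
  have hz : ∀ w : 𝓞 K, Ideal.Quotient.mk P w = 0 ↔ w ∈ P := fun w =>
    Ideal.Quotient.eq_zero_iff_mem
  have hpk : ∀ w : 𝓞 K, w ^ k ∈ P ↔ w ∈ P := fun w =>
    ⟨fun h => hP.mem_of_pow_mem k h, fun h => Ideal.pow_mem_of_mem P h k (Nat.pos_of_ne_zero hk)⟩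
  have key := fin_type (F := 𝓞 K ⧸ P) hp hp2 hk h1 (by
    intro u v hu hv huv
    obtain ⟨u', rfl⟩ := Ideal.Quotient.mk_surjective u
    obtain ⟨v', rfl⟩ := Ideal.Quotient.mk_surjective v
    refine h2 u' v' (fun h => hu ((hz _).2 h)) (fun h => hv ((hz _).2 h)) ?_
    rw [← hz, map_sub, map_add, map_pow, map_pow, map_one, huv, sub_self])
    (Ideal.Quotient.mk P X) (Ideal.Quotient.mk P Y) (Ideal.Quotient.mk P Z) (by
      rw [← map_pow, ← map_pow, ← map_pow, ← map_add, h]) (by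
      rw [hz, hz, hz]
      exact hn)
  simp only [Ne, hz] at key
  unfold T3
  rw [neg_mem_iff, hpk, hpk, hpk]
  rcases key with ⟨a1, a2, a3, a4⟩ | ⟨a1, a2, a3, a4⟩ | ⟨a1, a2, a3, a4⟩
  · refine Or.inl ⟨a1, a2, a3, ?_⟩
    rw [← hz, map_add, map_neg, map_pow, map_pow, a4, add_neg_cancel]
  · refine Or.inr (Or.inl ⟨a1, a2, a3, ?_⟩)
    rw [← hz, map_add, map_neg, map_pow, map_pow, a4, neg_add_cancel]
  · refine Or.inr (Or.inr ⟨a1, a2, a3, ?_⟩)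
    rw [← hz, map_add, map_pow, map_pow, a4]

/-- powers modulo a prime ideal -/
theorem pow_sub_one_mem {P : Ideal (𝓞 K)} (hP : P.IsPrime) (hP0 : P ≠ ⊥) {w : 𝓞 K} (hw : w ∉ P)
    {j : ℕ} (hj : Nat.card (𝓞 K ⧸ P) - 1 ∣ j) : w ^ j - 1 ∈ P := by
  have hPm : P.IsMaximal := hP.isMaximal hP0
  let _ : Field (𝓞 K ⧸ P) := Ideal.Quotient.field P
  have hfin : Finite (𝓞 K ⧸ P) := Ideal.finiteQuotientOfFreeOfNeBot P hP0
  rw [← Ideal.Quotient.eq_zero_iff_mem, map_sub, map_pow, map_one, pow_card_sub _ hj, sub_self]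
  intro h
  exact hw (Ideal.Quotient.eq_zero_iff_mem.1 h)

/-- exactly one element of a solution is in the ideal -/
theorem one_in {P : Ideal (𝓞 K)} (hP : P.IsPrime) (hP0 : P ≠ ⊥) {n : ℕ} (hn0 : n ≠ 0)
    (hn : Nat.card (𝓞 K ⧸ P) - 1 ∣ n) {X Y Z : 𝓞 K} (h : X ^ n + Y ^ n = Z ^ n)
    (hnot : ¬ (X ∈ P ∧ Y ∈ P ∧ Z ∈ P)) :
    OneIn P X Y Z ∧ (Z ∈ P → (2 : 𝓞 K) ∈ P) := by
  have h1P : (1 : 𝓞 K) ∉ P := fun h => hP.ne_top ((Ideal.eq_top_iff_one _).2 h)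
  have h0 : ∀ w : 𝓞 K, w ∈ P → w ^ n ∈ P := fun w hw =>
    Ideal.pow_mem_of_mem P hw n (Nat.pos_of_ne_zero hn0)
  have h1 : ∀ w : 𝓞 K, w ∉ P → w ^ n - 1 ∈ P := fun w hw => pow_sub_one_mem hP hP0 hw hn
  by_cases hx : X ∈ P
  · by_cases hy : Y ∈ P
    · exfalso
      apply hnot
      refine ⟨hx, hy, hP.mem_of_pow_mem n ?_⟩
      rw [← h]
      exact P.add_mem (h0 X hx) (h0 Y hy)
    · by_cases hz : Z ∈ P
      · exfalso
        apply h1P
        have e : (1 : 𝓞 K) = Z ^ n - X ^ n - (Y ^ n - 1) := by rw [← h]; ring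
        rw [e]
        exact P.sub_mem (P.sub_mem (h0 Z hz) (h0 X hx)) (h1 Y hy)
      · exact ⟨Or.inl ⟨hx, hy, hz⟩, fun h => absurd h hz⟩
  · by_cases hy : Y ∈ P
    · by_cases hz : Z ∈ P
      · exfalso
        apply h1P
        have e : (1 : 𝓞 K) = Z ^ n - Y ^ n - (X ^ n - 1) := by rw [← h]; ring
        rw [e]
        exact P.sub_mem (P.sub_mem (h0 Z hz) (h0 Y hy)) (h1 X hx)
      · exact ⟨Or.inr (Or.inl ⟨hx, hy, hz⟩), fun h => absurd h hz⟩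
    · by_cases hz : Z ∈ P
      · refine ⟨Or.inr (Or.inr ⟨hx, hy, hz⟩), fun _ => ?_⟩
        have e : (2 : 𝓞 K) = Z ^ n - (X ^ n - 1) - (Y ^ n - 1) := by rw [← h]; ring
        rw [e]
        exact P.sub_mem (P.sub_mem (h0 Z hz) (h1 X hx)) (h1 Y hy)
      · exfalso
        apply h1P
        have e : (1 : 𝓞 K) = (Z ^ n - 1) - (X ^ n - 1) - (Y ^ n - 1) := by rw [← h]; ring
        rw [e]
        exact P.sub_mem (P.sub_mem (h1 Z hz) (h1 X hx)) (h1 Y hy)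

/-- the type of a pair of powers -/
theorem OneIn.ty {P : Ideal (𝓞 K)} (hP : P.IsPrime) (hP0 : P ≠ ⊥) {j : ℕ} (hj0 : j ≠ 0)
    (hj : Nat.card (𝓞 K ⧸ P) - 1 ∣ j) {X Y Z : 𝓞 K} (h : OneIn P X Y Z) :
    Ty P (Z ^ j) (-Y ^ j) := by
  have hpk : ∀ w : 𝓞 K, w ^ j ∈ P ↔ w ∈ P := fun w =>
    ⟨fun h => hP.mem_of_pow_mem j h, fun h => Ideal.pow_mem_of_mem P h j (Nat.pos_of_ne_zero hj0)⟩
  unfold Ty
  rw [neg_mem_iff, hpk, hpk]
  rcases h with ⟨h1, h2, h3⟩ | ⟨h1, h2, h3⟩ | ⟨h1, h2, h3⟩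
  · refine Or.inr (Or.inr ⟨h3, h2, Or.inl ?_⟩)
    have e : Z ^ j + -Y ^ j = (Z ^ j - 1) - (Y ^ j - 1) := by ring
    rw [e]
    exact P.sub_mem (pow_sub_one_mem hP hP0 h3 hj) (pow_sub_one_mem hP hP0 h2 hj)
  · exact Or.inr (Or.inl ⟨h3, h2⟩)
  · exact Or.inl ⟨h3, h2⟩

/-- the number of embeddings which send an element to an ideal -/
noncomputable def cnt {N : Type} [Field N] [NumberField N] (Q : Ideal (𝓞 N)) (w : 𝓞 K) : ℕ :=
  Nat.card {τ : K →+* N // RingOfIntegers.mapRingHom τ w ∈ Q}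

section

variable {N : Type} [Field N] [NumberField N]

theorem cnt_pow {Q : Ideal (𝓞 N)} (hQ : Q.IsPrime) (w : 𝓞 K) {j : ℕ} (hj : j ≠ 0) :
    cnt Q (w ^ j) = cnt Q w := by
  unfold cnt
  have e : ∀ τ : K →+* N, RingOfIntegers.mapRingHom τ (w ^ j) ∈ Q ↔
      RingOfIntegers.mapRingHom τ w ∈ Q := by
    intro τ
    rw [map_pow]
    exact ⟨fun h => hQ.mem_of_pow_mem j h,
      fun h => Ideal.pow_mem_of_mem Q h j (Nat.pos_of_ne_zero hj)⟩
  simp only [e]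

theorem cnt_neg {Q : Ideal (𝓞 N)} (w : 𝓞 K) : cnt Q (-w) = cnt Q w := by
  unfold cnt
  simp only [map_neg, neg_mem_iff]

theorem cnt_add {Q : Ideal (𝓞 N)} (hcard : Nat.card (K →+* N) = Module.finrank ℚ K)
    {X Y Z : 𝓞 K} (h : ∀ τ : K →+* N, OneIn (Q.comap (RingOfIntegers.mapRingHom τ)) X Y Z) :
    cnt Q X + cnt Q Y + cnt Q Z = Module.finrank ℚ K := by
  classical
  have c1 : ∀ w : 𝓞 K, cnt Q w =
      (Finset.univ.filter fun τ : K →+* N => RingOfIntegers.mapRingHom τ w ∈ Q).card := by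
    intro w
    unfold cnt
    rw [Nat.card_eq_fintype_card, Fintype.card_subtype]
  rw [c1, c1, c1, ← hcard, Nat.card_eq_fintype_card, ← Finset.card_univ, Finset.card_filter,
    Finset.card_filter, Finset.card_filter, ← Finset.sum_add_distrib, ← Finset.sum_add_distrib,
    Finset.card_eq_sum_ones]
  refine Finset.sum_congr rfl fun τ _ => ?_
  have ht := h τ
  unfold OneIn at ht
  simp only [Ideal.mem_comap] at ht
  rcases ht with ⟨h1, h2, h3⟩ | ⟨h1, h2, h3⟩ | ⟨h1, h2, h3⟩ <;> simp [h1, h2, h3]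

theorem cnt_le {Q : Ideal (𝓞 N)} (hcard : Nat.card (K →+* N) = Module.finrank ℚ K) (w : 𝓞 K) :
    cnt Q w ≤ Module.finrank ℚ K := by
  rw [← hcard]
  unfold cnt
  exact Nat.card_le_card_of_injective _ Subtype.val_injective

theorem cnt_eq_zero {Q : Ideal (𝓞 N)} (w : 𝓞 K)
    (h : ∀ τ : K →+* N, RingOfIntegers.mapRingHom τ w ∉ Q) : cnt Q w = 0 := by
  unfold cnt
  rw [Nat.card_eq_zero]
  exact Or.inl ⟨fun τ => h τ.1 τ.2⟩

end

end

end Pool.Agent.H95F
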