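import Pool.Agent.H95F.IdeD
import Pool.Agent.H95F.Typ
import Pool.Agent.H95F.Key

/-!
# Project H95F: the norm of `u - ζ v`
-/

set_option autoImplicit false

namespace Pool.Agent.H95F

open Pool.Agent.Y546.WQ NumberField IsDedekindDomain Polynomial

section

variable {p : ℕ} [Fact p.Prime] {E : Type} [Field E] [NumberField E]
  {K N : Type} [Field K] [NumberField K] [Field N] [NumberField N]

/-- `u - ζ v` is prime to `d` -/
theorem unitD (T : 𝓞 K →+* 𝓞 N) (v : 𝓞 N) (hv : IsPrimitiveRoot v p) (Q : Ideal (𝓞 N))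
    (hQ : Q.IsPrime) (d : ℕ) (hdp : Nat.Coprime d p) (hdQ : ((d : ℕ) : 𝓞 N) ∈ Q) {x y : 𝓞 K}
    (hne : Q.comap T ≠ ⊥) (hq : ¬ p ∣ Nat.card (𝓞 K ⧸ Q.comap T) - 1)
    (hn : ¬ (x ∈ Q.comap T ∧ y ∈ Q.comap T)) : T x - v * T y ∉ Q := by
  intro hmem
  have hpp : p.Prime := Fact.out
  have hR : (Q.comap T).IsPrime := hQ.comap T
  have hvQ : v ∉ Q := by
    intro h
    apply one_notMem Q hQ
    rw [← hv.pow_eq_one]
    exact Q.pow_mem_of_mem h p hpp.pos
  have hy : T y ∉ Q := by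
    intro hy
    apply hn
    refine ⟨?_, hy⟩
    have := Q.add_mem hmem (Q.mul_mem_left v hy)
    rwa [sub_add_cancel] at this
  have hx : T x ∉ Q := by
    intro hx
    have h1 : v * T y ∈ Q := by
      have := Q.sub_mem hx hmem
      rwa [sub_sub_cancel] at this
    rcases hQ.mem_or_mem h1 with h2 | h2
    · exact hvQ h2
    · exact hy h2
  set q := Nat.card (𝓞 K ⧸ Q.comap T) - 1 with hqd
  have key : ∀ w : 𝓞 K, T w ∉ Q → (Ideal.Quotient.mk Q (T w)) ^ q = 1 := by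
    intro w hw
    have h1 : w ^ q - 1 ∈ Q.comap T := pow_sub_one_mem hR hne hw dvd_rfl
    rw [Ideal.mem_comap, ← Ideal.Quotient.eq_zero_iff_mem] at h1
    simp only [map_sub, map_pow, map_one] at h1
    exact sub_eq_zero.1 h1
  have e1 := key y hy
  have e2 := key x hx
  have e3 : Ideal.Quotient.mk Q (T x) = Ideal.Quotient.mk Q v * Ideal.Quotient.mk Q (T y) := by
    rw [← map_mul]
    exact Ideal.Quotient.eq.2 hmem
  rw [e3, mul_pow, e1, mul_one, ← map_pow] at e2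
  have e4 : 1 - v ^ q ∈ Q := by
    rw [← Ideal.Quotient.eq_zero_iff_mem, map_sub, map_one, e2, sub_self]
  have h3 : IsPrimitiveRoot (v ^ q) p :=
    hv.pow_of_coprime q ((Nat.Prime.coprime_iff_not_dvd hpp).2 hq).symm
  have h6 := p_mem_of_one_sub_mem (v ^ q) h3 Q e4
  -- `p` and `d` are coprime
  have h7 : (Int.gcd d p : ℤ) = d * Int.gcdA d p + p * Int.gcdB d p := Int.gcd_eq_gcd_ab d p
  have h8 : Int.gcd (d : ℤ) (p : ℤ) = 1 := by
    rw [Int.gcd_natCast_natCast]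
    exact hdp
  rw [h8] at h7
  apply one_notMem Q hQ
  have h9 : (1 : 𝓞 N) = (d : 𝓞 N) * (Int.gcdA d p : ℤ) + (p : 𝓞 N) * (Int.gcdB d p : ℤ) := by
    have := congrArg (fun w : ℤ => (w : 𝓞 N)) h7
    push_cast at this
    exact this
  rw [h9]
  exact Q.add_mem (Q.mul_mem_right _ hdQ) (Q.mul_mem_right _ h6)

/-- the valuations of the norm of `u - ζ v` -/
theorem fldD (hp2 : p ≠ 2) (c : Cyc p E) (i : E →+* N) (hD : Dn p E N i) (d d' s : ℕ)
    (hd : d ≠ 0) (hdd : d * d' = 1 + p * s) {t v u : 𝓞 K} (ht : t ≠ 0) (hv : v ≠ 0) (hu : u ≠ 0)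
    (h : t ^ (d * p) + v ^ (d * p) = u ^ (d * p))
    (hcase : ∀ P : Ideal (𝓞 K), P.IsPrime → ((p : ℕ) : 𝓞 K) ∈ P → t ∉ P)
    (hcop : ∀ (τ : K →+* N) (ζ : 𝓞 N), IsPrimitiveRoot ζ p → ∀ P : Ideal (𝓞 N), P.IsPrime →
      ((d : ℕ) : 𝓞 N) ∈ P →
        RingOfIntegers.mapRingHom τ u - ζ * RingOfIntegers.mapRingHom τ v ∉ P)
    (f : Polynomial ℤ) (hf : f.map (Int.castRingHom (𝓞 N)) = nrmP K N u (-v))
    (g : Polynomial ℤ) (hg : g.map (Int.castRingHom (𝓞 N)) = nrmP K N (u ^ d) (-v ^ d)) :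
    aeval c.z f ≠ 0 ∧ g.eval 1 ≠ 0 ∧
    ∀ P : HeightOneSpectrum (𝓞 E), ∃ m : ℤ, P.valuation E (aeval c.z f) =
      P.valuation E (((g.eval 1) ^ d' : ℤ) : E) * WithZero.exp ((p : ℤ) * m) := by
  classical
  have hpp : p.Prime := Fact.out
  have hodd : Odd p := hpp.odd_of_ne_two hp2
  have hzint : IsIntegral ℤ (i c.z) := by
    have h1 : (i c.z) ^ p = 1 := by rw [← map_pow, c.prim.pow_eq_one, map_one]
    exact ⟨Polynomial.X ^ p - 1, Polynomial.monic_X_pow_sub_C 1 hpp.ne_zero, by simp [h1]⟩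
  obtain ⟨zN, hzN⟩ : ∃ w : 𝓞 N, (w : N) = i c.z := ⟨⟨i c.z, hzint⟩, rfl⟩
  have hzprim : IsPrimitiveRoot zN p := by
    apply IsPrimitiveRoot.of_map_of_injective (f := algebraMap (𝓞 N) N) _
      RingOfIntegers.coe_injective
    have h1 : algebraMap (𝓞 N) N zN = i c.z := hzN
    rw [h1]
    exact c.prim.map_of_injective i.injective
  have key : ∀ τ : K →+* N,
      (RingOfIntegers.mapRingHom τ (u ^ d) + RingOfIntegers.mapRingHom τ (-v ^ d) ≠ 0 ∧
        RingOfIntegers.mapRingHom τ u + zN * RingOfIntegers.mapRingHom τ (-v) ≠ 0) ∧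
      ∃ I J : Ideal (𝓞 N), I ≠ ⊥ ∧ J ≠ ⊥ ∧
        Ideal.span {RingOfIntegers.mapRingHom τ u + zN * RingOfIntegers.mapRingHom τ (-v)} *
          J ^ p = Ideal.span {(RingOfIntegers.mapRingHom τ (u ^ d) +
            RingOfIntegers.mapRingHom τ (-v ^ d)) ^ d'} * I ^ p := by
    intro τ
    have finj := mapRingHom_inj τ
    have hu' := hcop τ zN hzprim
    generalize RingOfIntegers.mapRingHom τ = φ at finj hu'
    have habd : φ t ^ (d * p) + φ v ^ (d * p) = φ u ^ (d * p) := by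
      rw [← map_pow, ← map_pow, ← map_pow, ← map_add, h]
    have e1 : φ u + zN * φ (-v) = φ u - zN * φ v := by
      rw [map_neg]
      ring
    have e2 : φ (u ^ d) + φ (-v ^ d) = φ u ^ d - φ v ^ d := by
      rw [map_neg, map_pow, map_pow]
      ring
    obtain ⟨I, J, hI0, hJ0, hIJ⟩ := ided p hp2 zN hzprim d d' s hd hdd (φ t) (φ v) (φ u)
      (fun h0 => ht (finj (by rw [h0, map_zero]))) (fun h0 => hv (finj (by rw [h0, map_zero])))
      (fun h0 => hu (finj (by rw [h0, map_zero]))) habd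
      (fun P hP hpP hDP => hcase (P.comap φ) (hP.comap φ)
        (by rw [Ideal.mem_comap, map_natCast]; exact hpP) (by rw [Ideal.mem_comap]; exact hDP)) hu'
    have h1 : φ u ^ d - φ v ^ d ≠ 0 := by
      intro h0
      have h3 : φ t ^ (d * p) = 0 := by
        rw [pow_mul, pow_mul, pow_mul] at habd
        rw [sub_eq_zero.1 h0] at habd
        rw [pow_mul]
        linear_combination habd
      have h5 := (pow_eq_zero_iff (Nat.mul_ne_zero hd hpp.ne_zero)).1 h3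
      exact ht (finj (by rw [h5, map_zero]))
    rw [e1, e2]
    refine ⟨⟨h1, ?_⟩, I, J, hI0, hJ0, hIJ⟩
    intro h0
    rw [h0, Ideal.span_singleton_eq_bot.2 rfl, Ideal.bot_mul] at hIJ
    have h2 := hIJ.symm
    rw [Ideal.mul_eq_bot, Ideal.span_singleton_eq_bot] at h2
    rcases h2 with h2 | h2
    · exact pow_ne_zero _ h1 h2
    · exact hI0 ((pow_eq_zero_iff hpp.ne_zero).1 h2)
  choose h1 I J hI0 hJ0 hIJ using key
  have eU : ((∏ τ : K →+* N, (RingOfIntegers.mapRingHom τ u +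
      zN * RingOfIntegers.mapRingHom τ (-v)) : 𝓞 N) : N) = i (aeval c.z f) := by
    rw [← eval_f hf zN]
    have e1 : algebraMap (𝓞 N) N (aeval zN f) = aeval (algebraMap (𝓞 N) N zN) f :=
      (aeval_algebraMap_apply N zN f).symm
    have e2 : algebraMap (𝓞 N) N zN = i c.z := hzN
    rw [e2] at e1
    refine e1.trans ?_
    rw [aeval_def, aeval_def, hom_eval₂]
    congr 1
    exact RingHom.ext_int _ _
  have e0 : (∏ τ : K →+* N, (RingOfIntegers.mapRingHom τ (u ^ d) +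
      RingOfIntegers.mapRingHom τ (-v ^ d))) = ((g.eval 1 : ℤ) : 𝓞 N) := by
    have e1 := eval_f hg (1 : 𝓞 N)
    simp only [one_mul] at e1
    rw [← e1]
    have e2 := aeval_algebraMap_apply (𝓞 N) (1 : ℤ) g
    rw [map_one] at e2
    rw [e2]
    rfl
  have eV : ((∏ τ : K →+* N, ((RingOfIntegers.mapRingHom τ (u ^ d) +
      RingOfIntegers.mapRingHom τ (-v ^ d)) ^ d') : 𝓞 N) : N) =
      i (((g.eval 1) ^ d' : ℤ) : E) := by
    rw [Finset.prod_pow, e0, map_intCast]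
    push_cast
    rfl
  have hU0 : (∏ τ : K →+* N, (RingOfIntegers.mapRingHom τ u +
      zN * RingOfIntegers.mapRingHom τ (-v))) ≠ 0 :=
    Finset.prod_ne_zero_iff.2 fun τ _ => (h1 τ).2
  have hV0 : (∏ τ : K →+* N, (RingOfIntegers.mapRingHom τ (u ^ d) +
      RingOfIntegers.mapRingHom τ (-v ^ d))) ≠ 0 :=
    Finset.prod_ne_zero_iff.2 fun τ _ => (h1 τ).1
  have hu0 : aeval c.z f ≠ 0 := by
    intro h0
    rw [h0, map_zero] at eU
    exact hU0 (RingOfIntegers.coe_injective (by rw [map_zero]; exact eU))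
  have hg0 : g.eval 1 ≠ 0 := by
    intro h0
    rw [h0, Int.cast_zero] at e0
    exact hV0 e0
  have hv0 : (((g.eval 1) ^ d' : ℤ) : E) ≠ 0 := by
    exact_mod_cast pow_ne_zero _ hg0
  refine ⟨hu0, hg0, ?_⟩
  apply hD _ _ hu0 hv0 _ _ eU eV (∏ τ : K →+* N, I τ) (∏ τ : K →+* N, J τ)
  · rw [← Ideal.zero_eq_bot]
    exact Finset.prod_ne_zero_iff.2 fun τ _ => hI0 τ
  · rw [← Ideal.zero_eq_bot]
    exact Finset.prod_ne_zero_iff.2 fun τ _ => hJ0 τ
  · rw [← Ideal.prod_span_singleton, ← Ideal.prod_span_singleton, ← Finset.prod_pow,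
      ← Finset.prod_pow, ← Finset.prod_mul_distrib, ← Finset.prod_mul_distrib]
    exact Finset.prod_congr rfl fun τ _ => hIJ τ

end

end Pool.Agent.H95F
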