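import Pool.Agent.Y702.WQ.IDEE

/-!
# Project H95F: the ideal of the factor `u - w v` of `u ^ (d p) - v ^ (d p)`
-/

set_option autoImplicit false
set_option linter.all false

namespace Pool.Agent.H95F

open Finset Polynomial

variable {R : Type} [CommRing R] [IsDedekindDomain R]

open Ideal in
/-- powers of an ideal with two generators -/
theorem pair_pow (a b : R) (ha : a ≠ 0) (j : ℕ) :
    span {a ^ j} ⊔ span {b ^ j} = (span {a} ⊔ span {b} : Ideal R) ^ j := by
  set g : Ideal R := span {a} ⊔ span {b} with hg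
  have hg0 : g ≠ ⊥ := by
    intro h
    have h1 : a ∈ g := (le_sup_left : span {a} ≤ g) (mem_span_singleton_self a)
    rw [h, mem_bot] at h1
    exact ha h1
  obtain ⟨I, hI⟩ : g ∣ span {a} := dvd_iff_le.2 le_sup_left
  obtain ⟨J, hJ⟩ : g ∣ span {b} := dvd_iff_le.2 le_sup_right
  have h1 : g * (I ⊔ J) = g * 1 := by
    rw [Ideal.mul_sup, ← hI, ← hJ, mul_one]
  have h2 : I ⊔ J = 1 := mul_left_cancel₀ hg0 h1
  have h3 : IsCoprime I J := by
    rw [Ideal.isCoprime_iff_sup_eq, h2, one_eq_top]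
  have h4 : IsCoprime (I ^ j) (J ^ j) := h3.pow
  rw [Ideal.isCoprime_iff_sup_eq, ← one_eq_top] at h4
  rw [← span_singleton_pow, ← span_singleton_pow, hI, hJ, mul_pow, mul_pow, ← Ideal.mul_sup, h4, mul_one]

open Ideal in
/-- the ideal of the factor `u - w v` -/
theorem ided (p : ℕ) [Fact p.Prime] (hp2 : p ≠ 2) (w : R) (hw : IsPrimitiveRoot w p)
    (d d' s : ℕ) (hd : d ≠ 0) (hdd : d * d' = 1 + p * s) (t v u : R) (ht : t ≠ 0) (hv : v ≠ 0)
    (hu : u ≠ 0) (h : t ^ (d * p) + v ^ (d * p) = u ^ (d * p))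
    (hcase : ∀ P : Ideal R, P.IsPrime → ((p : ℕ) : R) ∈ P → t ∉ P)
    (hcop : ∀ P : Ideal R, P.IsPrime → ((d : ℕ) : R) ∈ P → u - w * v ∉ P) :
    ∃ A B : Ideal R, A ≠ ⊥ ∧ B ≠ ⊥ ∧
      span {u - w * v} * B ^ p = span {(u ^ d - v ^ d) ^ d'} * A ^ p := by
  have hp : p.Prime := Fact.out
  have hodd : Odd p := hp.odd_of_ne_two hp2
  have hp0 : p ≠ 0 := hp.ne_zero
  have hwu : IsUnit w := IsUnit.of_pow_eq_one hw.pow_eq_one hp0
  have hF := Y702.WQ.fam p hp2 R w hw (u ^ d) (-v ^ d) (-t ^ d) (pow_ne_zero d hu)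
    (neg_ne_zero.2 (pow_ne_zero d ht))
    (by
      rw [hodd.neg_pow, hodd.neg_pow, ← pow_mul, ← pow_mul, ← pow_mul]
      linear_combination -h)
    (by
      intro P hP h1 h2
      have h3 : t ^ d ∈ P := by
        have := P.neg_mem h2
        rwa [neg_neg] at this
      exact hcase P hP h1 (hP.mem_of_pow_mem d h3))
  set g : Ideal R := span {u} ⊔ span {v} with hg
  have hug : u ∈ g := (le_sup_left : span {u} ≤ g) (mem_span_singleton_self u)
  have hvg : v ∈ g := (le_sup_right : span {v} ≤ g) (mem_span_singleton_self v)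
  have hg0 : g ≠ ⊥ := by
    rintro h0
    rw [h0, mem_bot] at hug
    exact hu hug
  have hG : (span {u ^ d, -v ^ d} : Ideal R) = g ^ d := by
    rw [span_insert, span_singleton_neg, pair_pow u v hu d]
  obtain ⟨hne, A, hA0, hA⟩ := hF (w ^ d) (by
    rw [← pow_mul, mul_comm, pow_mul, hw.pow_eq_one, one_pow])
  obtain ⟨-, B, hB0, hB⟩ := hF 1 (one_pow p)
  rw [hG] at hA hB
  -- the cofactor
  set W : R := ∑ i ∈ Finset.range d, u ^ i * (w * v) ^ (d - 1 - i) with hW
  have hfac : (u - w * v) * W = u ^ d + w ^ d * -v ^ d := by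
    have h1 := (Commute.all u (w * v)).mul_geom_sum₂ d
    rw [← hW] at h1
    rw [h1, mul_pow]
    ring
  have hu1 : u - w * v ≠ 0 := by
    intro h0
    apply hne
    rw [← hfac, h0, zero_mul]
  obtain ⟨J1, hJ1⟩ : g ∣ span {u - w * v} :=
    dvd_span_singleton.2 (sub_mem hug (mul_mem_left _ _ hvg))
  have hWg : W ∈ g ^ (d - 1) := by
    refine (g ^ (d - 1)).sum_mem fun i hi => ?_
    rw [Finset.mem_range] at hi
    have e : g ^ (d - 1) = g ^ i * g ^ (d - 1 - i) := by
      rw [← pow_add]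
      congr 1
      omega
    rw [e]
    exact mul_mem_mul (pow_mem_pow hug i) (pow_mem_pow (mul_mem_left _ _ hvg) _)
  obtain ⟨J2, hJ2⟩ : g ^ (d - 1) ∣ span {W} := dvd_span_singleton.2 hWg
  have hgd : g * g ^ (d - 1) = g ^ d := by
    rw [← pow_succ']
    congr 1
    omega
  have hJJ : J1 * J2 = A ^ p := by
    have h1 : g ^ d * (J1 * J2) = g ^ d * A ^ p := by
      rw [← hA, ← hfac, ← span_singleton_mul_span_singleton, hJ1, hJ2, ← hgd]
      rw [mul_mul_mul_comm]
    exact mul_left_cancel₀ (pow_ne_zero _ hg0) h1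
  have hJ10 : J1 ≠ ⊥ := by
    rintro h0
    rw [h0, mul_bot, span_singleton_eq_bot] at hJ1
    exact hu1 hJ1
  have hcop' : IsCoprime J1 J2 := by
    by_contra hcon
    rw [Ideal.isCoprime_iff_sup_eq] at hcon
    obtain ⟨P, hP, hle⟩ := exists_le_maximal _ hcon
    have hPp : P.IsPrime := hP.isPrime
    have hPI : P ∣ J1 := dvd_iff_le.2 (le_sup_left.trans hle)
    have hPJ : P ∣ J2 := dvd_iff_le.2 (le_sup_right.trans hle)
    have m1 : u - w * v ∈ P * g := by
      rw [← dvd_span_singleton, hJ1, mul_comm P g]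
      exact mul_dvd_mul_left g hPI
    have m2 : W ∈ P * g ^ (d - 1) := by
      rw [← dvd_span_singleton, hJ2, mul_comm P (g ^ (d - 1))]
      exact mul_dvd_mul_left _ hPJ
    have m8 : P * g ≤ P := by
      rw [← dvd_iff_le]
      exact dvd_mul_right P g
    by_cases hd1 : d = 1
    · -- the cofactor is one
      have hW1 : W = 1 := by
        rw [hW, hd1]
        simp
      rw [hW1, hd1] at m2
      have : (1 : R) ∈ P := by
        simpa using m2
      exact hPp.ne_top ((eq_top_iff_one _).2 this)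
    have hgd2 : P * g ^ (d - 1) = (P * g) * g ^ (d - 2) := by
      rw [mul_assoc, ← pow_succ']
      congr 2
      omega
    -- `W` is `d (w v) ^ (d - 1)` and `d u ^ (d - 1)` modulo `(u - w v) g ^ (d - 2)`
    have key : ∀ i : ℕ, i ≤ d - 1 →
        u ^ i * (w * v) ^ (d - 1 - i) - (w * v) ^ (d - 1) ∈ P * g ^ (d - 1) := by
      intro i hi
      rcases Nat.eq_zero_or_pos i with rfl | hi0
      · simp
      obtain ⟨q, hq⟩ : ∃ q ∈ g ^ (i - 1), u ^ i - (w * v) ^ i = (u - w * v) * q := by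
        refine ⟨∑ j ∈ Finset.range i, u ^ j * (w * v) ^ (i - 1 - j), ?_, ?_⟩
        · refine (g ^ (i - 1)).sum_mem fun j hj => ?_
          rw [Finset.mem_range] at hj
          have e : g ^ (i - 1) = g ^ j * g ^ (i - 1 - j) := by
            rw [← pow_add]
            congr 1
            omega
          rw [e]
          exact mul_mem_mul (pow_mem_pow hug j) (pow_mem_pow (mul_mem_left _ _ hvg) _)
        · exact ((Commute.all u (w * v)).mul_geom_sum₂ i).symm
      have e1 : u ^ i * (w * v) ^ (d - 1 - i) - (w * v) ^ (d - 1) =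
          (u - w * v) * (q * (w * v) ^ (d - 1 - i)) := by
        have e2 : (w * v) ^ (d - 1) = (w * v) ^ i * (w * v) ^ (d - 1 - i) := by
          rw [← pow_add]
          congr 1
          omega
        rw [e2]
        linear_combination (w * v) ^ (d - 1 - i) * hq.2
      rw [e1, hgd2]
      refine mul_mem_mul m1 ?_
      have e : g ^ (d - 2) = g ^ (i - 1) * g ^ (d - 1 - i) := by
        rw [← pow_add]
        congr 1
        omega
      rw [e]
      exact mul_mem_mul hq.1 (pow_mem_pow (mul_mem_left _ _ hvg) _)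
    have m3 : (d : R) * (w * v) ^ (d - 1) ∈ P * g ^ (d - 1) := by
      have e1 : W - (d : R) * (w * v) ^ (d - 1) =
          ∑ i ∈ Finset.range d, (u ^ i * (w * v) ^ (d - 1 - i) - (w * v) ^ (d - 1)) := by
        rw [Finset.sum_sub_distrib, Finset.sum_const, Finset.card_range, nsmul_eq_mul]
      have e2 : W - (d : R) * (w * v) ^ (d - 1) ∈ P * g ^ (d - 1) := by
        rw [e1]
        refine (P * g ^ (d - 1)).sum_mem fun i hi => ?_
        rw [Finset.mem_range] at hi
        exact key i (by omega)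
      have := sub_mem m2 e2
      rwa [sub_sub_cancel] at this
    have m4 : (d : R) * u ^ (d - 1) ∈ P * g ^ (d - 1) := by
      have e1 := key (d - 1) le_rfl
      rw [Nat.sub_self, pow_zero, mul_one] at e1
      have e2 : (d : R) * u ^ (d - 1) = (d : R) * (u ^ (d - 1) - (w * v) ^ (d - 1)) +
          (d : R) * (w * v) ^ (d - 1) := by ring
      rw [e2]
      exact add_mem (mul_mem_left _ _ e1) m3
    have m5' : (d : R) * v ^ (d - 1) ∈ P * g ^ (d - 1) := by
      obtain ⟨y, hy⟩ := hwu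
      have h1 : (d : R) * v ^ (d - 1) =
          (((y⁻¹ : Rˣ) : R)) ^ (d - 1) * ((d : R) * (w * v) ^ (d - 1)) := by
        rw [mul_pow w v, ← hy]
        calc (d : R) * v ^ (d - 1) =
              ((((y⁻¹ : Rˣ) : R)) * (y : R)) ^ (d - 1) * ((d : R) * v ^ (d - 1)) := by
              rw [Units.inv_mul, one_pow, one_mul]
          _ = _ := by ring
      rw [h1]
      exact mul_mem_left _ _ m3
    have m5 : span {(d : R)} * g ^ (d - 1) ≤ P * g ^ (d - 1) := by
      have e1 : span {(d : R)} * g ^ (d - 1) =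
          span {(d : R) * u ^ (d - 1)} ⊔ span {(d : R) * v ^ (d - 1)} := by
        have e2 : g ^ (d - 1) = span {u ^ (d - 1)} ⊔ span {v ^ (d - 1)} :=
          (pair_pow u v hu (d - 1)).symm
        rw [e2, Ideal.mul_sup, span_singleton_mul_span_singleton,
          span_singleton_mul_span_singleton]
      rw [e1, sup_le_iff, span_singleton_le_iff_mem, span_singleton_le_iff_mem]
      exact ⟨m4, m5'⟩
    have m6 : P ∣ span {(d : R)} := (mul_dvd_mul_iff_right (pow_ne_zero _ hg0)).1 (dvd_iff_le.2 m5)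
    have m7 : (d : R) ∈ P := dvd_span_singleton.1 m6
    exact hcop P hPp m7 (m8 m1)
  obtain ⟨A1, hA1⟩ := exists_eq_pow_of_mul_eq_pow_of_coprime hcop' hJJ
  refine ⟨A1, g ^ s * B ^ d', ?_, ?_, ?_⟩
  · rintro rfl
    apply hJ10
    rw [hA1]
    exact zero_pow hp0
  · exact mul_ne_zero (pow_ne_zero _ hg0) (pow_ne_zero _ hB0)
  · have h1 : span {(u ^ d - v ^ d) ^ d'} = g * (g ^ s * B ^ d') ^ p := by
      have e1 : u ^ d - v ^ d = u ^ d + 1 * -v ^ d := by ring
      rw [← span_singleton_pow, e1, hB, mul_pow, mul_pow, ← pow_mul, hdd, ← pow_mul, ← pow_mul,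
        ← pow_mul, pow_add, pow_one, mul_comm p s, mul_comm p d', mul_assoc]
    rw [hJ1, hA1, h1]
    rw [mul_assoc, mul_assoc, mul_comm (A1 ^ p)]

end Pool.Agent.H95F
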