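import Pool.Agent.H95F.ThS
import Pool.Agent.Y546.WQ.EvnQ
import Pool.Agent.Y445.WQ.CUB

/-!
# Project H95F: quadratic fields
-/

set_option autoImplicit false

namespace Pool.Agent.H95F

open Pool.Agent.Y546.WQ NumberField IsDedekindDomain Polynomial

section

variable {K : Type} [Field K] [NumberField K]

/-- the norm polynomial of `u - T v` -/
theorem quad_poly (hK : Module.finrank ℚ K = 2) (σ : 𝓞 K →+* 𝓞 K)
    (hN : ∀ a : 𝓞 K, ((Algebra.norm ℤ a : ℤ) : 𝓞 K) = a * σ a)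
    (hT : ∀ a : 𝓞 K, ((Algebra.trace ℤ (𝓞 K) a : ℤ) : 𝓞 K) = a + σ a)
    {N : Type} [Field N] [NumberField N] (hcard : Nat.card (K →+* N) = Module.finrank ℚ K)
    (u v : 𝓞 K) (f : Polynomial ℤ)
    (hf : f.map (Int.castRingHom (𝓞 N)) = nrmP K N u (-v)) :
    f = C (Algebra.norm ℤ u) + C (-Algebra.trace ℤ (𝓞 K) (u * σ v)) * X +
      C (Algebra.norm ℤ v) * X ^ 2 := by
  have hσσ := conj_conj σ hT
  obtain ⟨g, hdeg, hc0, hcm, hev, hg'⟩ := Y290.WQ.mainNORM K u (-v)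
  have hfg : f = g := by
    have h1 := hg' N hcard
    rw [← hf] at h1
    have hinj : Function.Injective (Int.castRingHom (𝓞 N)) := by
      intro a b hab
      simpa using hab
    exact (Polynomial.map_injective _ hinj h1).symm
  rw [hfg]
  have hcB : g.coeff 2 = Algebra.norm ℤ v := by
    rw [← hK, hcm]
    have : ((Algebra.norm ℤ (-v) : ℤ) : 𝓞 K) = (Algebra.norm ℤ v : ℤ) := by
      rw [hN, hN, map_neg]
      ring
    exact_mod_cast this
  have hnat : g = C (Algebra.norm ℤ u) + C (g.coeff 1) * X + C (Algebra.norm ℤ v) * X ^ 2 := by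
    have h1 := g.as_sum_range_C_mul_X_pow' (n := 3) (by rw [hK] at hdeg; omega)
    rw [Finset.sum_range_succ, Finset.sum_range_succ, Finset.sum_range_one] at h1
    rw [hc0, hcB, pow_zero, mul_one, pow_one] at h1
    exact h1
  have hc1 : g.coeff 1 = -Algebra.trace ℤ (𝓞 K) (u * σ v) := by
    have h1 := hev 1
    have h2 : g.eval 1 = Algebra.norm ℤ u + g.coeff 1 + Algebra.norm ℤ v := by
      conv_lhs => rw [hnat]
      simp
    rw [h2] at h1
    have h3 : ((Algebra.norm ℤ u + g.coeff 1 + Algebra.norm ℤ v : ℤ) : 𝓞 K) =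
        ((Algebra.norm ℤ u - Algebra.trace ℤ (𝓞 K) (u * σ v) + Algebra.norm ℤ v : ℤ) : 𝓞 K) := by
      rw [h1, hN]
      push_cast
      rw [hN, hN, hT]
      simp only [map_add, map_neg, map_mul, map_one, hσσ]
      ring
    have h4 : Algebra.norm ℤ u + g.coeff 1 + Algebra.norm ℤ v =
        Algebra.norm ℤ u - Algebra.trace ℤ (𝓞 K) (u * σ v) + Algebra.norm ℤ v := by
      exact_mod_cast h3
    linarith
  rw [hc1] at hnat
  exact hnat

/-- the relation between the norms and the trace -/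
theorem quad_rel {p : ℕ} [Fact p.Prime] {E : Type} [Field E] [NumberField E] {N : Type} [Field N]
    [NumberField N] (hp2 : p ≠ 2) (c : Cyc p E) (i : E →+* N)
    (hD : Dn p E N i) (hcard : Nat.card (K →+* N) = Module.finrank ℚ K)
    (hK : Module.finrank ℚ K = 2) (σ : 𝓞 K →+* 𝓞 K)
    (hN : ∀ a : 𝓞 K, ((Algebra.norm ℤ a : ℤ) : 𝓞 K) = a * σ a)
    (hT : ∀ a : 𝓞 K, ((Algebra.trace ℤ (𝓞 K) a : ℤ) : 𝓞 K) = a + σ a)
    (l : ℕ) (hl : l.Prime) (hlp : l ≠ p) (hW : ¬ p ^ 2 ∣ l ^ (p - 1) - 1) (d d' s : ℕ)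
    (hd : d ≠ 0) (hdd : d * d' = 1 + p * s) {t v u : 𝓞 K} (ht : t ≠ 0) (hv : v ≠ 0) (hu : u ≠ 0)
    (h : t ^ (d * p) + v ^ (d * p) = u ^ (d * p))
    (hcase : ∀ P : Ideal (𝓞 K), P.IsPrime → ((p : ℕ) : 𝓞 K) ∈ P → t ∉ P)
    (hcop : ∀ (τ : K →+* N) (ζ : 𝓞 N), IsPrimitiveRoot ζ p → ∀ P : Ideal (𝓞 N), P.IsPrime →
      ((d : ℕ) : 𝓞 N) ∈ P →
        RingOfIntegers.mapRingHom τ u - ζ * RingOfIntegers.mapRingHom τ v ∉ P)
    (hty : ∀ P : Ideal (𝓞 K), P.IsPrime → ((l : ℕ) : 𝓞 K) ∈ P → Ty P u (-v))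
    (Q : Ideal (𝓞 N)) (hQ : Q.IsPrime) (hlQ : ((l : ℕ) : 𝓞 N) ∈ Q) :
    2 * ((Algebra.norm ℤ u : ZMod p) - Algebra.norm ℤ v) =
      ((cnt Q v : ZMod p) - cnt Q u) * ((Algebra.norm ℤ u : ZMod p) + Algebra.norm ℤ v -
        Algebra.trace ℤ (𝓞 K) (u * σ v)) := by
  obtain ⟨f, hf, -, hrel⟩ := relD hp2 c i hD hcard l hl hlp hW d d' s hd hdd ht hv hu h hcase hcop
    hty Q hQ hlQ
  have hq := quad_poly hK σ hN hT hcard u v f hf
  have e1 : f.eval 1 = Algebra.norm ℤ u + -Algebra.trace ℤ (𝓞 K) (u * σ v) +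
      Algebra.norm ℤ v := by
    rw [hq]
    simp
  have e2 : (derivative f).eval 1 = -Algebra.trace ℤ (𝓞 K) (u * σ v) +
      2 * Algebra.norm ℤ v := by
    rw [hq]
    simp only [derivative_add, derivative_C, derivative_C_mul, derivative_X, derivative_X_pow,
      eval_add, eval_mul, eval_C, eval_X, eval_pow, eval_one, eval_zero]
    push_cast
    ring
  rw [e1, e2, hK] at hrel
  push_cast at hrel
  linear_combination -hrel

/-- quadratic fields -/
theorem mainQL {p l k : ℕ} (hp : p.Prime) (h7 : 7 ≤ p) (hl : l.Prime) (hlp : l ≠ p)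
    (hW : ¬ p ^ 2 ∣ l ^ (p - 1) - 1) (hK : Module.finrank ℚ K = 2) (hk : k ≠ 0)
    (hloc : ∀ P : Ideal (𝓞 K), P.IsPrime → ((l : ℕ) : 𝓞 K) ∈ P →
      ¬ p ∣ (Nat.card (𝓞 K ⧸ P) - 1) / Nat.gcd (Nat.card (𝓞 K ⧸ P) - 1) k ∧
      ∀ u v : 𝓞 K, u ∉ P → v ∉ P → 1 + u ^ (k * p) - v ^ (k * p) ∉ P)
    (halt : Even k ∨
      (∀ P P' : Ideal (𝓞 K), P.IsPrime → P'.IsPrime →
        ((l : ℕ) : 𝓞 K) ∈ P → ((l : ℕ) : 𝓞 K) ∈ P' → P = P') ∨
      p - 3 ∉ irr p ∨
      ¬ ∃ s : ZMod p, s ≠ 0 ∧ s ^ 2 = -15 * (NumberField.discr K : ZMod p))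
    {x y z : K} (hx : x ≠ 0) (hy : y ≠ 0) (hz : z ≠ 0)
    (h : x ^ (k * p) + y ^ (k * p) = z ^ (k * p))
    (hv : ∀ v : HeightOneSpectrum (𝓞 K), ((p : ℕ) : 𝓞 K) ∈ v.asIdeal →
      v.valuation K x = v.valuation K y ∧ v.valuation K y = v.valuation K z) : False := by
  have hfact : Fact p.Prime := ⟨hp⟩
  have hp2 : p ≠ 2 := by omega
  have hodd : Odd p := hp.odd_of_ne_two hp2
  have hkp : k * p ≠ 0 := Nat.mul_ne_zero hk hp.ne_zero
  obtain ⟨σ, hN, hT⟩ := Y546.SG.exists_conj hK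
  have hσσ := conj_conj σ hT
  obtain ⟨X, Y, Z, hX, hY, hZ, hXYZ, hcp, hcM⟩ := prepL hp (2 * l) (k * p)
    (Nat.mul_ne_zero two_ne_zero hl.ne_zero) hx hy hz h hv
  have hc2 : ∀ P : Ideal (𝓞 K), P.IsPrime → (2 : 𝓞 K) ∈ P →
      ¬ (X ∈ P ∧ Y ∈ P ∧ Z ∈ P) := by
    intro P hP hDP
    apply hcM P hP
    rw [Nat.cast_mul]
    exact P.mul_mem_right _ (by exact_mod_cast hDP)
  have hcl : ∀ P : Ideal (𝓞 K), P.IsPrime → ((l : ℕ) : 𝓞 K) ∈ P →
      ¬ (X ∈ P ∧ Y ∈ P ∧ Z ∈ P) := by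
    intro P hP hlP
    apply hcM P hP
    rw [Nat.cast_mul]
    exact P.mul_mem_left _ hlP
  have ht3 : ∀ P : Ideal (𝓞 K), P.IsPrime → ((l : ℕ) : 𝓞 K) ∈ P →
      T3 P (X ^ k) (Y ^ k) (-Z ^ k) := fun P hP hlP =>
    t3_of hp hp2 hk P hP (ne_bot_of_mem hl.ne_zero hlP) (hloc P hP hlP).1 (hloc P hP hlP).2 hXYZ
      (hcl P hP hlP)
  have hpw : ∀ (j : ℕ), j ≠ 0 → ∀ (P : Ideal (𝓞 K)), P.IsPrime → ∀ w : 𝓞 K,
      w ^ j ∈ P ↔ w ∈ P := fun j hj P hP w =>
    ⟨fun h => hP.mem_of_pow_mem _ h,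
      fun h => Ideal.pow_mem_of_mem P h _ (Nat.pos_of_ne_zero hj)⟩
  have hone : ∀ P : Ideal (𝓞 K), P.IsPrime → ((l : ℕ) : 𝓞 K) ∈ P → OneIn P X Y Z := by
    intro P hP hlP
    have h1 := (ht3 P hP hlP).one
    unfold OneIn at *
    rw [neg_mem_iff, hpw k hk P hP, hpw k hk P hP, hpw k hk P hP] at h1
    exact h1
  obtain ⟨E, _, _, ⟨c⟩⟩ := Y978.WQ.main p hp2
  obtain ⟨N, _, _, i, hcard, hD⟩ := Y258.WQ.mainDOWNG p E c K (by omega)
  have hD' : Dn p E N i := hD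
  obtain ⟨Q, hQ, hlQ⟩ := exists_above (K := N) l hl
  have hPl : ∀ τ : K →+* N, ((l : ℕ) : 𝓞 K) ∈ Q.comap (RingOfIntegers.mapRingHom τ) := by
    intro τ
    rw [Ideal.mem_comap, map_natCast]
    exact hlQ
  have hsum := cnt_add (Q := Q) hcard (X := X) (Y := Y) (Z := Z)
    (fun τ => hone _ (hQ.comap _) (hPl τ))
  rw [hK] at hsum
  have hnz : ∀ w : 𝓞 K, (∀ P : Ideal (𝓞 K), P.IsPrime → ((p : ℕ) : 𝓞 K) ∈ P → w ∉ P) →
      ((Algebra.norm ℤ w : ℤ) : ZMod p) ≠ 0 := by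
    intro w hw h0
    exact norm_ncp hp σ hN hw ((ZMod.intCast_zmod_eq_zero_iff_dvd _ p).1 h0)
  have hnat : ∀ r : ℕ, 0 < r → r < p → (r : ZMod p) ≠ 0 := by
    intro r hr hrp
    apply natc_ne hp
    intro hd
    have := Nat.le_of_dvd hr hd
    omega
  have n2 : (2 : ZMod p) ≠ 0 := by exact_mod_cast hnat 2 (by norm_num) (by omega)
  have n3 : (3 : ZMod p) ≠ 0 := by exact_mod_cast hnat 3 (by norm_num) (by omega)
  have n5 : (5 : ZMod p) ≠ 0 := by exact_mod_cast hnat 5 (by norm_num) (by omega)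
  have n15 : (15 : ZMod p) ≠ 0 := by
    have : (15 : ZMod p) = 3 * 5 := by norm_num
    rw [this]
    exact mul_ne_zero n3 n5
  have n24 : (24 : ZMod p) ≠ 0 := by
    have : (24 : ZMod p) = 2 * 2 * 2 * 3 := by norm_num
    rw [this]
    exact mul_ne_zero (mul_ne_zero (mul_ne_zero n2 n2) n2) n3
  have mz : ∀ u v : ZMod p, u * v = 0 → u ≠ 0 → v = 0 := fun u v h hu =>
    (mul_eq_zero.1 h).resolve_left hu
  by_cases hev : Even k
  · -- even exponents
    obtain ⟨j, hj⟩ := hev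
    have hj' : k = j * 2 := by omega
    have hj0 : j ≠ 0 := by omega
    have hpw' := hpw j hj0
    have s : SolE p K (X ^ j) (Y ^ j) (Z ^ j) := by
      refine ⟨pow_ne_zero _ hX, pow_ne_zero _ hY, pow_ne_zero _ hZ, ?_, ?_, ?_⟩
      · rw [← pow_mul, ← pow_mul, ← pow_mul, ← mul_assoc, ← hj']
        exact hXYZ
      · intro P hP hpP
        rw [hpw' P hP, hpw' P hP, hpw' P hP]
        exact hcp P hP hpP
      · intro P hP h2P
        rw [hpw' P hP, hpw' P hP, hpw' P hP]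
        exact hc2 P hP h2P
    have hdd : 2 * ((p + 1) / 2) = 1 + p * 1 := by
      obtain ⟨q, hq⟩ := hodd
      omega
    -- coprimality to two
    have hcop : ∀ {x y z : 𝓞 K}, SolE p K x y z → ∀ (τ : K →+* N) (ζ : 𝓞 N),
        IsPrimitiveRoot ζ p → ∀ P : Ideal (𝓞 N), P.IsPrime → ((2 : ℕ) : 𝓞 N) ∈ P →
        RingOfIntegers.mapRingHom τ z - ζ * RingOfIntegers.mapRingHom τ y ∉ P := by
      intro x y z s τ ζ hζ P hP hP2
      have hP2' : (2 : 𝓞 N) ∈ P := by exact_mod_cast hP2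
      have h2τ : (2 : 𝓞 K) ∈ P.comap (RingOfIntegers.mapRingHom τ) := by
        rw [Ideal.mem_comap, map_ofNat]
        exact hP2'
      exact evn_unit (by omega) (RingOfIntegers.mapRingHom τ) ζ hζ P hP hP2' s.eq
        (pow_four σ hN hT _ (hP.comap _) h2τ) (s.two _ (hP.comap _) h2τ)
    -- the types
    have hty : ∀ P : Ideal (𝓞 K), P.IsPrime → ((l : ℕ) : 𝓞 K) ∈ P →
        (Ty P (Z ^ j) (-Y ^ j) ∧ Ty P (Z ^ j) (-(-Y ^ j))) ∧
        (Ty P (Z ^ j) (-X ^ j) ∧ Ty P (Z ^ j) (-(-X ^ j))) := by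
      intro P hP hlP
      have h1 := ht3 P hP hlP
      unfold T3 at h1
      rw [neg_mem_iff, hpw k hk P hP, hpw k hk P hP, hpw k hk P hP] at h1
      have e1 : Y ^ k + -Z ^ k = -((Z ^ j - Y ^ j) * (Z ^ j + Y ^ j)) := by
        rw [hj', pow_mul, pow_mul]
        ring
      have e2 : -Z ^ k + X ^ k = -((Z ^ j - X ^ j) * (Z ^ j + X ^ j)) := by
        rw [hj', pow_mul, pow_mul]
        ring
      rw [e1, e2, neg_mem_iff, neg_mem_iff] at h1
      have f1 : ∀ w : 𝓞 K, (Z ^ j - w ^ j) * (Z ^ j + w ^ j) ∈ P → Z ^ j + -w ^ j ∈ P ∨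
          Z ^ j - -w ^ j ∈ P := by
        intro w hw
        rcases hP.mem_or_mem hw with h | h
        · left
          rwa [← sub_eq_add_neg]
        · right
          rwa [sub_neg_eq_add]
      have f2 : ∀ w : 𝓞 K, (Z ^ j - w ^ j) * (Z ^ j + w ^ j) ∈ P → Z ^ j + -(-w ^ j) ∈ P ∨
          Z ^ j - -(-w ^ j) ∈ P := by
        intro w hw
        rcases hP.mem_or_mem hw with h | h
        · right
          rwa [neg_neg]
        · left
          rwa [neg_neg]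
      unfold Ty
      simp only [neg_mem_iff (H := P), hpw' P hP]
      rcases h1 with ⟨a1, a2, a3, a4⟩ | ⟨a1, a2, a3, a4⟩ | ⟨a1, a2, a3, a4⟩
      · exact ⟨⟨Or.inr (Or.inr ⟨a3, a2, f1 Y a4⟩), Or.inr (Or.inr ⟨a3, a2, f2 Y a4⟩)⟩,
          ⟨Or.inr (Or.inl ⟨a3, a1⟩), Or.inr (Or.inl ⟨a3, a1⟩)⟩⟩
      · exact ⟨⟨Or.inr (Or.inl ⟨a2, a1⟩), Or.inr (Or.inl ⟨a2, a1⟩)⟩,
          ⟨Or.inr (Or.inr ⟨a2, a3, f1 X a4⟩), Or.inr (Or.inr ⟨a2, a3, f2 X a4⟩)⟩⟩
      · exact ⟨⟨Or.inl ⟨a1, a3⟩, Or.inl ⟨a1, a3⟩⟩, ⟨Or.inl ⟨a1, a2⟩, Or.inl ⟨a1, a2⟩⟩⟩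
    have hrel := fun {x y z : 𝓞 K} (s : SolE p K x y z)
        (ht : ∀ P : Ideal (𝓞 K), P.IsPrime → ((l : ℕ) : 𝓞 K) ∈ P → Ty P z (-y)) =>
      quad_rel hp2 c i hD' hcard hK σ hN hT l hl hlp hW 2 ((p + 1) / 2) 1 two_ne_zero hdd s.x0
        s.y0 s.z0 s.eq (fun P hP hpP => (s.cp P hP hpP).1) (hcop s) ht Q hQ hlQ
    have r1 := hrel s (fun P hP hlP => (hty P hP hlP).1.1)
    have r1' := hrel s.negy (fun P hP hlP => (hty P hP hlP).1.2)
    have r2 := hrel s.swap (fun P hP hlP => (hty P hP hlP).2.1)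
    have r2' := hrel s.swap.negy (fun P hP hlP => (hty P hP hlP).2.2)
    have hnegN : ∀ w : 𝓞 K, Algebra.norm ℤ (-w) = Algebra.norm ℤ w := by
      intro w
      have : ((Algebra.norm ℤ (-w) : ℤ) : 𝓞 K) = (Algebra.norm ℤ w : ℤ) := by
        rw [hN, hN, map_neg]
        ring
      exact_mod_cast this
    have hnegT : ∀ w : 𝓞 K, Algebra.trace ℤ (𝓞 K) (Z ^ j * σ (-w)) =
        -Algebra.trace ℤ (𝓞 K) (Z ^ j * σ w) := by
      intro w
      rw [map_neg, mul_neg, map_neg]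
    rw [cnt_neg, hnegN, hnegT] at r1' r2'
    rw [cnt_pow hQ _ hj0, cnt_pow hQ _ hj0] at r1 r1' r2 r2'
    have f1 := datE2 hp hp2 σ hN hT s _ _ _ _ rfl rfl rfl rfl
    have f2 := datE2 hp hp2 σ hN hT s.swap _ _ _ _ rfl rfl rfl rfl
    have A0 := hnz (Z ^ j) fun P hP hpP => (s.cp P hP hpP).2.2
    have B0 := hnz (Y ^ j) fun P hP hpP => (s.cp P hP hpP).2.1
    have D0 := hnz (X ^ j) fun P hP hpP => (s.cp P hP hpP).1
    push_cast at r1' r2'
    obtain ⟨A, hA⟩ : ∃ A : ZMod p, A = (Algebra.norm ℤ (Z ^ j) : ZMod p) := ⟨_, rfl⟩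
    obtain ⟨B, hB⟩ : ∃ A : ZMod p, A = (Algebra.norm ℤ (Y ^ j) : ZMod p) := ⟨_, rfl⟩
    obtain ⟨D, hD''⟩ : ∃ A : ZMod p, A = (Algebra.norm ℤ (X ^ j) : ZMod p) := ⟨_, rfl⟩
    obtain ⟨r, hr⟩ : ∃ r : ZMod p, r = (Algebra.trace ℤ (𝓞 K) (Z ^ j * σ (Y ^ j)) : ZMod p) :=
      ⟨_, rfl⟩
    obtain ⟨q, hq⟩ : ∃ r : ZMod p, r = (Algebra.trace ℤ (𝓞 K) (Z ^ j * σ (X ^ j)) : ZMod p) :=
      ⟨_, rfl⟩
    rw [← hA, ← hB, ← hr] at r1 r1'
    rw [← hA, ← hD'', ← hq] at r2 r2'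
    rw [← hA, ← hB, ← hD'', ← hr] at f1
    rw [← hA, ← hB, ← hD'', ← hq] at f2
    rw [← hA] at A0
    rw [← hB] at B0
    rw [← hD''] at D0
    clear hA hB hD'' hr hq
    have sq0 : ∀ u : ZMod p, u ≠ 0 → 15 * u ^ 2 ≠ 0 := fun u hu =>
      mul_ne_zero n15 (pow_ne_zero 2 hu)
    generalize cnt Q X = α at *
    generalize cnt Q Y = β at *
    generalize cnt Q Z = δ at *
    have hcases : (α = 2 ∧ β = 0 ∧ δ = 0) ∨ (α = 0 ∧ β = 2 ∧ δ = 0) ∨ (α = 0 ∧ β = 0 ∧ δ = 2) ∨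
        (α = 1 ∧ β = 1 ∧ δ = 0) ∨ (α = 1 ∧ β = 0 ∧ δ = 1) ∨ (α = 0 ∧ β = 1 ∧ δ = 1) := by
      omega
    rcases hcases with ⟨rfl, rfl, rfl⟩ | ⟨rfl, rfl, rfl⟩ | ⟨rfl, rfl, rfl⟩ | ⟨rfl, rfl, rfl⟩ |
      ⟨rfl, rfl, rfl⟩ | ⟨rfl, rfl, rfl⟩ <;> push_cast at r1 r1' r2 r2'
    · apply D0
      apply mz _ _ _ (mul_ne_zero (mul_ne_zero n2 n2) n2)
      linear_combination -r2 - r2'
    · apply B0
      apply mz _ _ _ (mul_ne_zero (mul_ne_zero n2 n2) n2)
      linear_combination -r1 - r1'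
    · apply A0
      apply mz _ _ _ (mul_ne_zero (mul_ne_zero n2 n2) n2)
      linear_combination r1 + r1'
    · have g1 : r = 0 := mz _ _ (by linear_combination r1 - r1') n2
      have g2 : q = 0 := mz _ _ (by linear_combination r2 - r2') n2
      rw [g1] at r1 f1
      rw [g2] at r2 f2
      have g3 : A = 3 * B := by linear_combination r1
      have g4 : D = B := by
        have : (3 : ZMod p) * (D - B) = 0 := by linear_combination g3 - r2
        exact sub_eq_zero.1 (mz _ _ this n3)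
      rw [g3, g4] at f1
      exact sq0 B B0 (by linear_combination -f1)
    · have g1 : r = 0 := mz _ _ (by linear_combination r1' - r1) n2
      rw [g1] at r1 f1
      have g3 : B = 3 * A := by linear_combination -r1
      have g4 : A = D := by
        have : (2 : ZMod p) * (A - D) = 0 := by linear_combination r2
        exact sub_eq_zero.1 (mz _ _ this n2)
      rw [g3, ← g4] at f1
      exact sq0 A A0 (by linear_combination -f1)
    · have g1 : q = 0 := mz _ _ (by linear_combination r2' - r2) n2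
      rw [g1] at r2 f2
      have g3 : D = 3 * A := by linear_combination -r2
      have g4 : A = B := by
        have : (2 : ZMod p) * (A - B) = 0 := by linear_combination r1
        exact sub_eq_zero.1 (mz _ _ this n2)
      rw [g3, ← g4] at f2
      exact sq0 A A0 (by linear_combination -f2)
  · -- arbitrary exponents
    have halt' := halt.resolve_left hev
    have s : Sol p K (Z ^ k) (-Y ^ k) (-X ^ k) := by
      refine ⟨pow_ne_zero _ hZ, neg_ne_zero.2 (pow_ne_zero _ hY), neg_ne_zero.2 (pow_ne_zero _ hX),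
        ?_, ?_⟩
      · rw [hodd.neg_pow, hodd.neg_pow, ← pow_mul, ← pow_mul, ← pow_mul]
        linear_combination -hXYZ
      · intro P hP hpP
        rw [neg_mem_iff, neg_mem_iff, hpw k hk P hP, hpw k hk P hP, hpw k hk P hP]
        exact ⟨(hcp P hP hpP).2.2, (hcp P hP hpP).2.1, (hcp P hP hpP).1⟩
    have s' : Sol p K (Z ^ k) (-X ^ k) (-Y ^ k) := by
      refine ⟨s.X0, s.Z0, s.Y0, ?_, fun P hP hpP => ⟨(s.cp P hP hpP).1, (s.cp P hP hpP).2.2,
        (s.cp P hP hpP).2.1⟩⟩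
      rw [← s.eq]
      ring
    have hcop1 : ∀ (u v : 𝓞 K) (τ : K →+* N) (ζ : 𝓞 N),
        IsPrimitiveRoot ζ p → ∀ P : Ideal (𝓞 N), P.IsPrime → ((1 : ℕ) : 𝓞 N) ∈ P →
        RingOfIntegers.mapRingHom τ u - ζ * RingOfIntegers.mapRingHom τ v ∉ P := by
      intro u v τ ζ _ P hP h1P
      exact absurd (by simpa using h1P) (one_notMem P hP)
    have r1 := quad_rel hp2 c i hD' hcard hK σ hN hT l hl hlp hW 1 1 0 one_ne_zero (by norm_num)
      (pow_ne_zero k hX) (pow_ne_zero k hY) (pow_ne_zero k hZ)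
      (by rw [one_mul, ← pow_mul, ← pow_mul, ← pow_mul]; exact hXYZ)
      (fun P hP hpP hm => (hcp P hP hpP).1 ((hpw k hk P hP X).1 hm)) (hcop1 _ _) (by
        intro P hP hlP
        have h1 := ht3 P hP hlP
        unfold T3 at h1
        unfold Ty
        have e : Z ^ k + -Y ^ k = -(Y ^ k + -Z ^ k) := by ring
        rw [neg_mem_iff] at h1 ⊢
        rw [e, neg_mem_iff]
        tauto) Q hQ hlQ
    have r2 := quad_rel hp2 c i hD' hcard hK σ hN hT l hl hlp hW 1 1 0 one_ne_zero (by norm_num)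
      (pow_ne_zero k hY) (pow_ne_zero k hX) (pow_ne_zero k hZ)
      (by rw [one_mul, ← pow_mul, ← pow_mul, ← pow_mul]; rw [← hXYZ]; ring)
      (fun P hP hpP hm => (hcp P hP hpP).2.1 ((hpw k hk P hP Y).1 hm)) (hcop1 _ _) (by
        intro P hP hlP
        have h1 := ht3 P hP hlP
        unfold T3 at h1
        unfold Ty
        have e : Z ^ k + -X ^ k = -X ^ k - -Z ^ k := by ring
        have e' : Z ^ k + -X ^ k = -(-Z ^ k + X ^ k) := by ring
        rw [neg_mem_iff] at h1 ⊢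
        rw [e', neg_mem_iff]
        tauto) Q hQ hlQ
    rw [cnt_pow hQ _ hk, cnt_pow hQ _ hk] at r1 r2
    -- the linear relations at `p`
    have hnegN : ∀ w : 𝓞 K, Algebra.norm ℤ (-w) = Algebra.norm ℤ w := by
      intro w
      have : ((Algebra.norm ℤ (-w) : ℤ) : 𝓞 K) = (Algebra.norm ℤ w : ℤ) := by
        rw [hN, hN, map_neg]
        ring
      exact_mod_cast this
    have hnegT : ∀ w : 𝓞 K, Algebra.trace ℤ (𝓞 K) (Z ^ k * σ (-w)) =
        -Algebra.trace ℤ (𝓞 K) (Z ^ k * σ w) := by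
      intro w
      rw [map_neg, mul_neg, map_neg]
    have g1 := (ZMod.intCast_zmod_eq_zero_iff_dvd _ p).2 (norm_rel σ hN hT p hp
      (fun P hP hpP => lin_p hp P hP hpP s.eq))
    have g2 := (ZMod.intCast_zmod_eq_zero_iff_dvd _ p).2 (norm_rel σ hN hT p hp
      (fun P hP hpP => lin_p hp P hP hpP s'.eq))
    rw [hnegN, hnegN, hnegT] at g1 g2
    push_cast at g1 g2
    -- the third order
    have hcub : Reg p 3 → ∀ {w w' : 𝓞 K}, Sol p K (Z ^ k) (-w) w' →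
        ((Algebra.norm ℤ (Z ^ k) : ZMod p) - Algebra.norm ℤ w) *
        (((Algebra.norm ℤ (Z ^ k) : ZMod p) + -Algebra.trace ℤ (𝓞 K) (Z ^ k * σ w) +
          Algebra.norm ℤ w) ^ 2 -
          3 * ((Algebra.norm ℤ (Z ^ k) : ZMod p) + Algebra.norm ℤ w) *
          ((Algebra.norm ℤ (Z ^ k) : ZMod p) + -Algebra.trace ℤ (𝓞 K) (Z ^ k * σ w) +
            Algebra.norm ℤ w) +
          2 * ((Algebra.norm ℤ (Z ^ k) : ZMod p) - Algebra.norm ℤ w) ^ 2) = 0 := by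
      intro hreg w w' sw
      obtain ⟨f, hdeg, hc0, hcm, hev', hf'⟩ := Y290.WQ.mainNORM K (Z ^ k) (-w)
      have hf := hf' N hcard
      have hrel := rel_of_sol aUNITA Y261.WQ.main Y919.WQ.mainLAMA Y290.WQ.mainNORM c i hD' hcard
        hp2 sw f hdeg hc0 hcm hev' hf
      obtain ⟨-, -, -, b4, -⟩ := base Y290.WQ.mainNORM hcard sw f hdeg hc0 hcm hev'
      have hq := quad_poly hK σ hN hT hcard (Z ^ k) w f hf
      have hmap : f.map (Int.castRingHom (ZMod p)) = C (Algebra.norm ℤ (Z ^ k) : ZMod p) +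
          C (-(Algebra.trace ℤ (𝓞 K) (Z ^ k * σ w) : ZMod p)) * Polynomial.X +
          C (Algebra.norm ℤ w : ZMod p) * Polynomial.X ^ 2 := by
        rw [hq]
        simp
      rw [hmap] at hrel b4
      exact Y445.WQ.mainCUB p h7 _ _ _ (by simpa using b4) hreg hrel
    have A0 := hnz (Z ^ k) fun P hP hpP hm => (hcp P hP hpP).2.2 ((hpw k hk P hP Z).1 hm)
    have B0 := hnz (Y ^ k) fun P hP hpP hm => (hcp P hP hpP).2.1 ((hpw k hk P hP Y).1 hm)
    have D0 := hnz (X ^ k) fun P hP hpP hm => (hcp P hP hpP).1 ((hpw k hk P hP X).1 hm)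
    -- the discriminants
    have hdisc : ∀ w : 𝓞 K, ∃ m : ZMod p,
        (Algebra.trace ℤ (𝓞 K) (Z ^ k * σ w) : ZMod p) ^ 2 -
          4 * ((Algebra.norm ℤ (Z ^ k) : ZMod p) * Algebra.norm ℤ w) =
          m ^ 2 * (NumberField.discr K : ZMod p) := by
      intro w
      obtain ⟨m, hm⟩ := disc_eq hK σ hN hT (Z ^ k * σ w)
      have e1 : Algebra.norm ℤ (Z ^ k * σ w) = Algebra.norm ℤ (Z ^ k) * Algebra.norm ℤ w := by
        have e1 : ((Algebra.norm ℤ (Z ^ k * σ w) : ℤ) : 𝓞 K) =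
            ((Algebra.norm ℤ (Z ^ k) * Algebra.norm ℤ w : ℤ) : 𝓞 K) := by
          push_cast
          rw [hN, hN, hN, map_mul, hσσ]
          ring
        exact_mod_cast e1
      rw [e1] at hm
      refine ⟨m, ?_⟩
      have := congrArg (fun w : ℤ => (w : ZMod p)) hm
      push_cast at this
      exact this
    have hd1 := hdisc (Y ^ k)
    have hd2 := hdisc (X ^ k)
    have hk1 := fun hr => hcub hr s
    have hk2 := fun hr => hcub hr s'
    clear hdisc hcub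
    obtain ⟨A, hA⟩ : ∃ A : ZMod p, A = (Algebra.norm ℤ (Z ^ k) : ZMod p) := ⟨_, rfl⟩
    obtain ⟨B, hB⟩ : ∃ A : ZMod p, A = (Algebra.norm ℤ (Y ^ k) : ZMod p) := ⟨_, rfl⟩
    obtain ⟨D, hD''⟩ : ∃ A : ZMod p, A = (Algebra.norm ℤ (X ^ k) : ZMod p) := ⟨_, rfl⟩
    obtain ⟨r, hr⟩ : ∃ r : ZMod p, r = (Algebra.trace ℤ (𝓞 K) (Z ^ k * σ (Y ^ k)) : ZMod p) :=
      ⟨_, rfl⟩
    obtain ⟨q, hq⟩ : ∃ r : ZMod p, r = (Algebra.trace ℤ (𝓞 K) (Z ^ k * σ (X ^ k)) : ZMod p) :=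
      ⟨_, rfl⟩
    rw [← hA, ← hB, ← hr] at r1 hd1 hk1
    rw [← hA, ← hD'', ← hq] at r2 hd2 hk2
    rw [← hA, ← hB, ← hD'', ← hr] at g1
    rw [← hA, ← hB, ← hD'', ← hq] at g2
    rw [← hA] at A0
    rw [← hB] at B0
    rw [← hD''] at D0
    clear hA hB hD'' hr hq
    have g1' : A + B - r = D := by linear_combination g1
    have g2' : A + D - q = B := by linear_combination g2
    rw [g1'] at r1
    rw [g2'] at r2
    have hreg3 : p - 3 ∉ irr p → Reg p 3 := fun hk =>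
      reg_of Y61.WQ.mainBER 3 (by decide) le_rfl (by omega) hk
    -- one prime above `l`
    have huniq : (∀ P P' : Ideal (𝓞 K), P.IsPrime → P'.IsPrime →
        ((l : ℕ) : 𝓞 K) ∈ P → ((l : ℕ) : 𝓞 K) ∈ P' → P = P') →
        ¬ (0 < cnt Q X ∧ 0 < cnt Q Y) ∧ ¬ (0 < cnt Q X ∧ 0 < cnt Q Z) ∧
        ¬ (0 < cnt Q Y ∧ 0 < cnt Q Z) := by
      intro hu
      have key : ∀ w : 𝓞 K, 0 < cnt Q w → ∀ P : Ideal (𝓞 K), P.IsPrime →
          ((l : ℕ) : 𝓞 K) ∈ P → w ∈ P := by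
        intro w hw P hP hlP
        unfold cnt at hw
        obtain ⟨⟨τ, hτ⟩⟩ := (Nat.card_pos_iff.1 hw).1
        rw [hu P (Q.comap (RingOfIntegers.mapRingHom τ)) hP (hQ.comap _) hlP (hPl τ)]
        exact hτ
      obtain ⟨P, hP, hlP⟩ := exists_above (K := K) l hl
      have h1 := hone P hP hlP
      unfold OneIn at h1
      have fin3 : (X ∈ P → Y ∈ P → False) ∧ (X ∈ P → Z ∈ P → False) ∧ (Y ∈ P → Z ∈ P → False) := by
        rcases h1 with ⟨c1, c2, c3⟩ | ⟨c1, c2, c3⟩ | ⟨c1, c2, c3⟩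
        · exact ⟨fun _ b => c2 b, fun _ b => c3 b, fun b _ => c2 b⟩
        · exact ⟨fun b _ => c1 b, fun b _ => c1 b, fun _ b => c3 b⟩
        · exact ⟨fun b _ => c1 b, fun b _ => c1 b, fun b _ => c2 b⟩
      exact ⟨fun ⟨a1, a2⟩ => fin3.1 (key _ a1 P hP hlP) (key _ a2 P hP hlP),
        fun ⟨a1, a2⟩ => fin3.2.1 (key _ a1 P hP hlP) (key _ a2 P hP hlP),
        fun ⟨a1, a2⟩ => fin3.2.2 (key _ a1 P hP hlP) (key _ a2 P hP hlP)⟩
    -- the final computation for the split types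
    have hfin : ∀ w : ZMod p, w ≠ 0 → (∃ m : ZMod p, -15 * w ^ 2 =
        m ^ 2 * (NumberField.discr K : ZMod p)) →
        ∃ s : ZMod p, s ≠ 0 ∧ s ^ 2 = -15 * (NumberField.discr K : ZMod p) := by
      rintro w hw ⟨m, hm⟩
      have hm0 : m ≠ 0 := by
        rintro rfl
        apply mul_ne_zero n15 (pow_ne_zero 2 hw)
        linear_combination -hm
      refine ⟨15 * w / m, div_ne_zero (mul_ne_zero n15 hw) hm0, ?_⟩
      rw [div_pow, div_eq_iff (pow_ne_zero 2 hm0)]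
      linear_combination (-15 : ZMod p) * hm
    generalize hα : cnt Q X = α at *
    generalize hβ : cnt Q Y = β at *
    generalize hδ : cnt Q Z = δ at *
    have hcases : (α = 2 ∧ β = 0 ∧ δ = 0) ∨ (α = 0 ∧ β = 2 ∧ δ = 0) ∨ (α = 0 ∧ β = 0 ∧ δ = 2) ∨
        (α = 1 ∧ β = 1 ∧ δ = 0) ∨ (α = 1 ∧ β = 0 ∧ δ = 1) ∨ (α = 0 ∧ β = 1 ∧ δ = 1) := by
      omega
    rcases hcases with ⟨rfl, rfl, rfl⟩ | ⟨rfl, rfl, rfl⟩ | ⟨rfl, rfl, rfl⟩ | ⟨rfl, rfl, rfl⟩ |
      ⟨rfl, rfl, rfl⟩ | ⟨rfl, rfl, rfl⟩ <;> push_cast at r1 r2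
    · -- `A = B`, `A - D = B`
      apply D0
      apply mz _ _ _ n2
      linear_combination r1 - r2
    · apply B0
      apply mz _ _ _ n2
      linear_combination r2 - r1
    · apply A0
      apply mz _ _ _ (mul_ne_zero n2 n2)
      linear_combination r1 + r2
    · -- `2 (A - B) = D`, `2 (A - D) = B`
      have e1 : D = B := by linear_combination r1 - r2
      have e2 : 2 * A = 3 * B := by rw [e1] at r1; linear_combination r1
      obtain ⟨w, hw⟩ : ∃ w : ZMod p, B = 2 * w := ⟨B / 2, by field_simp⟩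
      have hA3 : A = 3 * w := by
        have : 2 * (A - 3 * w) = 0 := by rw [hw] at e2; linear_combination e2
        exact sub_eq_zero.1 (mz _ _ this n2)
      have hw0 : w ≠ 0 := by
        rintro rfl
        exact B0 (by rw [hw, mul_zero])
      rw [e1, hw, hA3] at g1'
      have hr : r = 3 * w := by linear_combination -g1'
      rcases halt' with h1 | h1 | h1
      · exact absurd (huniq h1).1 (by simp)
      · have := hk1 (hreg3 h1)
        rw [hA3, hw, hr] at this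
        apply mul_ne_zero n24 (pow_ne_zero 3 hw0)
        linear_combination -this
      · apply h1
        apply hfin w hw0
        obtain ⟨m, hm⟩ := hd1
        refine ⟨m, ?_⟩
        rw [hA3, hw, hr] at hm
        rw [← hm]
        ring
    · -- `2 (A - B) = - D`, `A = D`
      have e1 : A = D := by
        have : (2 : ZMod p) * (A - D) = 0 := by linear_combination r2
        exact sub_eq_zero.1 (mz _ _ this n2)
      obtain ⟨w, hw⟩ : ∃ w : ZMod p, A = 2 * w := ⟨A / 2, by field_simp⟩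
      have hB3 : B = 3 * w := by
        have : 2 * (B - 3 * w) = 0 := by
          rw [← e1, hw] at r1
          linear_combination -r1
        exact sub_eq_zero.1 (mz _ _ this n2)
      have hw0 : w ≠ 0 := by
        rintro rfl
        exact A0 (by rw [hw, mul_zero])
      rw [← e1, hw, hB3] at g1'
      have hr : r = 3 * w := by linear_combination -g1'
      rcases halt' with h1 | h1 | h1
      · exact absurd (huniq h1).2.1 (by simp)
      · have := hk1 (hreg3 h1)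
        rw [hw, hB3, hr] at this
        apply mul_ne_zero n24 (pow_ne_zero 3 hw0)
        linear_combination this
      · apply h1
        apply hfin w hw0
        obtain ⟨m, hm⟩ := hd1
        refine ⟨m, ?_⟩
        rw [hw, hB3, hr] at hm
        rw [← hm]
        ring
    · -- `A = B`, `2 (A - D) = - B`
      have e1 : A = B := by
        have : (2 : ZMod p) * (A - B) = 0 := by linear_combination r1
        exact sub_eq_zero.1 (mz _ _ this n2)
      obtain ⟨w, hw⟩ : ∃ w : ZMod p, A = 2 * w := ⟨A / 2, by field_simp⟩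
      have hD3 : D = 3 * w := by
        have : 2 * (D - 3 * w) = 0 := by
          rw [← e1, hw] at r2
          linear_combination -r2
        exact sub_eq_zero.1 (mz _ _ this n2)
      have hw0 : w ≠ 0 := by
        rintro rfl
        exact A0 (by rw [hw, mul_zero])
      rw [← e1, hw, hD3] at g2'
      have hq : q = 3 * w := by linear_combination -g2'
      rcases halt' with h1 | h1 | h1
      · exact absurd (huniq h1).2.2 (by simp)
      · have := hk2 (hreg3 h1)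
        rw [hw, hD3, hq] at this
        apply mul_ne_zero n24 (pow_ne_zero 3 hw0)
        linear_combination this
      · apply h1
        apply hfin w hw0
        obtain ⟨m, hm⟩ := hd2
        refine ⟨m, ?_⟩
        rw [hw, hD3, hq] at hm
        rw [← hm]
        ring

end

end Pool.Agent.H95F
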