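import Pool.Agent.Y546.WQ.All
import Pool.Agent.H95F.FldD
import Pool.Agent.H95F.Chr

/-!
# Project H95F: the relation for the pair `u, v`
-/

set_option autoImplicit false

namespace Pool.Agent.H95F

open Pool.Agent.Y546.WQ NumberField IsDedekindDomain Polynomial

section

variable {p : ℕ} [Fact p.Prime] {E : Type} [Field E] [NumberField E]
  {K N : Type} [Field K] [NumberField K] [Field N] [NumberField N]

/-- the relation of first order for the norm polynomial of `u - T v` -/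
theorem relD (hp2 : p ≠ 2) (c : Cyc p E) (i : E →+* N) (hD : Dn p E N i)
    (hcard : Nat.card (K →+* N) = Module.finrank ℚ K) (l : ℕ) (hl : l.Prime) (hlp : l ≠ p)
    (hW : ¬ p ^ 2 ∣ l ^ (p - 1) - 1) (d d' s : ℕ)
    (hd : d ≠ 0) (hdd : d * d' = 1 + p * s) {t v u : 𝓞 K} (ht : t ≠ 0) (hv : v ≠ 0) (hu : u ≠ 0)
    (h : t ^ (d * p) + v ^ (d * p) = u ^ (d * p))
    (hcase : ∀ P : Ideal (𝓞 K), P.IsPrime → ((p : ℕ) : 𝓞 K) ∈ P → t ∉ P)
    (hcop : ∀ (τ : K →+* N) (ζ : 𝓞 N), IsPrimitiveRoot ζ p → ∀ P : Ideal (𝓞 N), P.IsPrime →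
      ((d : ℕ) : 𝓞 N) ∈ P →
        RingOfIntegers.mapRingHom τ u - ζ * RingOfIntegers.mapRingHom τ v ∉ P)
    (hty : ∀ P : Ideal (𝓞 K), P.IsPrime → ((l : ℕ) : 𝓞 K) ∈ P → Ty P u (-v))
    (Q : Ideal (𝓞 N)) (hQ : Q.IsPrime) (hlQ : ((l : ℕ) : 𝓞 N) ∈ Q) :
    ∃ f : Polynomial ℤ, f.map (Int.castRingHom (𝓞 N)) = nrmP K N u (-v) ∧
      ¬ (p : ℤ) ∣ f.eval 1 ∧
      2 * (((derivative f).eval 1 : ℤ) : ZMod p) =
        ((Module.finrank ℚ K : ZMod p) + cnt Q u - cnt Q v) * ((f.eval 1 : ℤ) : ZMod p) := by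
  have hpp : p.Prime := Fact.out
  obtain ⟨f, hdeg, hc0, hcm, hev, hf'⟩ := Y290.WQ.mainNORM K u (-v)
  obtain ⟨g, -, -, -, hgev, hg'⟩ := Y290.WQ.mainNORM K (u ^ d) (-v ^ d)
  have hf := hf' N hcard
  have hg := hg' N hcard
  obtain ⟨h0, hg0, hval⟩ := fldD hp2 c i hD d d' s hd hdd ht hv hu h hcase hcop f hf g hg
  -- units at `p`
  have hnp : ∀ P : Ideal (𝓞 K), P.IsPrime → ((p : ℕ) : 𝓞 K) ∈ P → u ^ d - v ^ d ∉ P := by
    intro P hP hpP hmem
    apply hcase P hP hpP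
    apply hP.mem_of_pow_mem (d * p)
    have e : t ^ (d * p) = (u ^ d) ^ p - (v ^ d) ^ p := by
      rw [← pow_mul, ← pow_mul, ← h]
      ring
    rw [e]
    obtain ⟨r, hr⟩ := sub_dvd_pow_sub_pow (u ^ d) (v ^ d) p
    rw [hr]
    exact P.mul_mem_right _ hmem
  have hpg : ¬ (p : ℤ) ∣ g.eval 1 := by
    rw [hgev]
    apply norm_coprime hcard Y290.WQ.mainNORM p hpp
    intro P hP hpP h'
    apply hnp P hP hpP
    have e : u ^ d - v ^ d = u ^ d + ((1 : ℤ) : 𝓞 K) * -v ^ d := by push_cast; ring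
    rw [e]
    exact h'
  have hpf : ¬ (p : ℤ) ∣ f.eval 1 := by
    rw [hev]
    apply norm_coprime hcard Y290.WQ.mainNORM p hpp
    intro P hP hpP h'
    apply hnp P hP hpP
    obtain ⟨r, hr⟩ := sub_dvd_pow_sub_pow u v d
    rw [hr]
    have e : u - v = u + ((1 : ℤ) : 𝓞 K) * -v := by push_cast; ring
    rw [e]
    exact P.mul_mem_right _ h'
  have hpD : ¬ (p : ℤ) ∣ (g.eval 1) ^ d' := fun h =>
    hpg ((Nat.prime_iff_prime_int.1 hpp).dvd_of_dvd_pow h)
  obtain ⟨r, hr⟩ := locl K N hcard l hl Q hQ hlQ u (-v) hty f hf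
  have hcopl := copl p l hl hlp E c K N i hp2 u (-v) hty f hf
  refine ⟨f, hf, hpf, ?_⟩
  have hmain := key aUNITA Y919.WQ.mainLAMA hp2 l hl hlp c f ((g.eval 1) ^ d') hpD hpf h0 hval
    (Module.finrank ℚ K) (cnt Q u) (cnt Q (-v)) r hdeg hr hcopl hW
  rw [cnt_neg] at hmain
  exact hmain

/-- the relation in a field of characteristic `p` -/
theorem relF {F : Type} [Field F] [CharP F p] (ψ : 𝓞 N →+* F) {u v : 𝓞 K} {f : Polynomial ℤ}
    (hcard : Nat.card (K →+* N) = Module.finrank ℚ K)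
    (hf : f.map (Int.castRingHom (𝓞 N)) = nrmP K N u (-v)) (hpf : ¬ (p : ℤ) ∣ f.eval 1)
    (a b : ℕ)
    (h : 2 * (((derivative f).eval 1 : ℤ) : ZMod p) =
        ((Module.finrank ℚ K : ZMod p) + a - b) * ((f.eval 1 : ℤ) : ZMod p)) :
    open Classical in
    (∀ τ : K →+* N, ψ (RingOfIntegers.mapRingHom τ u) - ψ (RingOfIntegers.mapRingHom τ v) ≠ 0) ∧
    ∑ τ : K →+* N, (ψ (RingOfIntegers.mapRingHom τ u) + ψ (RingOfIntegers.mapRingHom τ v)) *
      ∏ σ ∈ Finset.univ.erase τ, (ψ (RingOfIntegers.mapRingHom σ u) -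
        ψ (RingOfIntegers.mapRingHom σ v)) =
      (((b : ℤ) - a : ℤ) : F) * ∏ σ : K →+* N, (ψ (RingOfIntegers.mapRingHom σ u) -
        ψ (RingOfIntegers.mapRingHom σ v)) := by
  classical
  have hpp : p.Prime := Fact.out
  set U : (K →+* N) → F := fun τ => ψ (RingOfIntegers.mapRingHom τ u) with hU
  set V : (K →+* N) → F := fun τ => ψ (RingOfIntegers.mapRingHom τ v) with hV
  have e1 : f.map (Int.castRingHom F) =
      ∏ τ : K →+* N, (Polynomial.C (U τ) + X * Polynomial.C (-V τ)) := by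
    have e0 : f.map (Int.castRingHom F) = (f.map (Int.castRingHom (𝓞 N))).map ψ := by
      rw [Polynomial.map_map]
      congr 1
      exact RingHom.ext_int _ _
    rw [e0, hf, nrmP, Polynomial.map_prod]
    refine Finset.prod_congr rfl fun τ _ => ?_
    rw [Polynomial.map_add, Polynomial.map_mul, Polynomial.map_C, Polynomial.map_C,
      Polynomial.map_X, map_neg, map_neg]
  have e2 : ((f.eval 1 : ℤ) : F) = ∏ τ : K →+* N, (U τ - V τ) := by
    have e3 : ((f.eval 1 : ℤ) : F) = (f.map (Int.castRingHom F)).eval 1 := by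
      rw [eval_map, ← map_one (Int.castRingHom F), eval₂_hom]
      rfl
    rw [e3, e1, eval_prod]
    refine Finset.prod_congr rfl fun τ _ => ?_
    simp only [eval_add, eval_mul, eval_C, eval_X, one_mul]
    ring
  have e4 : (((derivative f).eval 1 : ℤ) : F) =
      ∑ τ : K →+* N, (∏ σ ∈ Finset.univ.erase τ, (U σ - V σ)) * (-V τ) := by
    have e3 : (((derivative f).eval 1 : ℤ) : F) =
        (derivative (f.map (Int.castRingHom F))).eval 1 := by
      rw [derivative_map, eval_map, ← map_one (Int.castRingHom F), eval₂_hom]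
      rfl
    rw [e3, e1, derivative_prod_finset, eval_finset_sum]
    refine Finset.sum_congr rfl fun τ _ => ?_
    rw [eval_mul, eval_prod]
    congr 1
    · refine Finset.prod_congr rfl fun σ _ => ?_
      simp only [eval_add, eval_mul, eval_C, eval_X, one_mul]
      ring
    · simp
  have hfF : ((f.eval 1 : ℤ) : F) ≠ 0 := fun h => hpf ((CharP.intCast_eq_zero_iff F p _).1 h)
  have hne : ∀ τ : K →+* N, U τ - V τ ≠ 0 := by
    intro τ
    rw [e2] at hfF
    exact (Finset.prod_ne_zero_iff.1 hfF) τ (Finset.mem_univ τ)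
  refine ⟨hne, ?_⟩
  -- the relation in `F`
  have h1 := congrArg (ZMod.castHom (dvd_refl p) F) h
  simp only [map_mul, map_sub, map_add, map_natCast, map_intCast, map_ofNat] at h1
  rw [e2, e4] at h1
  have e5 : ∀ τ : K →+* N, (U τ + V τ) * ∏ σ ∈ Finset.univ.erase τ, (U σ - V σ) =
      ∏ σ : K →+* N, (U σ - V σ) -
        2 * ((∏ σ ∈ Finset.univ.erase τ, (U σ - V σ)) * (-V τ)) := by
    intro τ
    rw [← Finset.mul_prod_erase Finset.univ (fun σ => U σ - V σ) (Finset.mem_univ τ)]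
    ring
  rw [Finset.sum_congr rfl fun τ _ => e5 τ, Finset.sum_sub_distrib, ← Finset.mul_sum, h1,
    Finset.sum_const, Finset.card_univ, ← Nat.card_eq_fintype_card, hcard, nsmul_eq_mul]
  push_cast
  ring

end

end Pool.Agent.H95F
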