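import Pool.Agent.Y546.WQ.Scl

/-!
# Project H95F: scaling a solution in the first case
-/

set_option autoImplicit false

namespace Pool.Agent.H95F

open Pool.Agent.Y546.WQ NumberField IsDedekindDomain

/-- scaling a solution in the first case -/
theorem prepL {K : Type} [Field K] [NumberField K] {p : ℕ} (hp : p.Prime) (M n : ℕ) (hM : M ≠ 0)
    {x y z : K} (hx : x ≠ 0) (hy : y ≠ 0) (hz : z ≠ 0) (h : x ^ n + y ^ n = z ^ n)
    (hv : ∀ v : HeightOneSpectrum (𝓞 K), ((p : ℕ) : 𝓞 K) ∈ v.asIdeal →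
      v.valuation K x = v.valuation K y ∧ v.valuation K y = v.valuation K z) :
    ∃ X Y Z : 𝓞 K, X ≠ 0 ∧ Y ≠ 0 ∧ Z ≠ 0 ∧ X ^ n + Y ^ n = Z ^ n ∧
      (∀ P : Ideal (𝓞 K), P.IsPrime → ((p : ℕ) : 𝓞 K) ∈ P → X ∉ P ∧ Y ∉ P ∧ Z ∉ P) ∧
      (∀ P : Ideal (𝓞 K), P.IsPrime → ((M : ℕ) : 𝓞 K) ∈ P → ¬ (X ∈ P ∧ Y ∈ P ∧ Z ∈ P)) := by
  have hp0 : p ≠ 0 := hp.ne_zero
  have hMp : M * p ≠ 0 := Nat.mul_ne_zero hM hp0
  obtain ⟨T, hT⟩ := finite_primes (K := K) (M * p) hMp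
  obtain ⟨a, X, Y, Z, hXa, hYa, hZa, hn⟩ := scaleT (y := y) (z := z) hx T
  have hne : ∀ (P : Ideal (𝓞 K)), P.IsPrime → ((M * p : ℕ) : 𝓞 K) ∈ P →
      ∃ h0 : P ≠ ⊥, ∀ hP : P.IsPrime, (⟨P, hP, h0⟩ : HeightOneSpectrum (𝓞 K)) ∈ T := by
    intro P hP hm
    have h0 : P ≠ ⊥ := by
      rintro rfl
      rw [Ideal.mem_bot] at hm
      exact hMp (by exact_mod_cast hm)
    exact ⟨h0, fun hP' => hT _ hm⟩
  -- there is a prime above p
  obtain ⟨M', hM', hMp'⟩ : ∃ M : Ideal (𝓞 K), M.IsPrime ∧ ((p : ℕ) : 𝓞 K) ∈ M := by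
    have h1 : (Ideal.span {(p : ℤ)}).IsMaximal :=
      PrincipalIdealRing.isMaximal_of_irreducible (Nat.prime_iff_prime_int.1 hp).irreducible
    obtain ⟨M, hM, hMl⟩ := Ideal.exists_maximal_ideal_liesOver_of_isIntegral (S := 𝓞 K)
      (Ideal.span {(p : ℤ)})
    refine ⟨M, hM.isPrime, ?_⟩
    have h2 : (p : ℤ) ∈ M.under ℤ := by
      rw [← hMl.over]
      exact Ideal.mem_span_singleton_self _
    rw [Ideal.under_def, Ideal.mem_comap] at h2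
    simpa using h2
  have hmem2p : ∀ P : Ideal (𝓞 K), ((p : ℕ) : 𝓞 K) ∈ P → ((M * p : ℕ) : 𝓞 K) ∈ P := by
    intro P hP
    rw [Nat.cast_mul]
    exact P.mul_mem_left _ hP
  have ha : a ≠ 0 := by
    rintro rfl
    rw [zero_mul] at hXa hYa hZa
    have h1 : X = 0 := RingOfIntegers.coe_injective (by rw [map_zero]; exact hXa)
    have h2 : Y = 0 := RingOfIntegers.coe_injective (by rw [map_zero]; exact hYa)
    have h3 : Z = 0 := RingOfIntegers.coe_injective (by rw [map_zero]; exact hZa)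
    obtain ⟨h0, h4⟩ := hne M' hM' (hmem2p M' hMp')
    apply hn _ (h4 hM')
    rw [h1, h2, h3]
    exact ⟨zero_mem _, zero_mem _, zero_mem _⟩
  have hX0 : X ≠ 0 := by
    rintro rfl
    rw [map_zero] at hXa
    exact mul_ne_zero ha hx hXa.symm
  have hY0 : Y ≠ 0 := by
    rintro rfl
    rw [map_zero] at hYa
    exact mul_ne_zero ha hy hYa.symm
  have hZ0 : Z ≠ 0 := by
    rintro rfl
    rw [map_zero] at hZa
    exact mul_ne_zero ha hz hZa.symm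
  have hXYZ : X ^ n + Y ^ n = Z ^ n := by
    apply RingOfIntegers.coe_injective
    rw [map_add, map_pow, map_pow, map_pow]
    rw [hXa, hYa, hZa, mul_pow, mul_pow, mul_pow]
    linear_combination a ^ n * h
  refine ⟨X, Y, Z, hX0, hY0, hZ0, hXYZ, ?_, ?_⟩
  · intro P hP hpP
    obtain ⟨h0, h4⟩ := hne P hP (hmem2p P hpP)
    have h5 := hn _ (h4 hP)
    obtain ⟨h1, h2⟩ := hv ⟨P, hP, h0⟩ hpP
    have e : ∀ (w : K) (W : 𝓞 K), algebraMap (𝓞 K) K W = a * w →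
        (W ∈ P ↔ (⟨P, hP, h0⟩ : HeightOneSpectrum (𝓞 K)).valuation K a *
          (⟨P, hP, h0⟩ : HeightOneSpectrum (𝓞 K)).valuation K w < 1) := by
      intro w W hW
      rw [← map_mul, ← hW]
      exact ((⟨P, hP, h0⟩ : HeightOneSpectrum (𝓞 K)).valuation_lt_one_iff_mem (K := K) W).symm
    have e1 : X ∈ P ↔ Y ∈ P := by rw [e x X hXa, e y Y hYa, h1]
    have e2 : Y ∈ P ↔ Z ∈ P := by rw [e y Y hYa, e z Z hZa, h2]
    change ¬ (X ∈ P ∧ Y ∈ P ∧ Z ∈ P) at h5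
    tauto
  · intro P hP h2P
    have h3 : ((M * p : ℕ) : 𝓞 K) ∈ P := by
      rw [Nat.cast_mul]
      exact P.mul_mem_right _ h2P
    obtain ⟨h0, h4⟩ := hne P hP h3
    exact hn _ (h4 hP)

end Pool.Agent.H95F
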