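import Mathlib

/-!
# Project H95F: a small base `l` with `l ^ (p - 1)` different from one modulo `p ^ 2`

After H. W. Lenstra: the products of `u` primes up to `B`, `B ^ u ≤ p ^ 2`, are more than `p` many.
-/

set_option autoImplicit false

namespace Pool.Agent.H95F

open Finset Filter

theorem wf_iff {p x : ℕ} (hx : x ≠ 0) :
    p ^ 2 ∣ x ^ (p - 1) - 1 ↔ (x : ZMod (p ^ 2)) ^ (p - 1) = 1 := by
  rw [← ZMod.natCast_eq_zero_iff, Nat.cast_sub (Nat.one_le_pow _ _ (Nat.pos_of_ne_zero hx))]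
  push_cast
  exact sub_eq_zero

theorem wf_inj {p x y : ℕ} (hp : p.Prime) (hx : (x : ZMod (p ^ 2)) ^ (p - 1) = 1)
    (hy : (y : ZMod (p ^ 2)) ^ (p - 1) = 1) (h : x ≡ y [MOD p]) : x ≡ y [MOD p ^ 2] := by
  have h1 : (p : ℤ) ∣ (x : ℤ) - y := by
    exact (Nat.modEq_iff_dvd.1 h.symm)
  have h2 := dvd_sub_pow_of_dvd_sub h1 1
  rw [pow_one] at h2
  have h3 : ((x : ℤ) : ZMod (p ^ 2)) ^ p = ((y : ℤ) : ZMod (p ^ 2)) ^ p := by
    have h4 := (ZMod.intCast_zmod_eq_zero_iff_dvd ((x : ℤ) ^ p - (y : ℤ) ^ p) (p ^ 2)).2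
      (by exact_mod_cast h2)
    push_cast at h4
    push_cast
    exact sub_eq_zero.1 h4
  have e : ∀ z : ZMod (p ^ 2), z ^ (p - 1) = 1 → z ^ p = z := by
    intro z hz
    have h1 : z ^ (p - 1 + 1) = z := by rw [pow_succ z, hz, one_mul]
    have h2 : p - 1 + 1 = p := Nat.sub_add_cancel hp.one_le
    exact (congrArg (fun n : ℕ => z ^ n) h2).symm.trans h1
  push_cast at h3
  rw [e _ hx, e _ hy] at h3
  exact (ZMod.natCast_eq_natCast_iff _ _ _).1 h3

theorem wf_ndvd {p x : ℕ} (hp : p.Prime) (hx : (x : ZMod (p ^ 2)) ^ (p - 1) = 1) : ¬ p ∣ x := by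
  intro hd
  by_cases h2 : p - 1 = 0
  · have := hp.two_le
    omega
  have h1 : ((x ^ (p - 1) : ℕ) : ZMod p) = 0 :=
    (ZMod.natCast_eq_zero_iff _ _).2 (dvd_pow hd h2)
  have h3 : ((x ^ (p - 1) : ℕ) : ZMod (p ^ 2)) = ((1 : ℕ) : ZMod (p ^ 2)) := by
    push_cast
    exact hx
  have h4 := (ZMod.natCast_eq_natCast_iff _ _ _).1 h3
  have h5 : x ^ (p - 1) ≡ 1 [MOD p] := h4.of_dvd (dvd_pow_self p two_ne_zero)
  have h6 := (ZMod.natCast_eq_natCast_iff _ _ _).2 h5
  rw [h1] at h6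
  have : Fact p.Prime := ⟨hp⟩
  simp at h6

/-- at most `p - 1` roots -/
theorem wf_card {p : ℕ} (hp : p.Prime) (S : Finset ℕ)
    (hS : ∀ x ∈ S, x ≤ p ^ 2 ∧ (x : ZMod (p ^ 2)) ^ (p - 1) = 1) : S.card ≤ p - 1 := by
  have h1 : S.card ≤ ((range p).erase 0).card := by
    refine Finset.card_le_card_of_injOn (fun x => x % p) ?_ ?_
    · intro x hx
      have hx := hS x hx
      simp only [Finset.coe_erase, Set.mem_sdiff, Finset.coe_range, Set.mem_Iio,
        Set.mem_singleton_iff]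
      exact ⟨Nat.mod_lt _ hp.pos, fun h => wf_ndvd hp hx.2 (Nat.dvd_of_mod_eq_zero h)⟩
    · intro x hx y hy hxy
      have hx := hS x hx
      have hy := hS y hy
      have h2 := wf_inj hp hx.2 hy.2 hxy
      have lt : ∀ z : ℕ, z ≤ p ^ 2 → (z : ZMod (p ^ 2)) ^ (p - 1) = 1 → z < p ^ 2 := by
        intro z hz hz'
        refine lt_of_le_of_ne hz fun h => wf_ndvd hp hz' ?_
        rw [h]
        exact dvd_pow_self p two_ne_zero
      exact Nat.ModEq.eq_of_lt_of_lt h2 (lt x hx.1 hx.2) (lt y hy.1 hy.2)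
  rwa [Finset.card_erase_of_mem (Finset.mem_range.2 hp.pos), Finset.card_range] at h1

theorem prod_le_pow {B : ℕ} (s : Multiset ℕ) (h : ∀ x ∈ s, x ≤ B) :
    s.prod ≤ B ^ Multiset.card s := by
  induction s using Multiset.induction_on with
  | empty => simp
  | cons a s ih =>
    rw [Multiset.prod_cons, Multiset.card_cons, pow_succ, mul_comm]
    exact Nat.mul_le_mul (ih fun x hx => h x (Multiset.mem_cons_of_mem hx))
      (h a (Multiset.mem_cons_self a s))

/-- products of `u` primes -/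
theorem wf_smooth {p B u : ℕ} (hp : p.Prime) (P : Finset ℕ)
    (hP : ∀ l ∈ P, l.Prime ∧ l ≤ B ∧ (l : ZMod (p ^ 2)) ^ (p - 1) = 1) (hB : B ^ u ≤ p ^ 2) :
    (P.card + u - 1).choose u ≤ p - 1 := by
  classical
  let f : Sym P u → ℕ := fun s => (s.1.map Subtype.val).prod
  have hmem : ∀ s : Sym P u, ∀ x ∈ s.1.map Subtype.val, x ∈ P := by
    intro s x hx
    obtain ⟨y, -, rfl⟩ := Multiset.mem_map.1 hx
    exact y.2
  have hinj : Function.Injective f := by
    intro s t hst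
    have h1 : ∀ s : Sym P u, UniqueFactorizationMonoid.normalizedFactors
        (s.1.map Subtype.val).prod = s.1.map Subtype.val := by
      intro s
      exact UniqueFactorizationMonoid.normalizedFactors_prod_of_prime fun x hx =>
        Nat.prime_iff.1 (hP x (hmem s x hx)).1
    have h2 : s.1.map Subtype.val = t.1.map Subtype.val := by
      rw [← h1 s, ← h1 t]
      exact congrArg _ hst
    exact Subtype.ext (Multiset.map_injective Subtype.val_injective h2)
  have hcard : (Finset.univ.image f).card = (P.card + u - 1).choose u := by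
    rw [Finset.card_image_of_injective _ hinj, Finset.card_univ, Sym.card_sym_eq_choose,
      Fintype.card_coe]
  rw [← hcard]
  apply wf_card hp
  intro x hx
  obtain ⟨s, -, rfl⟩ := Finset.mem_image.1 hx
  constructor
  · have h1 := prod_le_pow (s.1.map Subtype.val) fun x hx => (hP x (hmem s x hx)).2.1
    rw [Multiset.card_map, s.2] at h1
    exact h1.trans hB
  · have h1 : ∀ m : Multiset ℕ, (∀ x ∈ m, (x : ZMod (p ^ 2)) ^ (p - 1) = 1) →
        ((m.prod : ℕ) : ZMod (p ^ 2)) ^ (p - 1) = 1 := by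
      intro m
      induction m using Multiset.induction_on with
      | empty => simp
      | cons a m ih =>
        intro hm
        rw [Multiset.prod_cons, Nat.cast_mul, mul_pow, hm a (Multiset.mem_cons_self a m),
          ih fun x hx => hm x (Multiset.mem_cons_of_mem hx), one_mul]
    exact h1 _ fun x hx => (hP x (hmem s x hx)).2.2

theorem wf_pow {p B u : ℕ} (hp : p.Prime) (P : Finset ℕ) (hu : u ≠ 0)
    (hP : ∀ l ∈ P, l.Prime ∧ l ≤ B ∧ (l : ZMod (p ^ 2)) ^ (p - 1) = 1) (hB : B ^ u ≤ p ^ 2) :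
    P.card ^ u < u ^ u * p := by
  have h1 := wf_smooth hp P hP hB
  have h2 := Nat.pow_sub_le_descFactorial (P.card + u - 1) u
  rw [show P.card + u - 1 + 1 - u = P.card by omega, Nat.descFactorial_eq_factorial_mul_choose]
    at h2
  calc P.card ^ u ≤ u.factorial * (P.card + u - 1).choose u := h2
    _ ≤ u ^ u * (p - 1) := Nat.mul_le_mul (Nat.factorial_le_pow u) h1
    _ < u ^ u * p := by
      apply Nat.mul_lt_mul_of_pos_left
      · have := hp.two_le
        omega
      · exact pow_pos (Nat.pos_of_ne_zero hu) _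

/-- a trivial bound -/
theorem wf_exists {p : ℕ} (hp : p.Prime) (hp2 : p ≠ 2) :
    ∃ l : ℕ, l.Prime ∧ l ≠ p ∧ Odd l ∧ l ≤ 2 * p + 1 ∧ ¬ p ^ 2 ∣ l ^ (p - 1) - 1 := by
  by_contra hcon
  push Not at hcon
  have hp1 := hp.two_le
  -- every divisor of `2 p + 1` is a root
  have key : ∀ m : ℕ, m ∣ 2 * p + 1 → (m : ZMod (p ^ 2)) ^ (p - 1) = 1 := by
    intro m
    induction m using Nat.recOnMul with
    | zero =>
      intro h
      rw [zero_dvd_iff] at h
      omega
    | one => simp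
    | prime l hl =>
      intro h
      apply (wf_iff hl.ne_zero).1
      apply hcon l hl
      · rintro rfl
        have h1 : l ∣ 1 := (Nat.dvd_add_right (Dvd.intro_left 2 rfl)).1 h
        exact hl.one_lt.ne' (Nat.dvd_one.1 h1)
      · apply hl.odd_of_ne_two
        rintro rfl
        omega
      · exact Nat.le_of_dvd (by omega) h
    | mul a b iha ihb =>
      intro h
      rw [Nat.cast_mul, mul_pow, iha ((Dvd.intro _ rfl).trans h),
        ihb ((Dvd.intro_left _ rfl).trans h), one_mul]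
  have h1 := key _ dvd_rfl
  have h2 : ∀ n : ℕ, ((2 * p + 1 : ℕ) : ZMod (p ^ 2)) ^ n = 1 + 2 * n * p := by
    have hpp : (p : ZMod (p ^ 2)) * p = 0 := by
      have := ZMod.natCast_self (p ^ 2)
      push_cast at this
      rw [← this]
      ring
    intro n
    induction n with
    | zero => simp
    | succ n ih =>
      rw [pow_succ ((2 * p + 1 : ℕ) : ZMod (p ^ 2)), ih]
      push_cast
      linear_combination (4 * (n : ZMod (p ^ 2))) * hpp
  rw [h2] at h1
  have h3 : ((2 * (p - 1) * p : ℕ) : ZMod (p ^ 2)) = 0 := by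
    push_cast
    linear_combination h1
  rw [ZMod.natCast_eq_zero_iff, sq] at h3
  have h4 := Nat.dvd_of_mul_dvd_mul_right hp.pos h3
  rcases (Nat.Prime.dvd_mul hp).1 h4 with h | h
  · exact hp2 ((Nat.prime_dvd_prime_iff_eq hp Nat.prime_two).1 h)
  · have := Nat.le_of_dvd (by omega) h
    omega

theorem growth : ∃ L0 : ℝ, 257 ≤ L0 ∧ ∀ L : ℝ, L0 ≤ L →
    9 * Real.log L ^ 2 + 6 * Real.log L ≤ 4 * L ∧ 257 * L ^ 2 < Real.exp L := by
  have h1 := (Real.isLittleO_pow_log_id_atTop (n := 2)).bound (show (0 : ℝ) < 1 / 9 by norm_num)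
  have h2 := (Real.isLittleO_log_id_atTop).bound (show (0 : ℝ) < 1 / 6 by norm_num)
  have h3 := (Real.isLittleO_pow_exp_atTop (n := 2)).bound (show (0 : ℝ) < 1 / 258 by norm_num)
  have h4 := (h1.and (h2.and (h3.and (eventually_ge_atTop (257 : ℝ)))))
  obtain ⟨L0, hL0⟩ := eventually_atTop.1 h4
  refine ⟨max L0 257, le_max_right _ _, fun L hL => ?_⟩
  obtain ⟨a1, a2, a3, a4⟩ := hL0 L ((le_max_left _ _).trans hL)
  simp only [id, Real.norm_eq_abs] at a1 a2 a3
  have hL0' : (0 : ℝ) < L := by linarith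
  have hlog : 0 ≤ Real.log L := Real.log_nonneg (by linarith)
  rw [abs_of_nonneg (pow_nonneg hlog 2), abs_of_pos hL0'] at a1
  rw [abs_of_nonneg hlog, abs_of_pos hL0'] at a2
  rw [abs_of_nonneg (pow_nonneg hL0'.le 2), abs_of_pos (Real.exp_pos L)] at a3
  have := pow_pos hL0' 2
  constructor <;> linarith

/-- large `p` -/
theorem wf_large : ∃ L0 : ℝ, 0 < L0 ∧ ∀ p : ℕ, p.Prime → L0 ≤ Real.log p →
    ∃ l : ℕ, l.Prime ∧ l ≠ p ∧ Odd l ∧ (l : ℝ) ≤ 257 * Real.log p ^ 2 ∧
      ¬ p ^ 2 ∣ l ^ (p - 1) - 1 := by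
  obtain ⟨L0, hL0, hgr⟩ := growth
  refine ⟨L0, by linarith, fun p hp hpL => ?_⟩
  obtain ⟨L, hL⟩ : ∃ L : ℝ, L = Real.log p := ⟨_, rfl⟩
  rw [← hL] at hpL ⊢
  obtain ⟨g1, g2⟩ := hgr L hpL
  have hL257 : 257 ≤ L := hL0.trans hpL
  have hp0 : (0 : ℝ) < p := by exact_mod_cast hp.pos
  have hpe : Real.exp L = p := by rw [hL, Real.exp_log hp0]
  rw [hpe] at g2
  by_contra hcon
  push Not at hcon
  obtain ⟨B, hB⟩ : ∃ B : ℕ, B = ⌈256 * L ^ 2⌉₊ := ⟨_, rfl⟩
  have hB1 : 256 * L ^ 2 ≤ B := by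
    rw [hB]
    exact Nat.le_ceil _
  have hB2 : (B : ℝ) ≤ 257 * L ^ 2 := by
    have h1 : (B : ℝ) < 256 * L ^ 2 + 1 := by
      rw [hB]
      exact Nat.ceil_lt_add_one (by positivity)
    nlinarith
  have hBp : B < p := by exact_mod_cast hB2.trans_lt g2
  have hB100 : (100 : ℝ) ≤ B := by nlinarith
  have hB0 : (0 : ℝ) < B := by linarith
  -- logarithms
  have hlogB : 0 < Real.log B := Real.log_pos (by linarith)
  have hlogB2 : Real.log B ≤ 3 * Real.log L := by
    have h1 : (B : ℝ) ≤ L ^ 3 := by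
      calc (B : ℝ) ≤ 257 * L ^ 2 := hB2
        _ ≤ L * L ^ 2 := by
          apply mul_le_mul_of_nonneg_right hL257 (by positivity)
        _ = L ^ 3 := by ring
    have h2 := Real.log_le_log hB0 h1
    rw [Real.log_pow] at h2
    exact_mod_cast h2
  have hquad : Real.log B ^ 2 + 2 * Real.log B ≤ 4 * L := by
    nlinarith [Real.log_nonneg (show (1 : ℝ) ≤ L by linarith)]
  -- the number of factors
  obtain ⟨u, hu⟩ : ∃ u : ℕ, u = ⌊2 * L / Real.log B⌋₊ := ⟨_, rfl⟩
  have hu1 : (u : ℝ) ≤ 2 * L / Real.log B := by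
    rw [hu]
    exact Nat.floor_le (by positivity)
  have hu2 : 2 * L / Real.log B < u + 1 := by
    rw [hu]
    exact Nat.lt_floor_add_one _
  rw [le_div_iff₀ hlogB] at hu1
  rw [div_lt_iff₀ hlogB] at hu2
  have hu0 : u ≠ 0 := by
    rintro rfl
    norm_num at hu2
    nlinarith
  have hu0' : (0 : ℝ) < u := by exact_mod_cast Nat.pos_of_ne_zero hu0
  have hlogpp : Real.log ((p : ℝ) ^ 2) = 2 * L := by
    rw [Real.log_pow, ← hL]
    norm_num
  have hBu : B ^ u ≤ p ^ 2 := by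
    have h1 : ((B : ℝ) ^ u) ≤ (p : ℝ) ^ 2 := by
      rw [← Real.log_le_log_iff (by positivity) (by positivity), hlogpp, Real.log_pow]
      exact hu1
    exact_mod_cast h1
  have hBu1 : (p : ℝ) ^ 2 < (B : ℝ) ^ (u + 1) := by
    rw [← Real.log_lt_log_iff (by positivity) (by positivity), hlogpp, Real.log_pow]
    push_cast
    exact hu2
  -- the primes
  obtain ⟨P, hP⟩ : ∃ P : Finset ℕ, P = (Nat.primesLE B).erase 2 := ⟨_, rfl⟩
  have hPm : ∀ l ∈ P, l.Prime ∧ l ≤ B ∧ (l : ZMod (p ^ 2)) ^ (p - 1) = 1 := by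
    intro l hl
    rw [hP, Finset.mem_erase, Nat.mem_primesLE] at hl
    obtain ⟨h1, h2, h3⟩ := hl
    refine ⟨h3, h2, ?_⟩
    apply (wf_iff h3.ne_zero).1
    apply hcon l h3
    · rintro rfl
      omega
    · exact h3.odd_of_ne_two h1
    · exact (show (l : ℝ) ≤ B by exact_mod_cast h2).trans hB2
  have hcard : Real.log B * P.card ≥ B / 2 := by
    have h1 : (P.card : ℝ) + 1 ≥ (Nat.primeCounting B : ℝ) := by
      rw [← Nat.primesLE_card_eq_primeCounting, hP]
      have h0 := Finset.pred_card_le_card_erase (s := Nat.primesLE B) (a := 2)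
      exact_mod_cast (show (Nat.primesLE B).card ≤ ((Nat.primesLE B).erase 2).card + 1 by omega)
    have h2 := Chebyshev.pi_ge B
    rw [div_le_iff₀ hlogB] at h2
    have h3 : Real.log ((B : ℝ) + 1) ≤ Real.log B + 1 / 10 := by
      have : ((B : ℝ) + 1) = B * (1 + 1 / B) := by
        field_simp
      rw [this, Real.log_mul hB0.ne' (by positivity)]
      have h4 := Real.log_le_sub_one_of_pos (show (0 : ℝ) < 1 + 1 / B by positivity)
      have h5 : (1 : ℝ) / B ≤ 1 / 10 := by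
        apply one_div_le_one_div_of_le <;> linarith
      linarith
    have h4 := Real.log_two_gt_d9
    have h5 : 2 * Real.log B + 1 / 10 ≤ (0.6931471803 - 1 / 2) * B := by
      have h6 : Real.log B ≤ Real.log 100 + (B / 100 - 1) := by
        have h7 : (B : ℝ) = 100 * (B / 100) := by ring
        have h8 := Real.log_le_sub_one_of_pos (show (0 : ℝ) < B / 100 by positivity)
        have h9 : Real.log B = Real.log 100 + Real.log (B / 100) := by
          rw [← Real.log_mul (by norm_num) (by positivity), ← h7]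
        linarith
      have h7 : Real.log 100 ≤ 7 * Real.log 2 := by
        rw [show (7 : ℝ) * Real.log 2 = Real.log (2 ^ 7) by rw [Real.log_pow]; norm_num]
        apply Real.log_le_log <;> norm_num
      have h8 := Real.log_two_lt_d9
      nlinarith
    nlinarith
  have hpow := wf_pow hp P hu0 hPm hBu
  have hpow' : (P.card : ℝ) ^ u < (u : ℝ) ^ u * p := by exact_mod_cast hpow
  -- `4 √B u ≤ card`
  have hs : 0 ≤ √(B : ℝ) := Real.sqrt_nonneg _
  have hss : √(B : ℝ) * √(B : ℝ) = B := Real.mul_self_sqrt hB0.le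
  have hs16 : 16 * L ≤ √(B : ℝ) := by
    apply Real.le_sqrt_of_sq_le
    nlinarith
  have hcu : 4 * √(B : ℝ) * u ≤ P.card := by
    have h1 : Real.log B * (4 * √(B : ℝ) * u) ≤ Real.log B * P.card := by
      calc Real.log B * (4 * √(B : ℝ) * u) = 4 * √(B : ℝ) * (u * Real.log B) := by ring
        _ ≤ 4 * √(B : ℝ) * (2 * L) := by
          apply mul_le_mul_of_nonneg_left hu1 (by positivity)
        _ = √(B : ℝ) * (16 * L) / 2 := by ring
        _ ≤ √(B : ℝ) * √(B : ℝ) / 2 := by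
          have := mul_le_mul_of_nonneg_left hs16 hs
          linarith
        _ = B / 2 := by rw [hss]
        _ ≤ Real.log B * P.card := hcard
    exact le_of_mul_le_mul_left h1 hlogB
  have h4 : (4 * √(B : ℝ)) ^ u < p := by
    have h1 : (4 * √(B : ℝ) * u) ^ u ≤ (P.card : ℝ) ^ u :=
      pow_le_pow_left₀ (by positivity) hcu u
    rw [mul_pow] at h1
    have h2 : (4 * √(B : ℝ)) ^ u * (u : ℝ) ^ u < p * (u : ℝ) ^ u := by
      calc _ ≤ (P.card : ℝ) ^ u := h1
        _ < (u : ℝ) ^ u * p := hpow'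
        _ = _ := mul_comm _ _
    exact lt_of_mul_lt_mul_right h2 (by positivity)
  have h5 : (16 * (B : ℝ)) ^ u < (p : ℝ) ^ 2 := by
    have h6 : (16 * (B : ℝ)) ^ u = ((4 * √(B : ℝ)) ^ u) ^ 2 := by
      rw [← pow_mul, mul_comm u 2, pow_mul]
      congr 1
      rw [mul_pow, sq (√(B : ℝ)), hss]
      norm_num
    rw [h6]
    exact pow_lt_pow_left₀ h4 (by positivity) two_ne_zero
  have h6 : (B : ℝ) ≤ 16 ^ u := by
    rw [← Real.log_le_log_iff hB0 (by positivity), Real.log_pow]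
    have h7 : (2 : ℝ) ≤ Real.log 16 := by
      rw [show (16 : ℝ) = 2 ^ 4 by norm_num, Real.log_pow]
      have := Real.log_two_gt_d9
      push_cast
      linarith
    have h8 : Real.log B ≤ u * 2 := by
      have h9 : Real.log B * Real.log B ≤ (u * 2) * Real.log B := by nlinarith
      exact le_of_mul_le_mul_right h9 hlogB
    nlinarith
  have h7 : (B : ℝ) ^ (u + 1) ≤ (16 * (B : ℝ)) ^ u := by
    rw [pow_succ, mul_pow, mul_comm]
    exact mul_le_mul_of_nonneg_right h6 (by positivity)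
  linarith

/-- the bound of Lenstra -/
theorem wf_lenstra : ∃ C : ℝ, 1 ≤ C ∧ ∀ p : ℕ, p.Prime → p ≠ 2 →
    ∃ l : ℕ, l.Prime ∧ l ≠ p ∧ Odd l ∧ (l : ℝ) ≤ C * Real.log p ^ 2 ∧
      ¬ p ^ 2 ∣ l ^ (p - 1) - 1 := by
  obtain ⟨L0, hL0, h⟩ := wf_large
  refine ⟨max 257 (2 * Real.exp L0 + 1), le_max_of_le_left (by norm_num), fun p hp hp2 => ?_⟩
  rcases le_or_gt L0 (Real.log p) with h1 | h1
  · obtain ⟨l, a, b, c, d, e⟩ := h p hp h1
    exact ⟨l, a, b, c, d.trans (mul_le_mul_of_nonneg_right (le_max_left _ _) (by positivity)), e⟩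
  · obtain ⟨l, a, b, c, d, e⟩ := wf_exists hp hp2
    refine ⟨l, a, b, c, ?_, e⟩
    have hp0 : (0 : ℝ) < p := by exact_mod_cast hp.pos
    have hp3 : (3 : ℝ) ≤ p := by
      have := hp.two_le
      exact_mod_cast (show 3 ≤ p by omega)
    have h2 : (p : ℝ) ≤ Real.exp L0 := by
      rw [← Real.exp_log hp0]
      exact Real.exp_le_exp.2 h1.le
    have h3 : (1 : ℝ) ≤ Real.log p := by
      rw [Real.le_log_iff_exp_le hp0]
      have := Real.exp_one_lt_d9
      linarith
    calc (l : ℝ) ≤ 2 * p + 1 := by exact_mod_cast d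
      _ ≤ 2 * Real.exp L0 + 1 := by linarith
      _ ≤ max 257 (2 * Real.exp L0 + 1) := le_max_right _ _
      _ ≤ max 257 (2 * Real.exp L0 + 1) * Real.log p ^ 2 := by
        apply le_mul_of_one_le_right
        · exact le_max_of_le_left (by norm_num)
        · exact one_le_pow₀ h3

end Pool.Agent.H95F
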