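import Pool.Agent.H95F.Rel
import Pool.Agent.H95F.Scl
import Pool.Agent.H95F.ChrS

/-!
# Project H95F: all number fields of a given degree
-/

set_option autoImplicit false

namespace Pool.Agent.H95F

open Pool.Agent.Y546.WQ NumberField IsDedekindDomain Polynomial

/-- a prime ideal containing a positive integer contains a prime divisor of it -/
theorem exists_prime_mem {R : Type*} [CommRing R] (P : Ideal R) (hP : P.IsPrime) :
    ∀ d : ℕ, d ≠ 0 → ((d : ℕ) : R) ∈ P → ∃ r : ℕ, r.Prime ∧ r ∣ d ∧ ((r : ℕ) : R) ∈ P := by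
  intro d
  induction d using Nat.strong_induction_on with
  | _ d ih =>
    intro hd hdP
    by_cases h1 : d = 1
    · exfalso
      rw [h1, Nat.cast_one] at hdP
      exact hP.ne_top ((Ideal.eq_top_iff_one _).2 hdP)
    · have hr : (d.minFac).Prime := Nat.minFac_prime h1
      obtain ⟨q, hq⟩ := Nat.minFac_dvd d
      have hq0 : q ≠ 0 := by
        rintro rfl
        rw [mul_zero] at hq
        exact hd hq
      have hqd : q < d := by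
        calc q = 1 * q := (one_mul q).symm
          _ < d.minFac * q := Nat.mul_lt_mul_of_pos_right hr.one_lt (Nat.pos_of_ne_zero hq0)
          _ = d := hq.symm
      have h2 : ((d.minFac : ℕ) : R) * ((q : ℕ) : R) ∈ P := by
        rw [← Nat.cast_mul, ← hq]
        exact hdP
      rcases hP.mem_or_mem h2 with h3 | h3
      · exact ⟨_, hr, Nat.minFac_dvd d, h3⟩
      · obtain ⟨r, hr, hrq, hrP⟩ := ih q hqd hq0 h3
        exact ⟨r, hr, hrq.trans (Dvd.intro_left _ hq.symm), hrP⟩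

section

variable {K : Type} [Field K] [NumberField K]

/-- the norm of a prime ideal above `r` -/
theorem card_le_pow (P : Ideal (𝓞 K)) (hP : P.IsPrime) (r : ℕ) (hr : r ≠ 0)
    (hrP : ((r : ℕ) : 𝓞 K) ∈ P) :
    1 < Nat.card (𝓞 K ⧸ P) ∧ Nat.card (𝓞 K ⧸ P) ≤ r ^ Module.finrank ℚ K := by
  have hP0 := ne_bot_of_mem hr hrP
  have hfin : Finite (𝓞 K ⧸ P) := Ideal.finiteQuotientOfFreeOfNeBot P hP0
  have : Nontrivial (𝓞 K ⧸ P) := Ideal.Quotient.nontrivial_iff.2 hP.ne_top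
  refine ⟨Finite.one_lt_card, ?_⟩
  have h1 : Ideal.absNorm P ∣ Ideal.absNorm (Ideal.span {((r : ℕ) : 𝓞 K)}) :=
    Ideal.absNorm_dvd_absNorm_of_le ((Ideal.span_singleton_le_iff_mem _).2 hrP)
  rw [Ideal.absNorm_span_natCast, RingOfIntegers.rank] at h1
  have h2 : Ideal.absNorm P = Nat.card (𝓞 K ⧸ P) := by
    rw [Ideal.absNorm_apply, Submodule.cardQuot_apply]
  rw [← h2]
  exact Nat.le_of_dvd (pow_pos (Nat.pos_of_ne_zero hr) _) h1

/-- the counts of `Y` and `Z` are equal -/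
theorem count_eq {p : ℕ} [Fact p.Prime] {E : Type} [Field E] [NumberField E]
    {N : Type} [Field N] [NumberField N] (hp2 : p ≠ 2) (c : Cyc p E) (i : E →+* N)
    (hD : Dn p E N i) (hcard : Nat.card (K →+* N) = Module.finrank ℚ K) (l : ℕ) (hl : l.Prime)
    (hlp : l ≠ p) (hW : ¬ p ^ 2 ∣ l ^ (p - 1) - 1) (m : ℕ) (hm : Module.finrank ℚ K = m) (hmp : m < p)
    (D k : ℕ) (hk : k ≠ 0) (hD0 : D ≠ 0) (hDp : Nat.Coprime D p)
    (hDe : (2 ≤ m ∧ m * 2 ^ (m + 1) < p ∧ ∀ e, 0 < e → e < 2 ^ m → e ∣ D) ∨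
      (5 ≤ p ∧ ((m ≤ 3 ∧ D = 6) ∨ (m ≤ 4 ∧ D = 12))))
    (hDN : ∀ P : Ideal (𝓞 K), P.IsPrime → ((D : ℕ) : 𝓞 K) ∈ P →
      ¬ p ∣ Nat.card (𝓞 K ⧸ P) - 1)
    (hkl : ∀ P : Ideal (𝓞 K), P.IsPrime → ((l : ℕ) : 𝓞 K) ∈ P → Nat.card (𝓞 K ⧸ P) - 1 ∣ k)
    {X Y Z : 𝓞 K} (hX : X ≠ 0) (hY : Y ≠ 0) (hZ : Z ≠ 0)
    (h : X ^ (k * D * p) + Y ^ (k * D * p) = Z ^ (k * D * p))
    (hcp : ∀ P : Ideal (𝓞 K), P.IsPrime → ((p : ℕ) : 𝓞 K) ∈ P → X ∉ P ∧ Y ∉ P ∧ Z ∉ P)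
    (hcD : ∀ P : Ideal (𝓞 K), P.IsPrime → ((D : ℕ) : 𝓞 K) ∈ P → ¬ (X ∈ P ∧ Y ∈ P ∧ Z ∈ P))
    (hone : ∀ P : Ideal (𝓞 K), P.IsPrime → ((l : ℕ) : 𝓞 K) ∈ P → OneIn P X Y Z)
    (Q : Ideal (𝓞 N)) (hQ : Q.IsPrime) (hlQ : ((l : ℕ) : 𝓞 N) ∈ Q) :
    cnt Q Y = cnt Q Z := by
  classical
  have hpp : p.Prime := Fact.out
  -- the residue field at a prime above `p`
  obtain ⟨R, hR, hpR⟩ := exists_above (K := N) p hpp
  have hR0 : R ≠ ⊥ := ne_bot_of_mem hpp.ne_zero hpR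
  have hRm : R.IsMaximal := hR.isMaximal hR0
  let _ : Field (𝓞 N ⧸ R) := Ideal.Quotient.field R
  have hfin : Finite (𝓞 N ⧸ R) := Ideal.finiteQuotientOfFreeOfNeBot R hR0
  have hch : CharP (𝓞 N ⧸ R) p := charP_quot R hR p hpp hpR
  let ψ : 𝓞 N →+* (𝓞 N ⧸ R) := Ideal.Quotient.mk R
  have hψ : ∀ w : 𝓞 N, ψ w = 0 ↔ w ∈ R := fun w => Ideal.Quotient.eq_zero_iff_mem
  have hne : ∀ (τ : K →+* N) (w : 𝓞 K), (∀ P : Ideal (𝓞 K), P.IsPrime →
      ((p : ℕ) : 𝓞 K) ∈ P → w ∉ P) → ψ (RingOfIntegers.mapRingHom τ w) ≠ 0 := by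
    intro τ w hw h0
    refine hw (R.comap (RingOfIntegers.mapRingHom τ)) (hR.comap _) ?_ ((hψ _).1 h0)
    rw [Ideal.mem_comap, map_natCast]
    exact hpR
  have hYne : ∀ τ : K →+* N, ψ (RingOfIntegers.mapRingHom τ Y) ≠ 0 := fun τ =>
    hne τ Y fun P hP hpP => (hcp P hP hpP).2.1
  have hZne : ∀ τ : K →+* N, ψ (RingOfIntegers.mapRingHom τ Z) ≠ 0 := fun τ =>
    hne τ Z fun P hP hpP => (hcp P hP hpP).2.2
  set a : (K →+* N) → (𝓞 N ⧸ R)ˣ := fun τ =>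
    (Units.mk0 _ (hZne τ) / Units.mk0 _ (hYne τ)) ^ k with ha
  -- the relation for each exponent
  have hmain : ∀ e : ℕ, e ∣ D →
      (∀ τ : K →+* N, ψ (RingOfIntegers.mapRingHom τ (Z ^ (k * e))) -
        ψ (RingOfIntegers.mapRingHom τ (Y ^ (k * e))) ≠ 0) ∧
      ∑ τ : K →+* N, (ψ (RingOfIntegers.mapRingHom τ (Z ^ (k * e))) +
        ψ (RingOfIntegers.mapRingHom τ (Y ^ (k * e)))) *
        ∏ σ ∈ Finset.univ.erase τ, (ψ (RingOfIntegers.mapRingHom σ (Z ^ (k * e))) -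
          ψ (RingOfIntegers.mapRingHom σ (Y ^ (k * e)))) =
      (((cnt Q Y : ℤ) - cnt Q Z : ℤ) : 𝓞 N ⧸ R) *
        ∏ σ : K →+* N, (ψ (RingOfIntegers.mapRingHom σ (Z ^ (k * e))) -
          ψ (RingOfIntegers.mapRingHom σ (Y ^ (k * e)))) := by
    intro e he
    obtain ⟨d, hd⟩ := he
    have he0 : 0 < e := by
      apply Nat.pos_of_ne_zero
      rintro rfl
      rw [zero_mul] at hd
      exact hD0 hd
    have hd0 : d ≠ 0 := by
      rintro rfl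
      rw [mul_zero] at hd
      exact hD0 hd
    have hdD : d ∣ D := Dvd.intro_left _ hd.symm
    have hdp : Nat.Coprime d p := Nat.Coprime.coprime_dvd_left hdD hDp
    obtain ⟨d', -, hd'⟩ := Nat.exists_mul_mod_eq_one_of_coprime hdp hpp.one_lt
    have hdd : d * d' = 1 + p * (d * d' / p) := by
      have := Nat.mod_add_div (d * d') p
      rw [hd'] at this
      exact this.symm
    have hke : k * e ≠ 0 := Nat.mul_ne_zero hk he0.ne'
    have hn : k * D * p = k * e * (d * p) := by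
      rw [hd]
      ring
    have heq : (X ^ (k * e)) ^ (d * p) + (Y ^ (k * e)) ^ (d * p) = (Z ^ (k * e)) ^ (d * p) := by
      rw [← pow_mul, ← pow_mul, ← pow_mul, ← hn]
      exact h
    have hpw : ∀ (P : Ideal (𝓞 K)), P.IsPrime → ∀ w : 𝓞 K, w ^ (k * e) ∈ P ↔ w ∈ P :=
      fun P hP w => ⟨fun h => hP.mem_of_pow_mem _ h,
        fun h => Ideal.pow_mem_of_mem P h _ (Nat.pos_of_ne_zero hke)⟩
    obtain ⟨f, hf, hpf, hrel⟩ := relD hp2 c i hD hcard l hl hlp hW d d' (d * d' / p) hd0 hdd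
      (pow_ne_zero (k * e) hX) (pow_ne_zero (k * e) hY) (pow_ne_zero (k * e) hZ) heq
      (fun P hP hpP hmem => (hcp P hP hpP).1 ((hpw P hP X).1 hmem)) (by
        intro τ ζ hζ P hP hdP
        have hdK : ((d : ℕ) : 𝓞 K) ∈ P.comap (RingOfIntegers.mapRingHom τ) := by
          rw [Ideal.mem_comap, map_natCast]
          exact hdP
        have hDK : ((D : ℕ) : 𝓞 K) ∈ P.comap (RingOfIntegers.mapRingHom τ) := by
          rw [hd, Nat.cast_mul]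
          exact Ideal.mul_mem_left _ _ hdK
        have hPc : (P.comap (RingOfIntegers.mapRingHom τ)).IsPrime := hP.comap _
        refine unitD (RingOfIntegers.mapRingHom τ) ζ hζ P hP d hdp hdP
          (ne_bot_of_mem hd0 hdK) (hDN _ hPc hDK) ?_
        rintro ⟨h3, h4⟩
        have h5 := (hpw _ hPc Z).1 h3
        have h6 := (hpw _ hPc Y).1 h4
        refine hcD _ hPc hDK ⟨?_, h6, h5⟩
        apply hPc.mem_of_pow_mem (k * D * p)
        have e1 : X ^ (k * D * p) = Z ^ (k * D * p) - Y ^ (k * D * p) := by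
          rw [← h]
          ring
        have hn0 : 0 < k * D * p :=
          Nat.mul_pos (Nat.mul_pos (Nat.pos_of_ne_zero hk) (Nat.pos_of_ne_zero hD0)) hpp.pos
        rw [e1]
        exact Ideal.sub_mem _ (Ideal.pow_mem_of_mem _ h5 _ hn0)
          (Ideal.pow_mem_of_mem _ h6 _ hn0))
      (fun P hP hlP => (hone P hP hlP).ty hP (ne_bot_of_mem hl.ne_zero hlP) hke
        ((hkl P hP hlP).mul_right e)) Q hQ hlQ
    rw [cnt_pow hQ _ hke, cnt_pow hQ _ hke] at hrel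
    exact relF ψ hcard hf hpf _ _ hrel
  have hUV : ∀ (e : ℕ) (τ : K →+* N), ψ (RingOfIntegers.mapRingHom τ (Z ^ (k * e))) =
      ((a τ : (𝓞 N ⧸ R)ˣ) : 𝓞 N ⧸ R) ^ e * ψ (RingOfIntegers.mapRingHom τ (Y ^ (k * e))) := by
    intro e τ
    have h3 : ((a τ : (𝓞 N ⧸ R)ˣ) : 𝓞 N ⧸ R) = (ψ (RingOfIntegers.mapRingHom τ Z) /
        ψ (RingOfIntegers.mapRingHom τ Y)) ^ k := by
      simp only [ha]
      rw [Units.val_pow_eq_pow_val, Units.val_div_eq_div_val, Units.val_mk0, Units.val_mk0]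
    rw [h3, map_pow, map_pow, map_pow, map_pow, ← pow_mul, div_pow]
    have h4 : ψ (RingOfIntegers.mapRingHom τ Y) ^ (k * e) ≠ 0 := pow_ne_zero _ (hYne τ)
    rw [div_mul_cancel₀ _ h4]
  -- the relation for the units
  have hrel : ∀ e : ℕ, e ∣ D → (∀ τ, ((a τ : (𝓞 N ⧸ R)ˣ) : 𝓞 N ⧸ R) ^ e ≠ 1) ∧
      ∑ τ, (((a τ : (𝓞 N ⧸ R)ˣ) : 𝓞 N ⧸ R) ^ e + 1) *
        ∏ σ ∈ Finset.univ.erase τ, (((a σ : (𝓞 N ⧸ R)ˣ) : 𝓞 N ⧸ R) ^ e - 1) =
      (((cnt Q Y : ℤ) - cnt Q Z : ℤ) : 𝓞 N ⧸ R) *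
        ∏ σ, (((a σ : (𝓞 N ⧸ R)ˣ) : 𝓞 N ⧸ R) ^ e - 1) := by
    intro e he
    obtain ⟨h3', h3⟩ := hmain e he
    refine ⟨fun τ hτ => h3' τ ?_, ?_⟩
    · rw [hUV e τ, hτ, one_mul, sub_self]
    set V : (K →+* N) → 𝓞 N ⧸ R := fun τ => ψ (RingOfIntegers.mapRingHom τ (Y ^ (k * e)))
      with hV
    set A : (K →+* N) → 𝓞 N ⧸ R := fun τ => ((a τ : (𝓞 N ⧸ R)ˣ) : 𝓞 N ⧸ R) ^ e with hA
    have hV0 : ∀ τ, V τ ≠ 0 := by
      intro τ
      simp only [hV]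
      rw [map_pow, map_pow]
      exact pow_ne_zero _ (hYne τ)
    have hVP : ∏ τ, V τ ≠ 0 := Finset.prod_ne_zero_iff.2 fun τ _ => hV0 τ
    simp only [hUV e] at h3
    apply mul_right_cancel₀ hVP
    rw [Finset.sum_mul]
    have e1 : ∀ τ : K →+* N, (A τ + 1) * (∏ σ ∈ Finset.univ.erase τ, (A σ - 1)) * ∏ σ, V σ =
        (A τ * V τ + V τ) * ∏ σ ∈ Finset.univ.erase τ, (A σ * V σ - V σ) := by
      intro τ
      have e2 : ∏ σ ∈ Finset.univ.erase τ, (A σ * V σ - V σ) =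
          (∏ σ ∈ Finset.univ.erase τ, (A σ - 1)) * ∏ σ ∈ Finset.univ.erase τ, V σ := by
        rw [← Finset.prod_mul_distrib]
        refine Finset.prod_congr rfl fun σ _ => ?_
        ring
      rw [e2, ← Finset.mul_prod_erase Finset.univ V (Finset.mem_univ τ)]
      ring
    have e3 : (∏ σ, (A σ - 1)) * ∏ σ, V σ = ∏ σ, (A σ * V σ - V σ) := by
      rw [← Finset.prod_mul_distrib]
      refine Finset.prod_congr rfl fun σ _ => ?_
      ring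
    calc ∑ τ, (A τ + 1) * (∏ σ ∈ Finset.univ.erase τ, (A σ - 1)) * ∏ σ, V σ =
          ∑ τ, (A τ * V τ + V τ) * ∏ σ ∈ Finset.univ.erase τ, (A σ * V σ - V σ) :=
          Finset.sum_congr rfl fun τ _ => e1 τ
      _ = _ := h3
      _ = _ := by rw [mul_assoc, e3]
  have hcm : Fintype.card (K →+* N) = m := by rw [← Nat.card_eq_fintype_card, hcard, hm]
  have hb1 := cnt_le (Q := Q) hcard Y
  have hb2 := cnt_le (Q := Q) hcard Z
  rw [hm] at hb1 hb2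
  rcases hDe with ⟨h2, hpm, hDe⟩ | ⟨hp5, hDe⟩
  · have hc := chr (F := 𝓞 N ⧸ R) p a (by
      intro τ hτ
      apply (hrel 1 (one_dvd D)).1 τ
      rw [hτ]
      simp) ((cnt Q Y : ℤ) - cnt Q Z) m hcm h2
      (by
        rw [abs_le]
        constructor <;> omega) hpm (fun e he0 he => (hrel e (hDe e he0 he)).2)
    omega
  · have hnz : ∀ r : ℕ, 0 < r → r < p → ((r : ℕ) : 𝓞 N ⧸ R) ≠ 0 := by
      intro r hr hrp h0
      have := Nat.le_of_dvd hr ((CharP.cast_eq_zero_iff (𝓞 N ⧸ R) p r).1 h0)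
      omega
    have hc := chrS (F := 𝓞 N ⧸ R) (by exact_mod_cast hnz 2 (by norm_num) (by omega))
      (by exact_mod_cast hnz 3 (by norm_num) (by omega))
      (fun τ => ((a τ : (𝓞 N ⧸ R)ˣ) : 𝓞 N ⧸ R)) (fun τ => (a τ).ne_zero) _ D
      (by rw [hcm]; exact hDe) hrel
    have hdv := (CharP.intCast_eq_zero_iff (𝓞 N ⧸ R) p _).1 hc
    have h0 : (cnt Q Y : ℤ) - cnt Q Z = 0 := by
      apply Int.eq_zero_of_abs_lt_dvd hdv
      rw [abs_lt]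
      constructor <;> omega
    omega

/-- all number fields of degree `m`: general form -/
theorem mainD {p l m : ℕ} (hp : p.Prime) (hp2 : p ≠ 2) (hl : l.Prime) (hlp : l ≠ p)
    (hW : ¬ p ^ 2 ∣ l ^ (p - 1) - 1) (hm : Module.finrank ℚ K = m) (hmp : m < p)
    (h3 : ¬ 3 ∣ m ∨ l ≠ 2) (D₀ L n : ℕ) (hD₀0 : D₀ ≠ 0) (hDp : Nat.Coprime D₀ p)
    (hDe : (2 ≤ m ∧ m * 2 ^ (m + 1) < p ∧ ∀ e, 0 < e → e < 2 ^ m → e ∣ D₀) ∨
      (5 ≤ p ∧ ((m ≤ 3 ∧ D₀ = 6) ∨ (m ≤ 4 ∧ D₀ = 12))))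
    (hDN : ∀ P : Ideal (𝓞 K), P.IsPrime → ((D₀ : ℕ) : 𝓞 K) ∈ P →
      ¬ p ∣ Nat.card (𝓞 K ⧸ P) - 1)
    (hL : ∀ P : Ideal (𝓞 K), P.IsPrime → ((l : ℕ) : 𝓞 K) ∈ P → Nat.card (𝓞 K ⧸ P) - 1 ∣ L)
    (hn : p * (D₀ * L) ∣ n) {x y z : K} (hx : x ≠ 0) (hy : y ≠ 0) (hz : z ≠ 0)
    (h : x ^ n + y ^ n = z ^ n)
    (hv : ∀ v : HeightOneSpectrum (𝓞 K), ((p : ℕ) : 𝓞 K) ∈ v.asIdeal →
      v.valuation K x = v.valuation K y ∧ v.valuation K y = v.valuation K z) : False := by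
  have hfact : Fact p.Prime := ⟨hp⟩
  have hn0 : n ≠ 0 := by
    rintro rfl
    rw [pow_zero, pow_zero, pow_zero] at h
    norm_num at h
  -- the exponent
  obtain ⟨n', hn'⟩ := hn
  set k : ℕ := L * n' with hk
  have hnk : n = k * D₀ * p := by
    rw [hn', hk]
    ring
  have hk0 : k ≠ 0 := by
    intro h0
    rw [hnk, h0, zero_mul, zero_mul] at hn0
    exact hn0 rfl
  have hkl : ∀ P : Ideal (𝓞 K), P.IsPrime → ((l : ℕ) : 𝓞 K) ∈ P →
      Nat.card (𝓞 K ⧸ P) - 1 ∣ k := fun P hP hlP => (hL P hP hlP).mul_right n'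
  have hnl : ∀ P : Ideal (𝓞 K), P.IsPrime → ((l : ℕ) : 𝓞 K) ∈ P →
      Nat.card (𝓞 K ⧸ P) - 1 ∣ n := by
    intro P hP hlP
    rw [hnk]
    exact ((hkl P hP hlP).mul_right D₀).mul_right p
  obtain ⟨X, Y, Z, hX, hY, hZ, hXYZ, hcp, hcM⟩ := prepL hp (D₀ * l) n
    (Nat.mul_ne_zero hD₀0 hl.ne_zero) hx hy hz h hv
  have hcD : ∀ P : Ideal (𝓞 K), P.IsPrime → ((D₀ : ℕ) : 𝓞 K) ∈ P →
      ¬ (X ∈ P ∧ Y ∈ P ∧ Z ∈ P) := by
    intro P hP hDP
    apply hcM P hP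
    rw [Nat.cast_mul]
    exact P.mul_mem_right _ hDP
  have hcl : ∀ P : Ideal (𝓞 K), P.IsPrime → ((l : ℕ) : 𝓞 K) ∈ P →
      ¬ (X ∈ P ∧ Y ∈ P ∧ Z ∈ P) := by
    intro P hP hlP
    apply hcM P hP
    rw [Nat.cast_mul]
    exact P.mul_mem_left _ hlP
  have hone := fun (P : Ideal (𝓞 K)) (hP : P.IsPrime) (hlP : ((l : ℕ) : 𝓞 K) ∈ P) =>
    one_in hP (ne_bot_of_mem hl.ne_zero hlP) hn0 (hnl P hP hlP) hXYZ (hcl P hP hlP)
  obtain ⟨E, _, _, ⟨c⟩⟩ := Y978.WQ.main p hp2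
  obtain ⟨N, _, _, i, hcard, hD⟩ := Y258.WQ.mainDOWNG p E c K (by omega)
  have hD' : Dn p E N i := hD
  obtain ⟨Q, hQ, hlQ⟩ := exists_above (K := N) l hl
  rw [hnk] at hXYZ
  have c1 := count_eq hp2 c i hD' hcard l hl hlp hW m hm hmp D₀ k hk0 hD₀0 hDp hDe hDN hkl
    hX hY hZ hXYZ hcp hcD (fun P hP hlP => (hone P hP hlP).1) Q hQ hlQ
  have c2 := count_eq hp2 c i hD' hcard l hl hlp hW m hm hmp D₀ k hk0 hD₀0 hDp hDe hDN hkl
    hY hX hZ (by rw [← hXYZ]; ring)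
    (fun P hP hpP => ⟨(hcp P hP hpP).2.1, (hcp P hP hpP).1, (hcp P hP hpP).2.2⟩)
    (fun P hP hDP h' => hcD P hP hDP ⟨h'.2.1, h'.1, h'.2.2⟩)
    (fun P hP hlP => by
      have := (hone P hP hlP).1
      unfold OneIn at *
      tauto) Q hQ hlQ
  have hPl : ∀ τ : K →+* N, ((l : ℕ) : 𝓞 K) ∈ Q.comap (RingOfIntegers.mapRingHom τ) := by
    intro τ
    rw [Ideal.mem_comap, map_natCast]
    exact hlQ
  have c3 := cnt_add (Q := Q) hcard (X := X) (Y := Y) (Z := Z)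
    (fun τ => (hone _ (hQ.comap _) (hPl τ)).1)
  rw [hm] at c3
  have hm0 : 0 < m := by
    rw [← hm]
    exact Module.finrank_pos
  rcases h3 with h3 | h3
  · apply h3
    exact ⟨cnt Q Z, by omega⟩
  · have c4 : cnt Q Z = 0 := by
      apply cnt_eq_zero
      intro τ hτ
      have h6 := (hone _ (hQ.comap (RingOfIntegers.mapRingHom τ)) (hPl τ)).2 hτ
      have h7 := int_notMem (Q.comap (RingOfIntegers.mapRingHom τ)) (hQ.comap _) l hl (hPl τ)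
        (2 : ℤ) (by
          intro hd
          have h8 : l ∣ 2 := by exact_mod_cast hd
          exact h3 ((Nat.prime_dvd_prime_iff_eq hl Nat.prime_two).1 h8))
      exact h7 (by exact_mod_cast h6)
    omega

/-- all number fields of degree `m`: the first case for exponents divisible by `p D L` -/
theorem mainC {p l m : ℕ} (hp : p.Prime) (hl : l.Prime) (hlp : l ≠ p)
    (hW : ¬ p ^ 2 ∣ l ^ (p - 1) - 1) (hm : Module.finrank ℚ K = m) (h2 : 2 ≤ m)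
    (hpm : 2 ^ m ^ 2 ≤ p) (h3 : ¬ 3 ∣ m ∨ l ≠ 2) (D L n : ℕ)
    (hDe : ∀ e, 0 < e → e < 2 ^ m → e ∣ D)
    (hL : ∀ P : Ideal (𝓞 K), P.IsPrime → ((l : ℕ) : 𝓞 K) ∈ P → Nat.card (𝓞 K ⧸ P) - 1 ∣ L)
    (hn : p * (D * L) ∣ n) {x y z : K} (hx : x ≠ 0) (hy : y ≠ 0) (hz : z ≠ 0)
    (h : x ^ n + y ^ n = z ^ n)
    (hv : ∀ v : HeightOneSpectrum (𝓞 K), ((p : ℕ) : 𝓞 K) ∈ v.asIdeal →
      v.valuation K x = v.valuation K y ∧ v.valuation K y = v.valuation K z) : False := by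
  -- numbers
  have h4 : m * 2 ^ (m + 1) ≤ 2 ^ m ^ 2 := by
    have e1 : m ≤ 2 ^ (m - 1) := by
      have := Nat.lt_two_pow_self (n := m - 1)
      omega
    calc m * 2 ^ (m + 1) ≤ 2 ^ (m - 1) * 2 ^ (m + 1) := Nat.mul_le_mul_right _ e1
      _ = 2 ^ (2 * m) := by
        rw [← pow_add]
        congr 1
        omega
      _ ≤ 2 ^ m ^ 2 := by
        apply Nat.pow_le_pow_right (by norm_num)
        rw [pow_two]
        exact Nat.mul_le_mul_right m h2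
  have h5 : 2 ^ m ^ 2 < p := by
    refine lt_of_le_of_ne hpm ?_
    intro h6
    have h7 : 2 ≤ m ^ 2 := by nlinarith
    rw [← h6] at hp
    exact (Nat.Prime.eq_one_of_pow hp).not_gt (by omega)
  have hpm' : m * 2 ^ (m + 1) < p := lt_of_le_of_lt h4 h5
  have h16 : 4 * m ≤ m * 2 ^ (m + 1) := by
    have : 2 ^ 2 ≤ 2 ^ (m + 1) := Nat.pow_le_pow_right (by norm_num) (by omega)
    nlinarith
  have hmp : m < p := by omega
  have hp2 : p ≠ 2 := by omega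
  -- the least common multiple of the numbers below `2 ^ m`
  set D₀ : ℕ := (Finset.Ico 1 (2 ^ m)).lcm id with hD₀
  have hD₀e : ∀ e, 0 < e → e < 2 ^ m → e ∣ D₀ := by
    intro e he0 he
    exact Finset.dvd_lcm (f := id) (Finset.mem_Ico.2 ⟨he0, he⟩)
  have hD₀D : D₀ ∣ D := by
    apply Finset.lcm_dvd
    intro e he
    rw [Finset.mem_Ico] at he
    exact hDe e he.1 he.2
  have hD₀0 : D₀ ≠ 0 := by
    rw [hD₀, Ne, Finset.lcm_eq_zero_iff]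
    rintro ⟨e, he, h0⟩
    have h1 : 1 ≤ e := (Finset.mem_Ico.1 he).1
    have h2 : e = 0 := h0
    omega
  have hprime : ∀ r : ℕ, r.Prime → r ∣ D₀ → r < 2 ^ m := by
    intro r hr hrd
    by_contra hcon
    push Not at hcon
    have h6 : D₀ ∣ ∏ e ∈ Finset.Ico 1 (2 ^ m), e := by
      apply Finset.lcm_dvd
      intro e he
      exact Finset.dvd_prod_of_mem _ he
    have h7 := hrd.trans h6
    rw [Prime.dvd_finset_prod_iff hr.prime] at h7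
    obtain ⟨e, he, hre⟩ := h7
    rw [Finset.mem_Ico] at he
    have := Nat.le_of_dvd (by omega) hre
    omega
  have hlt : 2 ^ m ≤ 2 ^ m ^ 2 := by
    apply Nat.pow_le_pow_right (by norm_num)
    rw [pow_two]
    exact Nat.le_mul_self m
  have hDp : Nat.Coprime D₀ p := by
    rw [Nat.coprime_comm, Nat.Prime.coprime_iff_not_dvd hp]
    intro hd
    have := hprime p hp hd
    omega
  have hDN : ∀ P : Ideal (𝓞 K), P.IsPrime → ((D₀ : ℕ) : 𝓞 K) ∈ P →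
      ¬ p ∣ Nat.card (𝓞 K ⧸ P) - 1 := by
    intro P hP hDP hdv
    obtain ⟨r, hr, hrd, hrP⟩ := exists_prime_mem P hP D₀ hD₀0 hDP
    obtain ⟨h6, h7⟩ := card_le_pow P hP r hr.ne_zero hrP
    have h8 : r ^ Module.finrank ℚ K ≤ 2 ^ m ^ 2 := by
      rw [hm, pow_two, pow_mul]
      exact Nat.pow_le_pow_left (hprime r hr hrd).le m
    have := Nat.le_of_dvd (by omega) hdv
    omega
  exact mainD hp hp2 hl hlp hW hm hmp h3 D₀ L n hD₀0 hDp (Or.inl ⟨h2, hpm', hD₀e⟩) hDN hL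
    ((Nat.mul_dvd_mul_left p (Nat.mul_dvd_mul_right hD₀D L)).trans hn) hx hy hz h hv

end

end Pool.Agent.H95F
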