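import Pool.Agent.H95F.ThC

/-!
# Project H95F: number fields of degree at most four
-/

set_option autoImplicit false

namespace Pool.Agent.H95F

open Pool.Agent.Y546.WQ NumberField IsDedekindDomain Polynomial

section

variable {K : Type} [Field K] [NumberField K]

/-- the norm of a prime ideal above `r` is a power of `r` -/
theorem card_eq_pow (P : Ideal (𝓞 K)) (hP : P.IsPrime) (r : ℕ) (hr : r.Prime)
    (hrP : ((r : ℕ) : 𝓞 K) ∈ P) :
    ∃ f : ℕ, 0 < f ∧ f ≤ Module.finrank ℚ K ∧ Nat.card (𝓞 K ⧸ P) = r ^ f := by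
  have h1 : Ideal.absNorm P ∣ Ideal.absNorm (Ideal.span {((r : ℕ) : 𝓞 K)}) :=
    Ideal.absNorm_dvd_absNorm_of_le ((Ideal.span_singleton_le_iff_mem _).2 hrP)
  rw [Ideal.absNorm_span_natCast, RingOfIntegers.rank] at h1
  have h2 : Ideal.absNorm P = Nat.card (𝓞 K ⧸ P) := by
    rw [Ideal.absNorm_apply, Submodule.cardQuot_apply]
  rw [h2] at h1
  obtain ⟨f, hf, hfe⟩ := (Nat.dvd_prime_pow hr).1 h1
  refine ⟨f, Nat.pos_of_ne_zero ?_, hf, hfe⟩
  rintro rfl
  have h3 := (card_le_pow P hP r hr.ne_zero hrP).1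
  rw [hfe, pow_zero] at h3
  exact lt_irrefl _ h3

/-- the norms of the primes above two and three in degrees at most four -/
theorem not_dvd_small {p : ℕ} (hp : p.Prime) (h17 : 17 ≤ p) (P : Ideal (𝓞 K)) (hP : P.IsPrime)
    (hm : Module.finrank ℚ K ≤ 4) (D : ℕ) (hD : D = 6 ∨ D = 12)
    (hDP : ((D : ℕ) : 𝓞 K) ∈ P) : ¬ p ∣ Nat.card (𝓞 K ⧸ P) - 1 := by
  have hD0 : D ≠ 0 := by
    rcases hD with rfl | rfl <;> norm_num
  obtain ⟨r, hr, hrd, hrP⟩ := exists_prime_mem P hP D hD0 hDP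
  have hr23 : r = 2 ∨ r = 3 := by
    have h1 : r ∣ 12 := by
      rcases hD with rfl | rfl
      · exact hrd.trans (by norm_num)
      · exact hrd
    have h2 : r ≤ 12 := Nat.le_of_dvd (by norm_num) h1
    interval_cases r <;> first | omega | (exfalso; revert hr; norm_num)
  obtain ⟨f, hf0, hfm, hfe⟩ := card_eq_pow P hP r hr hrP
  rw [hfe]
  intro hdv
  have hf4 : f ≤ 4 := hfm.trans hm
  have small : ∀ a : ℕ, 0 < a → a < 17 → ¬ p ∣ a := fun a ha ha' hd => by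
    have := Nat.le_of_dvd ha hd
    omega
  rcases hr23 with rfl | rfl
  · interval_cases f
    · exact small _ (by norm_num) (by norm_num) hdv
    · exact small _ (by norm_num) (by norm_num) hdv
    · exact small _ (by norm_num) (by norm_num) hdv
    · exact small _ (by norm_num) (by norm_num) hdv
  · interval_cases f
    · exact small _ (by norm_num) (by norm_num) hdv
    · exact small _ (by norm_num) (by norm_num) hdv
    · have h1 : p ∣ 2 * 13 := by simpa using hdv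
      rcases (Nat.Prime.dvd_mul hp).1 h1 with h2 | h2
      · exact small 2 (by norm_num) (by norm_num) h2
      · exact small 13 (by norm_num) (by norm_num) h2
    · have h1 : p ∣ 16 * 5 := by simpa using hdv
      rcases (Nat.Prime.dvd_mul hp).1 h1 with h2 | h2
      · exact small 16 (by norm_num) (by norm_num) h2
      · exact small 5 (by norm_num) (by norm_num) h2

/-- number fields of degree at most four -/
theorem mainS {p l m : ℕ} (hp : p.Prime) (hl : l.Prime) (hlp : l ≠ p)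
    (hW : ¬ p ^ 2 ∣ l ^ (p - 1) - 1) (hm : Module.finrank ℚ K = m)
    (h17 : 17 ≤ p) (h3 : ¬ 3 ∣ m ∨ l ≠ 2) (D L n : ℕ)
    (hD : (m ≤ 3 ∧ 6 ∣ D) ∨ (m ≤ 4 ∧ 12 ∣ D))
    (hL : ∀ P : Ideal (𝓞 K), P.IsPrime → ((l : ℕ) : 𝓞 K) ∈ P → Nat.card (𝓞 K ⧸ P) - 1 ∣ L)
    (hn : p * (D * L) ∣ n) {x y z : K} (hx : x ≠ 0) (hy : y ≠ 0) (hz : z ≠ 0)
    (h : x ^ n + y ^ n = z ^ n)
    (hv : ∀ v : HeightOneSpectrum (𝓞 K), ((p : ℕ) : 𝓞 K) ∈ v.asIdeal →
      v.valuation K x = v.valuation K y ∧ v.valuation K y = v.valuation K z) : False := by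
  have key : ∀ D₀ : ℕ, ((m ≤ 3 ∧ D₀ = 6) ∨ (m ≤ 4 ∧ D₀ = 12)) → D₀ ∣ D → False := by
    intro D₀ hD₀ hdv
    have hm4 : Module.finrank ℚ K ≤ 4 := by omega
    have hD₀' : D₀ = 6 ∨ D₀ = 12 := by
      rcases hD₀ with h | h
      · exact Or.inl h.2
      · exact Or.inr h.2
    have hD₀0 : D₀ ≠ 0 := by omega
    have hcop : Nat.Coprime D₀ p := by
      rw [Nat.coprime_comm, Nat.Prime.coprime_iff_not_dvd hp]
      intro hd
      have := Nat.le_of_dvd (Nat.pos_of_ne_zero hD₀0) hd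
      omega
    exact mainD hp (by omega) hl hlp hW hm (by omega) h3 D₀ L n hD₀0 hcop
      (Or.inr ⟨by omega, hD₀⟩)
      (fun P hP hDP => not_dvd_small hp h17 P hP hm4 D₀ hD₀' hDP) hL
      ((Nat.mul_dvd_mul_left p (Nat.mul_dvd_mul_right hdv L)).trans hn) hx hy hz h hv
  rcases hD with ⟨h1, h2⟩ | ⟨h1, h2⟩
  · exact key 6 (Or.inl ⟨h1, rfl⟩) h2
  · exact key 12 (Or.inr ⟨h1, rfl⟩) h2

end

end Pool.Agent.H95F
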